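import Mathlib

/-!
# Change of the level in the character sums of modular symbols
-/

set_option autoImplicit false

namespace Pool.Agent.Y683.CG

open Finset

/-- the relations of the modular symbols `κ q a` -/
structure Ksy (m : ℕ) (κ : ℕ → ℤ → ℂ) (c e : ℕ → ℂ) : Prop where
  per : ∀ q : ℕ, 0 < q → ∀ a n : ℤ, κ q (a + n * q) = κ q a
  scale : ∀ g q : ℕ, 0 < g → 0 < q → ∀ a : ℤ, κ (g * q) (g * a) = (g : ℂ) ^ (m - 1) * κ q a
  hecke : ∀ p : ℕ, p.Prime → ∀ q : ℕ, 0 < q → ∀ a : ℤ,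
    c p * κ q a = e p * (p : ℂ) ^ (m - 1) * κ q (p * a) +
      ∑ b ∈ range p, κ (q * p) (a + b * q)

/-- the character sum of level `M` -/
noncomputable def lev (κ : ℕ → ℤ → ℂ) (M : ℕ) (Ψ : ℕ → ℂ) : ℂ :=
  ∑ u ∈ (range M).filter (fun u => Nat.Coprime u M), Ψ u * κ M u

lemma lev_congr (κ : ℕ → ℤ → ℂ) (M : ℕ) {Ψ Φ : ℕ → ℂ}
    (h : ∀ u : ℕ, Nat.Coprime u M → Ψ u = Φ u) : lev κ M Ψ = lev κ M Φ := by
  unfold lev
  refine sum_congr rfl fun u hu => ?_
  rw [h u (mem_filter.1 hu).2]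

lemma dc_zero {M : ℕ} (D : DirichletCharacter ℂ M) {u : ℕ} (hu : ¬ Nat.Coprime u M) :
    D (u : ZMod M) = 0 :=
  MulChar.map_nonunit _ fun h => hu ((ZMod.isUnit_iff_coprime u M).1 h)

lemma lev_full (κ : ℕ → ℤ → ℂ) {M : ℕ} (D : DirichletCharacter ℂ M) :
    lev κ M (fun u => D (u : ZMod M)) = ∑ u ∈ range M, D (u : ZMod M) * κ M u := by
  unfold lev
  rw [sum_filter]
  refine sum_congr rfl fun u _ => ?_
  split_ifs with h
  · rfl
  · rw [dc_zero D h, zero_mul]

lemma sum_blocks {M : ℕ} (p : ℕ) (f : ℕ → ℂ) :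
    ∑ u ∈ range (M * p), f u = ∑ a ∈ range M, ∑ b ∈ range p, f (a + b * M) := by
  induction p with
  | zero => simp
  | succ p ih =>
    rw [Nat.mul_succ, sum_range_add, ih, ← sum_add_distrib]
    refine sum_congr rfl fun a _ => ?_
    rw [sum_range_succ]
    congr 2
    ring

lemma sum_dvd {M p : ℕ} (hp : 0 < p) (f : ℕ → ℂ) :
    ∑ u ∈ (range (M * p)).filter (fun u => p ∣ u), f u = ∑ y ∈ range M, f (p * y) := by
  symm
  refine sum_bij (fun y _ => p * y) ?_ ?_ ?_ ?_
  · intro y hy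
    rw [mem_filter, mem_range]
    refine ⟨?_, dvd_mul_right _ _⟩
    rw [mul_comm M p]
    exact Nat.mul_lt_mul_of_pos_left (mem_range.1 hy) hp
  · intro a _ b _ h
    exact Nat.eq_of_mul_eq_mul_left hp h
  · intro u hu
    rw [mem_filter, mem_range] at hu
    obtain ⟨h1, y, rfl⟩ := hu
    refine ⟨y, ?_, rfl⟩
    rw [mul_comm M p] at h1
    exact mem_range.2 (Nat.lt_of_mul_lt_mul_left h1)
  · intro y _
    rfl

variable {m : ℕ} {κ : ℕ → ℤ → ℂ} {c e : ℕ → ℂ}

lemma sum_mulp (h : Ksy m κ c e) {M : ℕ} (hM : 0 < M) (D : DirichletCharacter ℂ M) {p : ℕ}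
    (hpM : Nat.Coprime p M) :
    ∑ a ∈ range M, D (a : ZMod M) * κ M (p * a) =
      (D (p : ZMod M))⁻¹ * ∑ a ∈ range M, D (a : ZMod M) * κ M a := by
  have : NeZero M := ⟨hM.ne'⟩
  have hD : D (p : ZMod M) ≠ 0 := by
    have h1 : IsUnit (p : ZMod M) := (ZMod.isUnit_iff_coprime p M).2 hpM
    exact (h1.map D).ne_zero
  have h1 : ∀ g : ZMod M → ℂ, ∑ a ∈ range M, g (a : ZMod M) = ∑ x : ZMod M, g x := by
    intro g
    refine sum_bij (fun a _ => (a : ZMod M)) (fun a _ => mem_univ _) ?_ ?_ ?_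
    · intro a ha b hb hab
      have h2 := congrArg ZMod.val hab
      rwa [ZMod.val_natCast_of_lt (mem_range.1 ha), ZMod.val_natCast_of_lt (mem_range.1 hb)] at h2
    · intro x _
      exact ⟨x.val, mem_range.2 (ZMod.val_lt x), ZMod.natCast_zmod_val x⟩
    · intro a _
      rfl
  have h2 : ∀ a : ℕ, κ M a = κ M ((a : ZMod M).val : ℕ) := by
    intro a
    have h3 : (a : ℤ) = ((a : ZMod M).val : ℤ) + ((a / M : ℕ) : ℤ) * M := by
      rw [ZMod.val_natCast]
      have := Nat.mod_add_div a M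
      push_cast
      have h4 : (a : ℤ) = ((a % M + M * (a / M) : ℕ) : ℤ) := by exact_mod_cast this.symm
      push_cast at h4
      linarith
    rw [h3, h.per M hM]
  have hunit : IsUnit (p : ZMod M) := (ZMod.isUnit_iff_coprime p M).2 hpM
  set g : ZMod M → ℂ := fun x => D x * κ M (x.val : ℕ) with hg
  have e1 : ∑ a ∈ range M, D (a : ZMod M) * κ M a = ∑ x : ZMod M, g x := by
    rw [← h1]
    refine sum_congr rfl fun a _ => ?_
    simp only [hg]
    rw [h2 a]
  have e2 : ∑ a ∈ range M, D (a : ZMod M) * κ M (p * a) =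
      (D (p : ZMod M))⁻¹ * ∑ x : ZMod M, g (p * x) := by
    rw [← h1 (fun x => g (p * x)), mul_sum]
    refine sum_congr rfl fun a _ => ?_
    simp only [hg]
    rw [map_mul]
    have h3 := h2 (p * a)
    push_cast at h3
    rw [h3]
    field_simp
  rw [e1, e2]
  congr 1
  exact Equiv.sum_comp (Units.mulLeft hunit.unit) g

/-- **one prime more** -/
theorem lev_step (h : Ksy m κ c e) {M : ℕ} (hM : 0 < M) (D : DirichletCharacter ℂ M) {p : ℕ}
    (hp : p.Prime) (hpM : Nat.Coprime p M) :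
    lev κ (M * p) (fun u => D (u : ZMod M)) =
      (c p - e p * (p : ℂ) ^ (m - 1) * (D (p : ZMod M))⁻¹ - (p : ℂ) ^ (m - 1) * D (p : ZMod M)) *
        lev κ M (fun u => D (u : ZMod M)) := by
  rw [lev_full]
  have h1 : lev κ (M * p) (fun u => D (u : ZMod M)) =
      ∑ u ∈ range (M * p), D (u : ZMod M) * κ (M * p) u -
      ∑ u ∈ (range (M * p)).filter (fun u => p ∣ u), D (u : ZMod M) * κ (M * p) u := by
    rw [eq_sub_iff_add_eq, ← sum_filter_not_add_sum_filter (range (M * p)) (fun u => p ∣ u)]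
    congr 1
    unfold lev
    rw [sum_filter, sum_filter]
    refine sum_congr rfl fun u _ => ?_
    by_cases hu : Nat.Coprime u M
    · have h2 : Nat.Coprime u (M * p) ↔ ¬ p ∣ u := by
        rw [Nat.coprime_mul_iff_right, ← hp.coprime_iff_not_dvd]
        exact ⟨fun h => h.2.symm, fun h => ⟨hu, h.symm⟩⟩
      by_cases h3 : p ∣ u
      · rw [if_neg (fun h4 => h2.1 h4 h3), if_neg (not_not.2 h3)]
      · rw [if_pos (h2.2 h3), if_pos h3]
    · have h3 : ¬ Nat.Coprime u (M * p) := fun h4 => hu (Nat.Coprime.coprime_mul_right_right h4)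
      rw [if_neg h3, dc_zero D hu, zero_mul, ite_self]
  rw [h1, sum_blocks, sum_dvd hp.pos]
  have h2 : ∀ a ∈ range M, ∑ b ∈ range p, D ((a + b * M : ℕ) : ZMod M) *
      κ (M * p) ((a + b * M : ℕ) : ℤ) =
      c p * (D (a : ZMod M) * κ M a) - e p * (p : ℂ) ^ (m - 1) * (D (a : ZMod M) * κ M (p * a)) := by
    intro a _
    have h3 := h.hecke p hp M hM a
    have h4 : ∑ b ∈ range p, D ((a + b * M : ℕ) : ZMod M) * κ (M * p) ((a + b * M : ℕ) : ℤ) =
        D (a : ZMod M) * ∑ b ∈ range p, κ (M * p) (a + b * M) := by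
      rw [mul_sum]
      refine sum_congr rfl fun b _ => ?_
      have h5 : ((a + b * M : ℕ) : ZMod M) = (a : ZMod M) := by
        push_cast
        rw [ZMod.natCast_self, mul_zero, add_zero]
      rw [h5]
      push_cast
      rfl
    rw [h4]
    linear_combination (-(D (a : ZMod M))) * h3
  rw [sum_congr rfl h2, sum_sub_distrib, ← mul_sum, ← mul_sum, sum_mulp h hM D hpM]
  have h3 : ∀ y ∈ range M, D ((p * y : ℕ) : ZMod M) * κ (M * p) ((p * y : ℕ) : ℤ) =
      (p : ℂ) ^ (m - 1) * D (p : ZMod M) * (D (y : ZMod M) * κ M y) := by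
    intro y _
    rw [mul_comm M p]
    have h4 := h.scale p M hp.pos hM y
    push_cast
    rw [h4, map_mul]
    ring
  rw [sum_congr rfl h3, ← mul_sum]
  ring

/-- **more primes** -/
theorem lev_many (h : Ksy m κ c e) {M : ℕ} (hM : 0 < M) (D : DirichletCharacter ℂ M)
    (R : Finset ℕ) (hR : ∀ p ∈ R, p.Prime ∧ Nat.Coprime p M) :
    lev κ (M * ∏ p ∈ R, p) (fun u => D (u : ZMod M)) =
      (∏ p ∈ R, (c p - e p * (p : ℂ) ^ (m - 1) * (D (p : ZMod M))⁻¹ -
        (p : ℂ) ^ (m - 1) * D (p : ZMod M))) * lev κ M (fun u => D (u : ZMod M)) := by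
  classical
  induction R using Finset.induction_on with
  | empty => rw [prod_empty, prod_empty, mul_one, one_mul]
  | insert p R hpR ih =>
    have hR' : ∀ q ∈ R, q.Prime ∧ Nat.Coprime q M := fun q hq => hR q (mem_insert_of_mem hq)
    have hp := hR p (mem_insert_self p R)
    have ih' := ih hR'
    rw [prod_insert hpR, prod_insert hpR, mul_assoc, ← ih']
    set M' : ℕ := M * ∏ q ∈ R, q with hM'
    have hM'0 : 0 < M' := Nat.mul_pos hM (prod_pos fun q hq => (hR' q hq).1.pos)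
    have hdvd : M ∣ M' := dvd_mul_right _ _
    have hpM' : Nat.Coprime p M' := by
      refine Nat.Coprime.mul_right hp.2 (Nat.Coprime.prod_right fun q hq => ?_)
      refine (Nat.coprime_primes hp.1 (hR' q hq).1).2 ?_
      rintro rfl
      exact hpR hq
    have hval : ∀ u : ℕ, Nat.Coprime u M' →
        (DirichletCharacter.changeLevel hdvd D) (u : ZMod M') = D (u : ZMod M) := by
      intro u hu
      have h1 := DirichletCharacter.changeLevel_eq_cast_of_dvd' D hdvd (a := (u : ℤ))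
        (Nat.isCoprime_iff_coprime.2 hu)
      push_cast at h1
      exact h1
    have hst := lev_step h hM'0 (DirichletCharacter.changeLevel hdvd D) hp.1 hpM'
    rw [hval p hpM', lev_congr κ M' hval] at hst
    rw [← hst]
    have e1 : M * (p * ∏ q ∈ R, q) = M' * p := by rw [hM']; ring
    rw [e1]
    refine lev_congr κ (M' * p) fun u hu => (hval u (Nat.Coprime.coprime_mul_right_right hu)).symm

end Pool.Agent.Y683.CG
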