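import Pool.Agent.Y683.CG.PartA
import Pool.Agent.Y683.NF.Main

/-!
# Primitive characters of conductor and order a power of a prime
-/

set_option autoImplicit false

namespace Pool.Agent.Y683.CG

open Complex Filter Topology Set ZMod
open UpperHalfPlane hiding I
open scoped MatrixGroups
open CongruenceSubgroup
open Pool.Agent.W192.CY
open Pool.Agent.Y683.MS
open Pool.Agent.Y683.NF

lemma pow_of_sq_zero {R : Type*} [CommRing R] {t : R} (ht : t * t = 0) (n : ℕ) :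
    (1 + t) ^ n = 1 + n * t := by
  induction n with
  | zero => simp
  | succ n ih =>
    rw [pow_succ, ih]
    push_cast
    linear_combination (n : R) * ht

/-- a primitive character of conductor `l ^ (k + 2)` and `l`-power order -/
theorem exists_lchar {l : ℕ} (hl : l.Prime) (k : ℕ) : ∃ (a : ℕ)
    (χ : DirichletCharacter ℂ (l ^ (k + 2))), χ.IsPrimitive ∧ χ ^ (l ^ a) = 1 := by
  have hne : NeZero (l ^ (k + 2)) := ⟨(pow_pos hl.pos _).ne'⟩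
  set u : ℕ := 1 + l ^ (k + 1) with hu
  have hcop : Nat.Coprime u (l ^ (k + 2)) := by
    refine Nat.Coprime.pow_right _ ?_
    rw [hu, pow_succ']
    simp
  have hune : (u : ZMod (l ^ (k + 2))) ≠ 1 := by
    intro h
    have h1 : (u : ZMod (l ^ (k + 2))) = ((1 : ℕ) : ZMod (l ^ (k + 2))) := by
      rw [h, Nat.cast_one]
    rw [ZMod.natCast_eq_natCast_iff] at h1
    have h2 : l ^ (k + 2) ∣ l ^ (k + 1) := by
      have h3 := (Nat.modEq_iff_dvd' (by omega : 1 ≤ u)).1 h1.symm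
      have h4 : u - 1 = l ^ (k + 1) := by omega
      rwa [h4] at h3
    have h5 := (Nat.pow_dvd_pow_iff_le_right hl.one_lt).1 h2
    omega
  have h0 : ((l ^ (k + 2) : ℕ) : ZMod (l ^ (k + 2))) = 0 := ZMod.natCast_self _
  have hul : (u : ZMod (l ^ (k + 2))) ^ l = 1 := by
    have e1 : (u : ZMod (l ^ (k + 2))) = 1 + ((l ^ (k + 1) : ℕ) : ZMod (l ^ (k + 2))) := by
      rw [hu]
      push_cast
      rfl
    have e2 : ((l ^ (k + 1) : ℕ) : ZMod (l ^ (k + 2))) * ((l ^ (k + 1) : ℕ) : ZMod (l ^ (k + 2))) =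
        0 := by
      rw [← Nat.cast_mul, show l ^ (k + 1) * l ^ (k + 1) = l ^ (k + 2) * l ^ k by ring,
        Nat.cast_mul, h0, zero_mul]
    rw [e1, pow_of_sq_zero e2, ← Nat.cast_mul, show l * l ^ (k + 1) = l ^ (k + 2) by ring, h0,
      add_zero]
  obtain ⟨χ, hχ⟩ := DirichletCharacter.exists_apply_ne_one_of_hasEnoughRootsOfUnity ℂ hune
  have hord : 0 < orderOf χ := orderOf_pos χ
  obtain ⟨a, j, hj, haj⟩ := Nat.exists_eq_pow_mul_and_not_dvd hord.ne' l hl.ne_one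
  have huU : IsUnit (u : ZMod (l ^ (k + 2))) := (ZMod.isUnit_iff_coprime u _).2 hcop
  have hval : (χ ^ j) (u : ZMod (l ^ (k + 2))) ≠ 1 := by
    intro h
    rw [MulChar.pow_apply' _ (by rintro rfl; exact hj (dvd_zero l))] at h
    have h2 : χ (u : ZMod (l ^ (k + 2))) ^ l = 1 := by rw [← map_pow, hul, map_one]
    have h3 : Nat.Coprime j l := ((Nat.Prime.coprime_iff_not_dvd hl).2 hj).symm
    have h4 := pow_gcd_eq_one.2 ⟨h, h2⟩
    rw [h3.gcd_eq_one, pow_one] at h4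
    exact hχ h4
  refine ⟨a, χ ^ j, ?_, ?_⟩
  · set φ := χ ^ j with hφ
    by_contra hnp
    have h1 : φ.conductor ∣ l ^ (k + 2) := φ.conductor_dvd_level
    obtain ⟨t, ht, hφt⟩ := (Nat.dvd_prime_pow hl).1 h1
    have ht' : t ≤ k + 1 := by
      rcases Nat.lt_or_ge t (k + 2) with h | h
      · omega
      · exfalso
        apply hnp
        have : t = k + 2 := le_antisymm ht h
        show φ.conductor = _
        rw [hφt, this]
    have h2 := cl_val h1 φ.primitiveCharacter hcop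
    rw [DirichletCharacter.changeLevel_primitiveCharacter] at h2
    have h3 : (u : ZMod φ.conductor) = 1 := by
      have h4 : ((l ^ (k + 1) : ℕ) : ZMod φ.conductor) = 0 := by
        rw [ZMod.natCast_eq_zero_iff, hφt]
        exact pow_dvd_pow _ ht'
      rw [hu, Nat.cast_add, h4, Nat.cast_one, add_zero]
    rw [h3, map_one] at h2
    exact hval h2
  · rw [← pow_mul, mul_comm, ← haj]
    exact pow_orderOf_eq_one χ

/-- the order of a primitive character of conductor a power of `l` -/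
theorem lchar_order {l : ℕ} (hl : l.Prime) {k : ℕ} (hk : 16 ≤ k)
    (χ : DirichletCharacter ℂ (l ^ k)) (hχ : χ.IsPrimitive) :
    ((l ^ k : ℕ) : ℝ) ^ (3 / 4 + 1 / 8 : ℝ) ≤ orderOf χ := by
  have hne : NeZero (l ^ k) := ⟨(pow_pos hl.pos _).ne'⟩
  have hord : 0 < orderOf χ := orderOf_pos χ
  have h1 : l ^ (k - 2) ∣ orderOf χ := by
    by_cases h2 : l = 2
    · subst h2
      obtain ⟨n, rfl⟩ : ∃ n, k = n + 3 := ⟨k - 3, by omega⟩
      exact two_pow_order χ hχ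
    · obtain ⟨n, rfl⟩ : ∃ n, k = n + 1 := ⟨k - 1, by omega⟩
      have h3 := Pool.Agent.TH940.prime_pow_order hl h2 χ hχ
      exact (pow_dvd_pow _ (by omega)).trans h3
  have h2 : l ^ (k - 2) ≤ orderOf χ := Nat.le_of_dvd hord h1
  have hl1 : (1 : ℝ) ≤ l := by exact_mod_cast hl.one_lt.le
  have h3 : ((l ^ k : ℕ) : ℝ) ^ (3 / 4 + 1 / 8 : ℝ) ≤ ((l ^ (k - 2) : ℕ) : ℝ) := by
    push_cast
    rw [← Real.rpow_natCast (l : ℝ) k, ← Real.rpow_natCast (l : ℝ) (k - 2), ← Real.rpow_mul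
      (by linarith)]
    refine Real.rpow_le_rpow_of_exponent_le hl1 ?_
    have h4 : ((k - 2 : ℕ) : ℝ) = (k : ℝ) - 2 := by
      push_cast [Nat.cast_sub (by omega : 2 ≤ k)]
      ring
    rw [h4]
    have : (16 : ℝ) ≤ k := by exact_mod_cast hk
    linarith
  exact h3.trans (by exact_mod_cast h2)

lemma one_sub_mem {l : ℕ} (hl : l.Prime) (𝔪 : Ideal (integralClosure ℤ ℂ)) (hmax : 𝔪.IsMaximal)
    (hlm : (l : integralClosure ℤ ℂ) ∈ 𝔪) {z : integralClosure ℤ ℂ} {a : ℕ}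
    (hz : z ^ (l ^ a) = 1) : 1 - z ∈ 𝔪 := by
  have hfl : Fact l.Prime := ⟨hl⟩
  have hprime : 𝔪.IsPrime := hmax.isPrime
  have hdom : IsDomain (integralClosure ℤ ℂ ⧸ 𝔪) := Ideal.Quotient.isDomain 𝔪
  have hchar : CharP (integralClosure ℤ ℂ ⧸ 𝔪) l := by
    refine (CharP.charP_iff_prime_eq_zero hl).2 ?_
    have := Ideal.Quotient.eq_zero_iff_mem.2 hlm
    rwa [map_natCast] at this
  rw [← Ideal.Quotient.eq_zero_iff_mem, map_sub, map_one]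
  have h2 : (Ideal.Quotient.mk 𝔪 z) ^ (l ^ a) = 1 := by rw [← map_pow, hz, map_one]
  have h3 : (1 - Ideal.Quotient.mk 𝔪 z) ^ (l ^ a) = 0 := by
    rw [sub_pow_char_pow, h2, one_pow, sub_self]
  exact (pow_eq_zero_iff (pow_pos hl.pos a).ne').1 h3

/-- the base characters -/
theorem base_exists {r : ℕ} {m N : Fin r → ℕ} [∀ i, NeZero (N i)] (hm : ∀ i, 1 ≤ m i)
    {η : (i : Fin r) → DirichletCharacter ℂ (N i)}
    {f : (i : Fin r) → CuspForm (Gamma1 (N i) : Subgroup (GL (Fin 2) ℝ)) (2 * m i : ℤ)}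
    {w : Fin r → ℂ} (hf : ∀ i, NNewf (m i) (N i) (η i) (f i) (w i)) {l : ℕ} (hl : l.Prime)
    (hlN : ∀ i, ¬ l ∣ N i) : ∃ (k a : ℕ) (χ₀ : DirichletCharacter ℂ (l ^ k)), χ₀.IsPrimitive ∧
      χ₀ ^ (l ^ a) = 1 ∧ ∀ i, NVC (η i) (f i) (vals χ₀ 1) := by
  have h1 : ∀ i, ∃ q₀ : ℕ, ∀ q : ℕ, q₀ ≤ q → 1 ≤ q → Nat.Coprime q (N i) →
      ∀ χ : DirichletCharacter ℂ q, χ.IsPrimitive → (q : ℝ) ^ (3 / 4 + 1 / 8 : ℝ) ≤ orderOf χ →
        NVC (η i) (f i) (fun n : ℕ => χ (n : ZMod q)) := by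
    intro i
    obtain ⟨L, hL, hnv, -, -⟩ := main (hm i) (hf i)
    obtain ⟨q₀, hq₀⟩ := hnv (1 / 8) (by norm_num)
    refine ⟨q₀, fun q hq hq1 hqN χ hχ hord => ⟨L q χ, ?_, ?_, hq₀ q hq hqN χ hχ hord⟩⟩
    · exact (hL q χ hq1 hqN hχ).1
    · exact (hL q χ hq1 hqN hχ).2
  choose q₀ hq₀ using h1
  set k : ℕ := 14 + ∑ i, q₀ i with hk
  obtain ⟨a, χ₀, hχ, ha⟩ := exists_lchar hl k
  refine ⟨k + 2, a, χ₀, hχ, ha, fun i => ?_⟩
  have h2 : vals χ₀ 1 = fun n : ℕ => χ₀ (n : ZMod (l ^ (k + 2))) := by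
    funext n
    rw [vals_eq χ₀ 1 ∅ (fun q => ⟨fun h => absurd h (Finset.notMem_empty q),
      fun h => absurd rfl h⟩), Finset.prod_empty, mul_one]
  rw [h2]
  have h3 : q₀ i ≤ k + 2 := by
    have := Finset.single_le_sum (f := q₀) (fun j _ => Nat.zero_le _) (Finset.mem_univ i)
    omega
  have h4 : k + 2 ≤ l ^ (k + 2) := (Nat.lt_pow_self hl.one_lt).le
  refine hq₀ i (l ^ (k + 2)) (h3.trans h4) (Nat.one_le_iff_ne_zero.2 (pow_pos hl.pos _).ne') ?_ χ₀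
    hχ (lchar_order hl (by omega) χ₀ hχ)
  exact Nat.Coprime.pow_left _ ((Nat.Prime.coprime_iff_not_dvd hl).2 (hlN i))

theorem partB {r : ℕ} {m N : Fin r → ℕ} [∀ i, NeZero (N i)] (hm : ∀ i, 1 ≤ m i)
    {η : (i : Fin r) → DirichletCharacter ℂ (N i)}
    {f : (i : Fin r) → CuspForm (Gamma1 (N i) : Subgroup (GL (Fin 2) ℝ)) (2 * m i : ℤ)}
    {w : Fin r → ℂ} (hf : ∀ i, NNewf (m i) (N i) (η i) (f i) (w i)) {l : ℕ} (hl : l.Prime)
    (𝔪 : Ideal (integralClosure ℤ ℂ)) (hmax : 𝔪.IsMaximal) (hlm : (l : integralClosure ℤ ℂ) ∈ 𝔪)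
    (hlN : ∀ i, ¬ l ∣ N i) : ∃ (k a : ℕ) (χ₀ : DirichletCharacter ℂ (l ^ k)), χ₀.IsPrimitive ∧
      χ₀ ^ (l ^ a) = 1 ∧ ∀ b : ℕ,
    ∃ V : ℕ, ∀ H : Subgroup Fam, (∀ χ ∈ H, χ ^ (l ^ b) = 1 ∧ {q | χ q ≠ 1}.Finite ∧
      ∀ q, χ q ≠ 1 → q.Prime ∧ ∀ i, ¬ q ∣ N i ∧ ∃ x : integralClosure ℤ ℂ, x ∉ 𝔪 ∧
        (x : ℂ) = cf (f i) q - 1 - η i (q : ZMod (N i))) →
      ∃ K : Subgroup Fam, K ≤ H ∧ Finite K ∧ Nat.card K ≤ (l ^ b) ^ V ∧
        ∀ ψ ∈ H, ∃ φ ∈ K, ∀ i, NVC (η i) (f i) (vals χ₀ (ψ * φ)) := by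
  obtain ⟨k, a, χ₀, hχ, ha, hnv⟩ := base_exists hm hf hl hlN
  refine ⟨k, a, χ₀, hχ, ha, fun b => ?_⟩
  have hne : NeZero (l ^ k) := ⟨(pow_pos hl.pos _).ne'⟩
  obtain ⟨V, hV⟩ := partA hm hf hl 𝔪 hmax hlm (c := fun _ => l ^ k)
    (fun _ => Nat.one_le_iff_ne_zero.2 (pow_pos hl.pos _).ne') (fun _ => χ₀) (fun _ => hχ)
    (fun i => Nat.Coprime.pow_left _ ((Nat.Prime.coprime_iff_not_dvd hl).2 (hlN i))) hnv b
  refine ⟨V, fun H hH => hV H fun χ hχH => ?_⟩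
  obtain ⟨h1, h2, h3⟩ := hH χ hχH
  refine ⟨h1, h2, fun q hq => ?_⟩
  obtain ⟨h4, h5⟩ := h3 q hq
  refine ⟨h4, fun i => ?_⟩
  obtain ⟨h6, x, hx, hxe⟩ := h5 i
  have h7 := (dvd_of_ord hl h4 (χ q) hq (congrFun h1 q)).2
  have h8 : Nat.Coprime q (l ^ k) :=
    Nat.Coprime.pow_right _ ((Nat.coprime_primes h4 hl).2 h7)
  refine ⟨h6, fun h9 => ?_, ?_⟩
  · exact h7 ((Nat.prime_dvd_prime_iff_eq h4 hl).1 (h4.dvd_of_dvd_pow h9))
  · -- the values of `χ₀` are one modulo `𝔪`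
    have hu : IsUnit (q : ZMod (l ^ k)) := (ZMod.isUnit_iff_coprime q _).2 h8
    set ζ : ℂ := χ₀ (q : ZMod (l ^ k)) with hζ
    have hζa : ζ ^ (l ^ a) = 1 := by
      have h9 : (χ₀ ^ (l ^ a)) (q : ZMod (l ^ k)) =
          (1 : DirichletCharacter ℂ (l ^ k)) (q : ZMod (l ^ k)) := by rw [ha]
      rw [MulChar.pow_apply' _ (pow_pos hl.pos a).ne', MulChar.one_apply hu] at h9
      exact h9
    have hint : ∀ ξ : ℂ, ∀ n : ℕ, 0 < n → ξ ^ n = 1 → ξ ∈ integralClosure ℤ ℂ := by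
      intro ξ n hn hξ
      refine IsIntegral.of_pow hn ?_
      rw [hξ]
      exact isIntegral_one
    have hla : 0 < l ^ a := pow_pos hl.pos a
    have hζi : (ζ⁻¹) ^ (l ^ a) = 1 := by rw [inv_pow, hζa, inv_one]
    set z : integralClosure ℤ ℂ := ⟨ζ, hint _ _ hla hζa⟩ with hz
    set z' : integralClosure ℤ ℂ := ⟨ζ⁻¹, hint _ _ hla hζi⟩ with hz'
    have hη : η i (q : ZMod (N i)) ^ (Nat.totient (N i)) = 1 :=
      dc_root (dvd_refl _) (η i) ((Nat.Prime.coprime_iff_not_dvd h4).2 h6)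
    set e : integralClosure ℤ ℂ := ⟨η i (q : ZMod (N i)), hint _ _
      (Nat.totient_pos.2 (Nat.pos_of_ne_zero (NeZero.ne (N i)))) hη⟩ with he
    have m1 : 1 - z ∈ 𝔪 := one_sub_mem hl 𝔪 hmax hlm (a := a) (Subtype.ext hζa)
    have m2 : 1 - z' ∈ 𝔪 := one_sub_mem hl 𝔪 hmax hlm (a := a) (Subtype.ext hζi)
    refine ⟨x + (e * (1 - z) + (1 - z')), fun hmem => hx ?_, ?_⟩
    · exact (Ideal.add_mem_iff_left _ (Ideal.add_mem _ (Ideal.mul_mem_left _ e m1) m2)).1 hmem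
    · push_cast
      rw [hxe, hz, hz', he]
      ring

end Pool.Agent.Y683.CG
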