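import Mathlib

/-!
# Products of primitive Dirichlet characters of coprime conductors
-/

set_option autoImplicit false

namespace Pool.Agent.Y683.CG

open DirichletCharacter

lemma cl_val {m k : ℕ} (hm : m ∣ k) (D : DirichletCharacter ℂ m) {u : ℕ} (hu : Nat.Coprime u k) :
    changeLevel hm D (u : ZMod k) = D (u : ZMod m) := by
  have h1 := changeLevel_eq_cast_of_dvd' D hm (a := (u : ℤ)) (Nat.isCoprime_iff_coprime.2 hu)
  push_cast at h1
  exact h1

lemma val_zero {m : ℕ} (D : DirichletCharacter ℂ m) {u : ℕ} (hu : ¬ Nat.Coprime u m) :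
    D (u : ZMod m) = 0 :=
  MulChar.map_nonunit _ fun h => hu ((ZMod.isUnit_iff_coprime u m).1 h)

lemma prim_left {k m n : ℕ} [NeZero k] (hk : k = m * n) (hcop : Nat.Coprime m n) (hm : m ∣ k)
    (hn : n ∣ k) (D : DirichletCharacter ℂ m) (ψ : DirichletCharacter ℂ n) (hD : D.IsPrimitive) :
    m ∣ (changeLevel hm D * changeLevel hn ψ).conductor := by
  set χ := changeLevel hm D * changeLevel hn ψ with hχ
  set d := χ.conductor with hd
  have hdk : d ∣ k := χ.conductor_dvd_level
  have hft : χ.FactorsThrough d := χ.factorsThrough_conductor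
  have hgm : Nat.gcd d m ∣ m := Nat.gcd_dvd_right _ _
  have hm0 : NeZero m := ⟨by
    rintro rfl
    rw [zero_mul] at hk
    exact NeZero.ne k hk⟩
  have h1 : D.FactorsThrough (Nat.gcd d m) := by
    rw [factorsThrough_iff_ker_unitsMap hgm]
    intro x hx
    rw [MonoidHom.mem_ker] at hx ⊢
    set a : ℕ := (x : ZMod m).val with ha
    have hxa : ((a : ℕ) : ZMod m) = x := ZMod.natCast_zmod_val _
    have hac : Nat.Coprime a m := ZMod.val_coe_unit_coprime x
    obtain ⟨z, hz1, hz2⟩ := Nat.chineseRemainder hcop a 1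
    have hzm : Nat.Coprime z m := by
      have h2 := hz1.gcd_eq
      unfold Nat.Coprime
      rw [h2]
      exact hac
    have hzn : Nat.Coprime z n := by
      have h2 := hz2.gcd_eq
      unfold Nat.Coprime
      rw [h2]
      exact Nat.gcd_one_left n
    have hzk : Nat.Coprime z k := by
      rw [hk]
      exact Nat.Coprime.mul_right hzm hzn
    set y : (ZMod k)ˣ := ZMod.unitOfCoprime z hzk with hy
    have hyk : ((y : ZMod k)) = z := ZMod.coe_unitOfCoprime z hzk
    -- `z ≡ 1 mod d`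
    have hzg : z ≡ 1 [MOD Nat.gcd d m] := by
      have h2 : ((a : ℕ) : ZMod (Nat.gcd d m)) = 1 := by
        have h3 := congrArg Units.val hx
        rw [ZMod.unitsMap_val, Units.val_one, ← hxa, ZMod.cast_natCast hgm] at h3
        exact h3
      have h3 : a ≡ 1 [MOD Nat.gcd d m] := by
        rw [← ZMod.natCast_eq_natCast_iff]
        rw [h2, Nat.cast_one]
      exact (hz1.of_dvd hgm).trans h3
    have hzd : z ≡ 1 [MOD d] := by
      have h2 : d = Nat.gcd d m * Nat.gcd d n := by
        rw [← Nat.Coprime.gcd_mul d hcop, ← hk]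
        exact (Nat.gcd_eq_left hdk).symm
      rw [h2]
      refine (Nat.modEq_and_modEq_iff_modEq_mul ?_).1
        ⟨hzg, hz2.of_dvd (Nat.gcd_dvd_right _ _)⟩
      exact Nat.Coprime.coprime_dvd_left (Nat.gcd_dvd_right _ _)
        (Nat.Coprime.coprime_dvd_right (Nat.gcd_dvd_right _ _) hcop)
    have hyd : y ∈ (ZMod.unitsMap hdk).ker := by
      rw [MonoidHom.mem_ker]
      apply Units.ext
      rw [ZMod.unitsMap_val, hyk, ZMod.cast_natCast hdk, Units.val_one]
      have := (ZMod.natCast_eq_natCast_iff z 1 d).2 hzd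
      rw [this, Nat.cast_one]
    have h2 := (factorsThrough_iff_ker_unitsMap hdk).1 hft hyd
    rw [MonoidHom.mem_ker] at h2
    have h3 : χ (z : ZMod k) = 1 := by
      have h4 := congrArg Units.val h2
      rw [MulChar.coe_toUnitHom, hyk, Units.val_one] at h4
      exact h4
    have h4 : χ (z : ZMod k) = D (z : ZMod m) * ψ (z : ZMod n) := by
      rw [hχ, MulChar.mul_apply, cl_val hm D hzk, cl_val hn ψ hzk]
    have h5 : (z : ZMod n) = 1 := by
      have := (ZMod.natCast_eq_natCast_iff z 1 n).2 hz2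
      rw [this, Nat.cast_one]
    have h6 : (z : ZMod m) = x := by
      rw [← hxa]
      exact (ZMod.natCast_eq_natCast_iff z a m).2 hz1
    rw [h3, h5, map_one, mul_one, h6] at h4
    apply Units.ext
    rw [MulChar.coe_toUnitHom, Units.val_one]
    exact h4.symm
  have h2 := conductor_dvd_of_mem_conductorSet D h1
  have h3 : D.conductor = m := hD
  rw [h3] at h2
  exact h2.trans (Nat.gcd_dvd_left _ _)

/-- the product of two primitive characters of coprime conductors -/
theorem mul_prim {m n : ℕ} [NeZero m] [NeZero n] (hcop : Nat.Coprime m n)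
    (D : DirichletCharacter ℂ m) (ψ : DirichletCharacter ℂ n) (hD : D.IsPrimitive)
    (hψ : ψ.IsPrimitive) : ∃ E : DirichletCharacter ℂ (m * n), E.IsPrimitive ∧
      ∀ u : ℕ, E (u : ZMod (m * n)) = D (u : ZMod m) * ψ (u : ZMod n) := by
  have hm : m ∣ m * n := dvd_mul_right _ _
  have hn : n ∣ m * n := dvd_mul_left _ _
  have : NeZero (m * n) := ⟨mul_ne_zero (NeZero.ne m) (NeZero.ne n)⟩
  refine ⟨changeLevel hm D * changeLevel hn ψ, ?_, fun u => ?_⟩
  · have h1 := prim_left (k := m * n) rfl hcop hm hn D ψ hD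
    have h2 := prim_left (k := m * n) (mul_comm m n) hcop.symm hn hm ψ D hψ
    rw [mul_comm (changeLevel hn ψ)] at h2
    have h3 : m * n ∣ (changeLevel hm D * changeLevel hn ψ).conductor :=
      Nat.Coprime.mul_dvd_of_dvd_of_dvd hcop h1 h2
    exact Nat.dvd_antisymm (conductor_dvd_level _) h3
  · by_cases hu : Nat.Coprime u (m * n)
    · rw [MulChar.mul_apply, cl_val hm D hu, cl_val hn ψ hu]
    · rw [val_zero _ hu]
      rw [Nat.coprime_mul_iff_right, not_and_or] at hu
      rcases hu with h | h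
      · rw [val_zero _ h, zero_mul]
      · rw [val_zero _ h, mul_zero]

lemma prime_prim {q : ℕ} (hq : q.Prime) (χ : DirichletCharacter ℂ q) (hχ : χ ≠ 1) :
    χ.IsPrimitive := by
  have : NeZero q := ⟨hq.ne_zero⟩
  rcases (Nat.dvd_prime hq).1 χ.conductor_dvd_level with h | h
  · exact absurd (χ.eq_one_iff_conductor_eq_one.2 h) hχ
  · exact h

/-- the product of a family of characters -/
theorem fam_prim {c : ℕ} [NeZero c] (χ₀ : DirichletCharacter ℂ c) (h0 : χ₀.IsPrimitive)
    (χ : (q : ℕ) → DirichletCharacter ℂ q) (T : Finset ℕ)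
    (hT : ∀ q ∈ T, q.Prime ∧ Nat.Coprime q c ∧ χ q ≠ 1) :
    ∃ E : DirichletCharacter ℂ (c * ∏ q ∈ T, q), E.IsPrimitive ∧
      ∀ u : ℕ, E (u : ZMod (c * ∏ q ∈ T, q)) =
        χ₀ (u : ZMod c) * ∏ q ∈ T, χ q (u : ZMod q) := by
  classical
  induction T using Finset.induction_on with
  | empty =>
    rw [Finset.prod_empty, mul_one]
    exact ⟨χ₀, h0, fun u => by rw [Finset.prod_empty, mul_one]⟩
  | insert p T hpT ih =>
    have hT' : ∀ q ∈ T, q.Prime ∧ Nat.Coprime q c ∧ χ q ≠ 1 :=
      fun q hq => hT q (Finset.mem_insert_of_mem hq)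
    obtain ⟨hp, hpc, hχ⟩ := hT p (Finset.mem_insert_self p T)
    obtain ⟨E, hE, hEv⟩ := ih hT'
    have hne : NeZero (c * ∏ q ∈ T, q) :=
      ⟨mul_ne_zero (NeZero.ne c) (Finset.prod_ne_zero_iff.2 fun q hq => (hT' q hq).1.ne_zero)⟩
    have hne' : NeZero p := ⟨hp.ne_zero⟩
    have hcop : Nat.Coprime (c * ∏ q ∈ T, q) p := by
      refine Nat.Coprime.mul_left hpc.symm (Nat.Coprime.prod_left fun q hq => ?_)
      refine (Nat.coprime_primes (hT' q hq).1 hp).2 ?_
      rintro rfl
      exact hpT hq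
    obtain ⟨E', hE', hE'v⟩ := mul_prim hcop E (χ p) hE (prime_prim hp _ hχ)
    have e1 : c * ∏ q ∈ insert p T, q = (c * ∏ q ∈ T, q) * p := by
      rw [Finset.prod_insert hpT]
      ring
    rw [e1]
    refine ⟨E', hE', fun u => ?_⟩
    rw [hE'v, hEv, Finset.prod_insert hpT]
    ring

end Pool.Agent.Y683.CG
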