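import Pool.Agent.Y683.CG.Lam
import Pool.Agent.Y683.CG.Chr

/-!
# The descent for products of character sums of modular symbols
-/

set_option autoImplicit false

namespace Pool.Agent.Y683.CG

open Finset

/-- families of characters -/
abbrev Fam : Type := (q : ℕ) → DirichletCharacter ℂ q

/-- the character sum at the level `T` -/
noncomputable def lw (κ : ℕ → ℤ → ℂ) {c : ℕ} (χ₀ : DirichletCharacter ℂ c) (χ : Fam)
    (T : Finset ℕ) : ℂ :=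
  lev κ (c * ∏ q ∈ T, q) (fun u => (χ₀ (u : ZMod c) * ∏ q ∈ T, χ q (u : ZMod q))⁻¹)

lemma dc_root {c n : ℕ} (hcn : Nat.totient c ∣ n) (χ : DirichletCharacter ℂ c) {u : ℕ}
    (hu : Nat.Coprime u c) : χ (u : ZMod c) ^ n = 1 := by
  obtain ⟨k, rfl⟩ := hcn
  have h1 : (u : ZMod c) ^ Nat.totient c = 1 := by
    have h2 := ZMod.pow_totient (ZMod.unitOfCoprime u hu)
    have h3 := congrArg Units.val h2
    rw [Units.val_pow_eq_pow_val, ZMod.coe_unitOfCoprime, Units.val_one] at h3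
    exact h3
  rw [pow_mul, ← map_pow, h1, map_one, one_pow]

lemma one_val {q u : ℕ} (hu : Nat.Coprime u q) : (1 : DirichletCharacter ℂ q) (u : ZMod q) = 1 :=
  MulChar.one_apply ((ZMod.isUnit_iff_coprime u q).2 hu)

/-- change of the level -/
theorem lw_many {m : ℕ} {κ : ℕ → ℤ → ℂ} {cc e : ℕ → ℂ} (h : Ksy m κ cc e) {c : ℕ} [NeZero c]
    (χ₀ : DirichletCharacter ℂ c) (h0 : χ₀.IsPrimitive) (χ : Fam) {S T : Finset ℕ} (hST : S ⊆ T)
    (hS : ∀ q ∈ S, χ q ≠ 1) (hSc : ∀ q, q ∉ S → χ q = 1)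
    (hT : ∀ q ∈ T, q.Prime ∧ Nat.Coprime q c) :
    lw κ χ₀ χ T = (∏ p ∈ T \ S, (cc p - e p * (p : ℂ) ^ (m - 1) *
      (χ₀ (p : ZMod c) * ∏ q ∈ S, χ q (p : ZMod q)) -
      (p : ℂ) ^ (m - 1) * (χ₀ (p : ZMod c) * ∏ q ∈ S, χ q (p : ZMod q))⁻¹)) * lw κ χ₀ χ S := by
  classical
  have hfam := fam_prim χ₀ h0 χ S fun q hq => ⟨(hT q (hST hq)).1, (hT q (hST hq)).2, hS q hq⟩
  set M : ℕ := c * ∏ q ∈ S, q with hM
  obtain ⟨E, -, hE⟩ := hfam
  have hM0 : 0 < M := Nat.mul_pos (Nat.pos_of_ne_zero (NeZero.ne c))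
    (prod_pos fun q hq => (hT q (hST hq)).1.pos)
  have hR : ∀ p ∈ T \ S, p.Prime ∧ Nat.Coprime p M := by
    intro p hp
    rw [mem_sdiff] at hp
    refine ⟨(hT p hp.1).1, Nat.Coprime.mul_right (hT p hp.1).2 (Nat.Coprime.prod_right
      fun q hq => (Nat.coprime_primes (hT p hp.1).1 (hT q (hST hq)).1).2 ?_)⟩
    rintro rfl
    exact hp.2 hq
  have h1 := lev_many h hM0 E⁻¹ (T \ S) hR
  have hprod : M * ∏ p ∈ T \ S, p = c * ∏ q ∈ T, q := by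
    rw [hM, mul_assoc, mul_comm (∏ q ∈ S, q), prod_sdiff hST]
  rw [hprod] at h1
  have hval : ∀ u : ℕ, E⁻¹ (u : ZMod M) = (χ₀ (u : ZMod c) * ∏ q ∈ S, χ q (u : ZMod q))⁻¹ := by
    intro u
    rw [MulChar.inv_apply_eq_inv', hE]
  simp only [hval, inv_inv] at h1
  have h2 : lw κ χ₀ χ T = lev κ (c * ∏ q ∈ T, q)
      (fun u => (χ₀ (u : ZMod c) * ∏ q ∈ S, χ q (u : ZMod q))⁻¹) := by
    refine lev_congr κ _ fun u hu => ?_
    have h3 : ∏ q ∈ T, χ q (u : ZMod q) = ∏ q ∈ S, χ q (u : ZMod q) := by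
      symm
      refine prod_subset hST fun q hq hqS => ?_
      rw [hSc q hqS]
      refine one_val ?_
      exact Nat.Coprime.coprime_dvd_right ((dvd_prod_of_mem (fun q => q) hq).trans (dvd_mul_left _ _)) hu
    simp only [h3]
  rw [h2, h1]
  rfl

section
variable {r : ℕ} {m c : Fin r → ℕ} [∀ i, NeZero (c i)] {κ : Fin r → ℕ → ℤ → ℂ}
  {cc e : Fin r → ℕ → ℂ}

/-- the set of points -/
def sT (c : Fin r → ℕ) (T : Finset ℕ) : Finset (Fin r → ℕ) :=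
  Fintype.piFinset fun i => (range (c i * ∏ q ∈ T, q)).filter
    (fun u => Nat.Coprime u (c i * ∏ q ∈ T, q))

/-- the evaluation -/
noncomputable def evT (T : Finset ℕ) (u : Fin r → ℕ) (χ : Fam) : ℂ :=
  ∏ i, ∏ q ∈ T, (χ q (u i : ZMod q))⁻¹

/-- the weight -/
noncomputable def wT (κ : Fin r → ℕ → ℤ → ℂ) (χ₀ : (i : Fin r) → DirichletCharacter ℂ (c i))
    (T : Finset ℕ) (u : Fin r → ℕ) : ℂ :=
  ∏ i, ((χ₀ i (u i : ZMod (c i)))⁻¹ * κ i (c i * ∏ q ∈ T, q) (u i))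

omit [∀ i, NeZero (c i)] in
lemma mem_sT {T : Finset ℕ} {u : Fin r → ℕ} (hu : u ∈ sT c T) (i : Fin r) :
    Nat.Coprime (u i) (c i) ∧ ∀ q ∈ T, Nat.Coprime (u i) q := by
  have h1 := (mem_filter.1 (Fintype.mem_piFinset.1 hu i)).2
  exact ⟨Nat.Coprime.coprime_mul_right_right h1, fun q hq => Nat.Coprime.coprime_dvd_right
    ((dvd_prod_of_mem (fun q => q) hq).trans (dvd_mul_left _ _)) h1⟩

omit [∀ i, NeZero (c i)] in
lemma evd (T : Finset ℕ) : EvD (sT c T) (evT T) where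
  one := by
    intro u hu
    unfold evT
    refine prod_eq_one fun i _ => prod_eq_one fun q hq => ?_
    have : (1 : Fam) q = 1 := rfl
    rw [this, one_val ((mem_sT hu i).2 q hq), inv_one]
  mul := by
    intro u _ χ φ
    unfold evT
    rw [← prod_mul_distrib]
    refine prod_congr rfl fun i _ => ?_
    rw [← prod_mul_distrib]
    refine prod_congr rfl fun q _ => ?_
    rw [← mul_inv]
    rfl

omit [∀ i, NeZero (c i)] in
lemma sum_wT (χ₀ : (i : Fin r) → DirichletCharacter ℂ (c i)) (T : Finset ℕ) (χ : Fam) :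
    ∑ u ∈ sT c T, wT κ χ₀ T u * evT T u χ = ∏ i, lw (κ i) (χ₀ i) χ T := by
  unfold lw lev
  rw [prod_univ_sum]
  refine sum_congr rfl fun u _ => ?_
  unfold wT evT
  rw [← prod_mul_distrib]
  refine prod_congr rfl fun i _ => ?_
  beta_reduce
  rw [mul_inv, prod_inv_distrib]
  ring

omit [∀ i, NeZero (c i)] in
lemma sum_wT1 (χ₀ : (i : Fin r) → DirichletCharacter ℂ (c i)) (T : Finset ℕ) :
    ∑ u ∈ sT c T, wT κ χ₀ T u = ∏ i, lw (κ i) (χ₀ i) 1 T := by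
  rw [← sum_wT]
  refine sum_congr rfl fun u hu => ?_
  rw [(evd T).one u hu, mul_one]

/-- the admissible sets of primes -/
def Adm (l : ℕ) (𝔪 : Ideal (integralClosure ℤ ℂ)) (n : ℕ)
    (χ₀ : (i : Fin r) → DirichletCharacter ℂ (c i)) (cc e : Fin r → ℕ → ℂ) (T : Finset ℕ) : Prop :=
  ∀ q ∈ T, q.Prime ∧ (l : ℤ) ∣ 1 - q ∧ ∀ i, Nat.Coprime q (c i) ∧ e i q ^ n = 1 ∧
    ∃ x : integralClosure ℤ ℂ, x ∉ 𝔪 ∧
      (x : ℂ) = cc i q - e i q * χ₀ i (q : ZMod (c i)) - (χ₀ i (q : ZMod (c i)))⁻¹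

theorem abs_main {l b n : ℕ} (hl : l.Prime) (𝔪 : Ideal (integralClosure ℤ ℂ))
    (hmax : 𝔪.IsMaximal) (hlm : (l : integralClosure ℤ ℂ) ∈ 𝔪) (hn : 0 < n) (hbn : l ^ b ∣ n)
    (hcn : ∀ i, Nat.totient (c i) ∣ n) (χ₀ : (i : Fin r) → DirichletCharacter ℂ (c i))
    (h0 : ∀ i, (χ₀ i).IsPrimitive) (h : ∀ i, Ksy (m i) (κ i) (cc i) (e i))
    (L : Fin r → Submodule ℤ ℂ) (hL : ∀ i, (L i).FG)
    (hκL : ∀ i, ∀ q : ℕ, 0 < q → ∀ a : ℤ, κ i q a ∈ L i)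
    (hbase : ∀ i, lw (κ i) (χ₀ i) 1 ∅ ≠ 0) :
    ∃ V : ℕ, ∀ H : Subgroup Fam, (∀ χ ∈ H, χ ^ (l ^ b) = 1 ∧ ∃ S : Finset ℕ,
      (∀ q, q ∈ S ↔ χ q ≠ 1) ∧ Adm l 𝔪 n χ₀ cc e S) → ∀ NV : Fam → Prop,
      (∀ χ ∈ H, ∀ S : Finset ℕ, (∀ q, q ∈ S ↔ χ q ≠ 1) → Adm l 𝔪 n χ₀ cc e S → ¬ NV χ →
        ∃ i, lw (κ i) (χ₀ i) χ S = 0) →
      ∃ K : Subgroup Fam, K ≤ H ∧ Finite K ∧ Nat.card K ≤ (l ^ b) ^ V ∧
        ∀ ψ ∈ H, ∃ φ ∈ K, NV (ψ * φ) := by
  classical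
  have hFG := lam_fg (κ := κ) hn L hL hκL
  have hroot : ∀ ζ : ℂ, ζ ^ (l ^ b) = 1 → ζ ^ n = 1 := by
    intro ζ hζ
    obtain ⟨k, rfl⟩ := hbn
    rw [pow_mul, hζ, one_pow]
  obtain ⟨Fil, hF, hF0, hFL, hFne, hFE⟩ := fil_exists hl hFG
    (fun ζ hζ y hy => mul_root (hroot ζ hζ) y hy) 𝔪 hmax hlm
  have hwL : ∀ T : Finset ℕ, (∀ q ∈ T, q.Prime) → ∀ u ∈ sT c T, wT κ χ₀ T u ∈ Lam r κ n := by
    intro T hT u hu
    unfold wT
    rw [prod_mul_distrib]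
    refine lam_gen (κ := κ) ?_ (M := fun i => c i * ∏ q ∈ T, q) (fun i => ?_) fun i => (u i : ℤ)
    · rw [← prod_pow]
      refine prod_eq_one fun i _ => ?_
      rw [inv_pow, dc_root (hcn i) (χ₀ i) (mem_sT hu i).1, inv_one]
    · exact Nat.mul_pos (Nat.pos_of_ne_zero (NeZero.ne (c i))) (prod_pos fun q hq => (hT q hq).pos)
  set x0 : ℂ := ∏ i, lw (κ i) (χ₀ i) 1 ∅ with hx0
  have hx0ne : x0 ≠ 0 := prod_ne_zero_iff.2 fun i _ => hbase i
  have hx0L : x0 ∈ Lam r κ n := by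
    rw [hx0, ← sum_wT1]
    exact Submodule.sum_mem _ fun u hu => hwL ∅ (fun q hq => absurd hq (notMem_empty q)) u hu
  obtain ⟨V, hV⟩ := hFne x0 hx0L hx0ne
  refine ⟨V, fun H hH NV hNV => ?_⟩
  have hex : ∀ χ : Fam, ∃ S : Finset ℕ, χ ∈ H → (∀ q, q ∈ S ↔ χ q ≠ 1) ∧ Adm l 𝔪 n χ₀ cc e S := by
    intro χ
    by_cases hχ : χ ∈ H
    · obtain ⟨S, hS⟩ := (hH χ hχ).2
      exact ⟨S, fun _ => hS⟩
    · exact ⟨∅, fun h => absurd h hχ⟩
  choose S hS using hex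
  refine descent (pow_pos hl.pos b) hF (sT c) evT (wT κ χ₀) evd H (fun χ hχ => (hH χ hχ).1) S
    (Adm l 𝔪 n χ₀ cc e) (fun T T' hT hT' q hq => ?_) (fun q hq => absurd hq (notMem_empty q))
    (fun χ hχ => (hS χ hχ).2) (fun T hT u hu => hF0 _ (hwL T (fun q hq => (hT q hq).1) u hu)) NV
    (fun χ hχ hnv T hT hST => ?_) V (fun T hT hcon => ?_)
  · rcases mem_union.1 hq with h1 | h1
    · exact hT q h1
    · exact hT' q h1
  · obtain ⟨h1, h2⟩ := hS χ hχ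
    obtain ⟨i, hi⟩ := hNV χ hχ (S χ) h1 h2 hnv
    rw [sum_wT]
    refine prod_eq_zero (mem_univ i) ?_
    rw [lw_many (h i) (χ₀ i) (h0 i) χ hST (fun q hq => (h1 q).1 hq)
      (fun q hq => by
        by_contra hne
        exact hq ((h1 q).2 hne)) (fun q hq => ⟨(hT q hq).1, ((hT q hq).2.2 i).1⟩), hi, mul_zero]
  · have hprime : 𝔪.IsPrime := hmax.isPrime
    rw [sum_wT1] at hcon
    have h1 : ∀ i, lw (κ i) (χ₀ i) 1 T = (∏ p ∈ T, (cc i p - e i p * (p : ℂ) ^ (m i - 1) *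
        χ₀ i (p : ZMod (c i)) - (p : ℂ) ^ (m i - 1) * (χ₀ i (p : ZMod (c i)))⁻¹)) *
        lw (κ i) (χ₀ i) 1 ∅ := by
      intro i
      have h2 := lw_many (h i) (χ₀ i) (h0 i) 1 (empty_subset T)
        (fun q hq => absurd hq (notMem_empty q)) (fun q _ => rfl)
        (fun q hq => ⟨(hT q hq).1, ((hT q hq).2.2 i).1⟩)
      simp only [sdiff_empty, prod_empty, mul_one] at h2
      exact h2
    simp only [h1] at hcon
    rw [prod_mul_distrib, ← hx0] at hcon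
    set P : ℂ → Prop := fun E => E ∈ mulR (Lam r κ n) ∧
      ∃ y : integralClosure ℤ ℂ, (y : ℂ) = E ∧ y ∉ 𝔪 with hP
    have hP1 : P 1 := ⟨Subalgebra.one_mem _, 1, rfl, fun h => hmax.ne_top
      ((Ideal.eq_top_iff_one _).2 h)⟩
    have hPm : ∀ a b : ℂ, P a → P b → P (a * b) := by
      rintro a b ⟨ha, y, hy, hym⟩ ⟨hb, z, hz, hzm⟩
      refine ⟨Subalgebra.mul_mem _ ha hb, y * z, ?_, fun h => ?_⟩
      · push_cast
        rw [hy, hz]
      · rcases hprime.mem_or_mem h with h | h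
        · exact hym h
        · exact hzm h
    have hPE : P (∏ i, ∏ p ∈ T, (cc i p - e i p * (p : ℂ) ^ (m i - 1) *
        χ₀ i (p : ZMod (c i)) - (p : ℂ) ^ (m i - 1) * (χ₀ i (p : ZMod (c i)))⁻¹)) := by
      refine prod_induction _ P hPm hP1 fun i _ => prod_induction _ P hPm hP1 fun p hp => ?_
      obtain ⟨hpp, hpl, hpi⟩ := hT p hp
      obtain ⟨hpc, hpe, x, hxm, hxe⟩ := hpi i
      have hχn : χ₀ i (p : ZMod (c i)) ^ n = 1 := dc_root (hcn i) (χ₀ i) hpc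
      have hχn' : ((χ₀ i (p : ZMod (c i)))⁻¹) ^ n = 1 := by rw [inv_pow, hχn, inv_one]
      have hpow : (p : ℂ) ^ (m i - 1) ∈ mulR (Lam r κ n) :=
        Subalgebra.pow_mem _ (natCast_mem _ p) _
      refine ⟨?_, ?_⟩
      · refine Subalgebra.sub_mem _ (Subalgebra.sub_mem _ (mul_hecke h i hpp hpe) ?_) ?_
        · exact Subalgebra.mul_mem _ (Subalgebra.mul_mem _ (mul_root hpe) hpow) (mul_root hχn)
        · exact Subalgebra.mul_mem _ hpow (mul_root hχn')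
      · have hint : ∀ ζ : ℂ, ζ ^ n = 1 → ζ ∈ integralClosure ℤ ℂ := by
          intro ζ hζ
          refine IsIntegral.of_pow hn ?_
          rw [hζ]
          exact isIntegral_one
        set z : integralClosure ℤ ℂ := ⟨e i p, hint _ hpe⟩ * ⟨_, hint _ hχn⟩ + ⟨_, hint _ hχn'⟩
          with hz
        refine ⟨x + (1 - (p : integralClosure ℤ ℂ) ^ (m i - 1)) * z, ?_, fun hmem => ?_⟩
        · push_cast
          rw [hxe, hz]
          push_cast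
          ring
        · have h3 : (1 - (p : integralClosure ℤ ℂ) ^ (m i - 1)) ∈ 𝔪 := by
            have h4 : (l : ℤ) ∣ 1 - (p : ℤ) ^ (m i - 1) :=
              hpl.trans (by
                have := sub_dvd_pow_sub_pow (1 : ℤ) (p : ℤ) (m i - 1)
                rwa [one_pow] at this)
            obtain ⟨t, ht⟩ := h4
            have h5 : (1 - (p : integralClosure ℤ ℂ) ^ (m i - 1)) =
                (l : integralClosure ℤ ℂ) * (t : integralClosure ℤ ℂ) := by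
              have := congrArg (fun z : ℤ => (z : integralClosure ℤ ℂ)) ht
              push_cast at this
              exact this
            rw [h5]
            exact Ideal.mul_mem_right _ _ hlm
          exact hxm ((Ideal.add_mem_iff_left _ (Ideal.mul_mem_right z _ h3)).1 hmem)
    exact hV (hFE V _ hPE.1 hPE.2 x0 hx0L hcon)

end

end Pool.Agent.Y683.CG
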