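import Pool.Agent.Y683.CG.Per
import Pool.Agent.Y683.NF.Cen

/-!
# The modular symbols and the central values of the twists
-/

set_option autoImplicit false

namespace Pool.Agent.Y683.CG

open Complex Filter Topology Set Polynomial MeasureTheory ZMod
open UpperHalfPlane hiding I
open scoped MatrixGroups
open CongruenceSubgroup
open Pool.Agent.W192.CY
open Pool.Agent.W108.TW (Th continuousOn_Th Th_isBigO)
open Pool.Agent.TH936.HK (int_Th)
open Pool.Agent.Y683.MS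
open Pool.Agent.Y683.NF

section
variable {N : ℕ} [NeZero N] {m : ℕ}
  (f : CuspForm (Gamma1 N : Subgroup (GL (Fin 2) ℝ)) (2 * m : ℤ))

variable (m) in
/-- the modular symbol -/
noncomputable def kp (q : ℕ) (a : ℤ) : ℂ :=
  limUnder (𝓝[>] (0 : ℝ)) (fun y : ℝ => FP (2 * m - 2) (Hf f 1) (Pa m q a) ((a : ℂ) / q + y * I))

lemma Pa_int (m q : ℕ) (a : ℤ) : IntP (Pa m q a) := by
  unfold Pa
  have h1 : (C (q : ℚ) * X + C (-(a : ℚ)) : ℚ[X]) = C ((q : ℤ) : ℚ) * X + C ((-a : ℤ) : ℚ) := by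
    push_cast
    rfl
  rw [h1]
  exact (IntP.lin _ _).pow _

lemma Pa_scale (m g q : ℕ) (a : ℤ) : Pa m (g * q) (g * a) = C ((g : ℚ) ^ (m - 1)) * Pa m q a := by
  unfold Pa
  rw [map_pow, ← mul_pow]
  congr 1
  rw [mul_add, ← mul_assoc, ← C_mul, ← C_mul]
  push_cast
  ring_nf

theorem kp_lim (hm : 1 ≤ m) {q : ℕ} (hq : 0 < q) (a : ℤ) :
    Tendsto (fun y : ℝ => FP (2 * m - 2) (Hf f 1) (Pa m q a) ((a : ℂ) / q + y * I)) (𝓝[>] 0)
      (𝓝 (kp m f q a)) ∧ kp m f q a ∈ LP f (2 * m - 2) := by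
  have hk : (2 * m : ℤ) = ((2 * m - 2 : ℕ) : ℤ) + 2 := by omega
  set g : ℕ := Int.gcd a q with hg
  have hg0 : 0 < g := Int.gcd_pos_of_ne_zero_right _ (by exact_mod_cast hq.ne')
  obtain ⟨a', ha'⟩ : (g : ℤ) ∣ a := Int.gcd_dvd_left _ _
  obtain ⟨q', hq'⟩ : g ∣ q := by
    have : ((g : ℕ) : ℤ) ∣ ((q : ℕ) : ℤ) := Int.gcd_dvd_right _ _
    exact_mod_cast this
  have hq'0 : 0 < q' := by
    rcases Nat.eq_zero_or_pos q' with h | h
    · rw [h, mul_zero] at hq'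
      omega
    · exact h
  have hcop : IsCoprime a' (q' : ℤ) := by
    rw [Int.isCoprime_iff_gcd_eq_one]
    have h1 : Int.gcd a q = g * Int.gcd a' q' := by
      conv_lhs => rw [ha', hq']
      push_cast
      rw [Int.gcd_mul_left]
      simp
    rw [← hg] at h1
    have h2 : g * 1 = g * Int.gcd a' q' := by rw [mul_one]; exact h1
    exact (Nat.eq_of_mul_eq_mul_left hg0 h2).symm
  obtain ⟨κ, hκ, h4⟩ := cusp_val_int f hk (a := a') (q := (q' : ℤ)) (by exact_mod_cast hq'0) hcop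
    (Pa m q' a') (Pa_deg _ _ _) (Pa_int _ _ _)
  have hgC : (g : ℂ) ≠ 0 := by exact_mod_cast hg0.ne'
  have h5 : Tendsto (fun y : ℝ => FP (2 * m - 2) (Hf f 1) (Pa m q a) ((a : ℂ) / q + y * I)) (𝓝[>] 0)
      (𝓝 ((g : ℂ) ^ (m - 1) * κ)) := by
    refine (h4.const_mul ((g : ℂ) ^ (m - 1))).congr fun y => ?_
    have e1 : (a : ℂ) / q = (a' : ℂ) / ((q' : ℤ) : ℂ) := by
      rw [hq']
      conv_lhs => rw [ha']
      push_cast
      rw [mul_div_mul_left _ _ hgC]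
    have e2 : Pa m q a = C ((g : ℚ) ^ (m - 1)) * Pa m q' a' := by
      rw [← Pa_scale, ← hq', ← ha']
    rw [e1, e2, FP_smul]
    push_cast
    rfl
  have h6 : kp m f q a = (g : ℂ) ^ (m - 1) * κ := h5.limUnder_eq
  rw [h6]
  refine ⟨h5, ?_⟩
  have h7 := (LP f (2 * m - 2)).smul_mem (((g : ℤ) ^ (m - 1) : ℤ)) hκ
  rw [Algebra.smul_def] at h7
  simpa using h7

end

/-- **the central value** -/
theorem center_kp (h2 : N_EUL) {m : ℕ} (hm : 1 ≤ m) {N : ℕ} [NeZero N] {η : DirichletCharacter ℂ N}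
    {f : CuspForm (Gamma1 N : Subgroup (GL (Fin 2) ℝ)) (2 * m : ℤ)} {w : ℂ}
    (hf : NNewf m N η f w) (q : ℕ) [NeZero q] (χ : DirichletCharacter ℂ q) (hχ : χ.IsPrimitive) :
      ∃ K : ℂ, K ≠ 0 ∧ ∀ F0 W : ℂ,
        (∀ X Y : ℝ, 0 < X → 0 < Y → X * Y = N * (q : ℝ) ^ 2 / (4 * Real.pi ^ 2) →
          F0 = ∑' n : ℕ, χ⁻¹ (n : ZMod q) * (cf f n / (n : ℂ) ^ (m - 1)) / n *
              (Vk m (n / X) : ℂ) +
            W * ∑' n : ℕ, (starRingEnd ℂ) (χ⁻¹ (n : ZMod q)) *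
              (starRingEnd ℂ) (cf f n / (n : ℂ) ^ (m - 1)) / n * (Vk m (n / Y) : ℂ)) →
        ∑ u : (ZMod q)ˣ, χ (u : ZMod q) * kp m f q ((u : ZMod q).val : ℤ) = K * F0 := by
  have hq0 : (0 : ℝ) < q := Nat.cast_pos.2 (Nat.pos_of_ne_zero (NeZero.ne q))
  have hqC : (q : ℂ) ≠ 0 := Nat.cast_ne_zero.2 (NeZero.ne q)
  have hN0 : (0 : ℝ) < N := Nat.cast_pos.2 (Nat.pos_of_ne_zero (NeZero.ne N))
  have hpi := Real.pi_pos
  have hDec := Hf_dec f 1
  set h : ℂ → ℂ := Hf f 1 with hh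
  set κ : (ZMod q)ˣ → ℂ := fun u => kp m f q ((u : ZMod q).val : ℤ) with hκd
  have hlim : ∀ u : (ZMod q)ˣ, Tendsto (fun y : ℝ => FP (2 * m - 2) h
      (Pa m q ((u : ZMod q).val : ℤ)) ((((u : ZMod q).val : ℤ) : ℂ) / q + y * I)) (𝓝[>] 0)
      (𝓝 (κ u)) := fun u => (kp_lim f hm (Nat.pos_of_ne_zero (NeZero.ne q)) _).1
  set τ : ℂ := gaussSum χ (stdAddChar (N := q)) with hτ
  have hτ0 : τ ≠ 0 := Pool.Agent.W440.TW.gauss_ne_zero χ hχ
  have hFa : (((m - 1).factorial : ℕ) : ℂ) ≠ 0 := by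
    exact_mod_cast (Nat.factorial_pos (m - 1)).ne'
  have hpiC : (2 * Real.pi : ℂ) ≠ 0 := by
    have : (Real.pi : ℂ) ≠ 0 := by exact_mod_cast hpi.ne'
    exact mul_ne_zero two_ne_zero this
  set A : ℂ := I * (q * I) ^ (m - 1) * τ with hA
  have hA0 : A ≠ 0 := by
    rw [hA]
    exact mul_ne_zero (mul_ne_zero I_ne_zero (pow_ne_zero _ (mul_ne_zero hqC I_ne_zero))) hτ0
  set K : ℂ := -(A * ((((m - 1).factorial : ℕ) : ℂ) / (2 * Real.pi : ℂ) ^ m)) with hK
  refine ⟨K, ?_, fun F0 W hF => ?_⟩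
  · rw [hK]
    exact neg_ne_zero.2 (mul_ne_zero hA0 (div_ne_zero hFa (pow_ne_zero _ hpiC)))
  -- the series
  set b : ℕ → ℂ := fun n => χ⁻¹ (n : ZMod q) * cf f n with hb
  have hb0 : b 0 = 0 := by simp only [hb, cf_zero, mul_zero]
  obtain ⟨C, hC⟩ := coef_bd h2 hm hf q χ⁻¹
  set S : ℝ → ℂ := fun y => ∑ u : (ZMod q)ˣ, χ (u : ZMod q) *
    FP (2 * m - 2) h (Pa m q ((u : ZMod q).val : ℤ))
      ((((u : ZMod q).val : ℤ) : ℂ) / q + y * I) with hS
  have hS0 : Tendsto S (𝓝[>] 0) (𝓝 (∑ u : (ZMod q)ˣ, χ (u : ZMod q) * κ u)) :=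
    tendsto_finsetSum _ fun u _ => (hlim u).const_mul _
  have hSinf : Tendsto S atTop (𝓝 0) := by
    have h1 : Tendsto S atTop (𝓝 (∑ u : (ZMod q)ˣ, χ (u : ZMod q) * 0)) := by
      refine tendsto_finsetSum _ fun u _ => Tendsto.const_mul _ ?_
      have h3 := FP_lim (d := 2 * m - 2) hDec (Pa m q ((u : ZMod q).val : ℤ))
        ((((u : ZMod q).val : ℤ) : ℝ) / q)
      refine h3.congr fun y => ?_
      congr 2
      push_cast
      rfl
    simpa using h1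
  have hSd : ∀ y : ℝ, 0 < y → HasDerivAt S (A * ((y : ℂ) ^ (m - 1) * Th b (2 * Real.pi) y)) y := by
    intro y hy
    have h1 : HasDerivAt S (∑ u : (ZMod q)ˣ, χ (u : ZMod q) *
        (h ((((u : ZMod q).val : ℤ) : ℂ) / q + y * I) * ((q : ℂ) * y * I) ^ (m - 1) * I)) y := by
      refine HasDerivAt.fun_sum fun u _ => HasDerivAt.const_mul _ ?_
      have him : 0 < ((((u : ZMod q).val : ℤ) : ℂ) / q + y * I).im := by
        have e : ((((u : ZMod q).val : ℤ) : ℂ) / q + y * I) =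
            ((((((u : ZMod q).val : ℤ) : ℝ) / q : ℝ) : ℂ) + y * I) := by push_cast; rfl
        rw [e, line_im]
        exact hy
      have h3 := FP_deriv hDec (Pa_deg m q ((u : ZMod q).val : ℤ)) him
      rw [Pa_eval] at h3
      have h4 : HasDerivAt (fun w : ℂ => (((u : ZMod q).val : ℤ) : ℂ) / q + w * I) I (y : ℂ) := by
        simpa using ((hasDerivAt_id (y : ℂ)).mul_const I).const_add
          ((((u : ZMod q).val : ℤ) : ℂ) / q)
      exact (HasDerivAt.comp (y : ℂ) h3 h4).comp_ofReal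
    refine h1.congr_deriv ?_
    have hyq : 0 < (y * q) / q := by positivity
    have h5 := (Pool.Agent.W597.CYN.hasSum_twist f χ hχ (y * q) hyq).tsum_eq
    have hyq2 : (y * q) / q = y := by field_simp
    have h6 : ∀ u : (ZMod q)ˣ, f (Pool.Agent.W440.TW.pt ((((u : ZMod q).val : ℤ) : ℝ) / q)
        (y * q / q) hyq) = h ((((u : ZMod q).val : ℤ) : ℂ) / q + y * I) := by
      intro u
      have h7 := Hf_apply f 1 (Pool.Agent.W440.TW.pt ((((u : ZMod q).val : ℤ) : ℝ) / q)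
        (y * q / q) hyq)
      rw [SlashAction.slash_one] at h7
      rw [← h7, Pool.Agent.W440.TW.pt_coe, hyq2]
      congr 2
      push_cast
      rfl
    simp only [h6] at h5
    have h8 : ∑' n : ℕ, gaussSum χ (stdAddChar (N := q)) * (χ⁻¹ (n : ZMod q) *
        cf f n * (Real.exp (-(2 * Real.pi * n * (y * q / q))) : ℂ)) =
        τ * Th b (2 * Real.pi) y := by
      rw [tsum_mul_left, hyq2]
      unfold Th
      congr 1
      refine tsum_congr fun n => ?_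
      simp only [hb]
      congr 3
      ring
    rw [h8] at h5
    have h9 : ∑ u : (ZMod q)ˣ, χ (u : ZMod q) *
        (h ((((u : ZMod q).val : ℤ) : ℂ) / q + y * I) * ((q : ℂ) * y * I) ^ (m - 1) * I) =
        (((q : ℂ) * y * I) ^ (m - 1) * I) * ∑ u : (ZMod q)ˣ, χ (u : ZMod q) *
          h ((((u : ZMod q).val : ℤ) : ℂ) / q + y * I) := by
      rw [Finset.mul_sum]
      refine Finset.sum_congr rfl fun u _ => ?_
      ring
    rw [h9, ← h5, hA]
    rw [show ((q : ℂ) * y * I) = (q * I) * y by ring, mul_pow]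
    ring
  -- the integral
  have hSint : ∀ y : ℝ, 0 < y → S y = -(A * ∫ t in Ioi y, (t : ℂ) ^ (m - 1) *
      Th b (2 * Real.pi) t) := by
    intro y hy
    have h1 := int_on m hb0 hC (c := 2 * Real.pi) (by positivity) hy
    have h3 := integral_Ioi_of_hasDerivAt_of_tendsto (f := S)
      (f' := fun t => A * ((t : ℂ) ^ (m - 1) * Th b (2 * Real.pi) t)) (a := y) (m := 0)
      (hSd y hy).continuousAt.continuousWithinAt (fun t ht => hSd t (lt_trans hy ht))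
      (h1.const_mul A) hSinf
    rw [integral_const_mul] at h3
    rw [h3]
    ring
  -- the dual sum
  have hbc0 : (starRingEnd ℂ) (b 0) = 0 := by rw [hb0, map_zero]
  have hCc : ∀ n : ℕ, 1 ≤ n → ‖(starRingEnd ℂ) (b n)‖ ≤ C * (n : ℝ) ^ ((m : ℝ) + 1) := by
    intro n hn
    rw [RCLike.norm_conj]
    exact hC n hn
  have hpw : ∀ n : ℕ, (n : ℂ) ^ m = (n : ℂ) ^ (m - 1) * n := by
    intro n
    rw [← pow_succ]
    congr 1
    omega
  set Dl : ℝ → ℂ := fun y => (2 * Real.pi : ℂ) ^ m / (((m - 1).factorial : ℕ) : ℂ) *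
    ∫ t : ℝ in Ioi (1 / (N * (q : ℝ) ^ 2 * y) : ℝ), (t : ℂ) ^ (m - 1) *
      Th (fun n => (starRingEnd ℂ) (b n)) (2 * Real.pi) t with hDl
  have hDl0 : Tendsto Dl (𝓝[>] 0) (𝓝 0) := by
    have h1 := int_tail (int_on m hbc0 hCc (c := 2 * Real.pi) (by positivity) one_pos)
    have h3 : Tendsto (fun y : ℝ => 1 / (N * (q : ℝ) ^ 2 * y)) (𝓝[>] 0) atTop := by
      have h4 : Tendsto (fun y : ℝ => (N * (q : ℝ) ^ 2)⁻¹ * y⁻¹) (𝓝[>] 0) atTop :=
        tendsto_inv_nhdsGT_zero.const_mul_atTop (by positivity)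
      refine h4.congr fun y => ?_
      rw [one_div, mul_inv (N * (q : ℝ) ^ 2) y]
    have h5 := (h1.comp h3).const_mul ((2 * Real.pi : ℂ) ^ m / (((m - 1).factorial : ℕ) : ℂ))
    rw [mul_zero] at h5
    exact h5
  have hSF : ∀ y : ℝ, 0 < y → S y = K * (F0 - W * Dl y) := by
    intro y hy
    have hXp : 0 < 1 / (2 * Real.pi * y) := by positivity
    have hYp : 0 < N * (q : ℝ) ^ 2 * y / (2 * Real.pi) := by positivity
    have h1 := hF (1 / (2 * Real.pi * y)) (N * (q : ℝ) ^ 2 * y / (2 * Real.pi)) hXp hYp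
      (by field_simp; ring)
    have e1 : ∑' n : ℕ, χ⁻¹ (n : ZMod q) * (cf f n / (n : ℂ) ^ (m - 1)) / n *
        (Vk m (n / (1 / (2 * Real.pi * y))) : ℂ) =
        (2 * Real.pi : ℂ) ^ m / (((m - 1).factorial : ℕ) : ℂ) *
        ∫ t in Ioi y, (t : ℂ) ^ (m - 1) * Th b (2 * Real.pi) t := by
      rw [← ser_int m hm hb0 hC hy]
      refine tsum_congr fun n => ?_
      have e3 : (n : ℝ) / (1 / (2 * Real.pi * y)) = 2 * Real.pi * n * y := by field_simp
      rw [e3, hpw n]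
      simp only [hb]
      rw [mul_div_assoc, mul_div_assoc, div_div]
    have e2 : ∑' n : ℕ, (starRingEnd ℂ) (χ⁻¹ (n : ZMod q)) *
        (starRingEnd ℂ) (cf f n / (n : ℂ) ^ (m - 1)) / n *
          (Vk m (n / (N * (q : ℝ) ^ 2 * y / (2 * Real.pi))) : ℂ) = Dl y := by
      simp only [hDl]
      rw [← ser_int m hm hbc0 hCc (by positivity)]
      refine tsum_congr fun n => ?_
      have e3 : (n : ℝ) / (N * (q : ℝ) ^ 2 * y / (2 * Real.pi)) =
          2 * Real.pi * n * (1 / (N * (q : ℝ) ^ 2 * y)) := by field_simp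
      rw [e3, hpw n]
      simp only [hb]
      rw [map_mul, map_div₀, map_pow, Complex.conj_natCast, mul_div_assoc, mul_div_assoc, div_div]
    rw [e1, e2] at h1
    rw [hSint y hy, h1, hK]
    field_simp
    ring
  have h10 : Tendsto (fun y => K * (F0 - W * Dl y)) (𝓝[>] 0) (𝓝 (K * (F0 - W * 0))) :=
    ((hDl0.const_mul W).const_sub F0).const_mul K
  rw [mul_zero, sub_zero] at h10
  refine tendsto_nhds_unique hS0 (h10.congr' ?_)
  filter_upwards [self_mem_nhdsWithin] with y hy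
  exact (hSF y hy).symm

end Pool.Agent.Y683.CG
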