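import Mathlib

/-!
# Polynomial maps from commutative groups to finite groups

`PD n g`: all differences of order `n + 1` of `g` vanish.  For a polynomial map `g` of degree at most
`n` with values in the finite group `A` and elements `φ_i` of exponent `e` there is a nonempty product
`ψ = ∏_{i ∈ B} φ_i` of the first `L` of them, `L` dependent only on `n`, `A`, `e`, such that `g` is
constant on the powers of `ψ`.
-/

set_option autoImplicit false

namespace Pool.Agent.Y683.CG

open Finset

/-- polynomial maps -/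
def PD {X A : Type} [CommGroup X] [AddCommGroup A] : ℕ → (X → A) → Prop
  | 0, g => ∀ κ χ, g (κ * χ) = g χ
  | n + 1, g => ∀ κ, PD n (fun χ => g (κ * χ) - g χ)

lemma PD.pi {X ι A : Type} [CommGroup X] [AddCommGroup A] (n : ℕ) :
    ∀ g : ι → X → A, (∀ i, PD n (g i)) → PD n (fun χ i => g i χ) := by
  induction n with
  | zero =>
    intro g h κ χ
    funext i
    exact h i κ χ
  | succ n ih =>
    intro g h κ
    exact ih (fun i χ => g i (κ * χ) - g i χ) fun i => h i κ

/-- translates -/
lemma PD.shift {X A : Type} [CommGroup X] [AddCommGroup A] (n : ℕ) :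
    ∀ g : X → A, PD n g → ∀ ψ : X, PD n (fun χ => g (ψ * χ)) := by
  induction n with
  | zero =>
    intro g h ψ κ χ
    have h1 := h κ (ψ * χ)
    have h2 : κ * (ψ * χ) = ψ * (κ * χ) := mul_left_comm _ _ _
    rw [h2] at h1
    exact h1
  | succ n ih =>
    intro g h ψ κ
    have h1 := ih _ (h κ) ψ
    have h2 : (fun χ => g (κ * (ψ * χ)) - g (ψ * χ)) = fun χ => g (ψ * (κ * χ)) - g (ψ * χ) := by
      funext χ
      rw [mul_left_comm]
    rw [h2] at h1
    exact h1

/-- the products of the `ψ i ^ t i` -/
lemma mod_prod {X : Type} [CommGroup X] {e : ℕ} (he : 0 < e) {ψ : ℕ → X} {N : ℕ}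
    (hψ : ∀ i < N, ψ i ^ e = 1) (j : ℕ → ℕ) :
    ∏ i ∈ range N, ψ i ^ j i = ∏ i : Fin N, ψ i ^ ((⟨j i % e, Nat.mod_lt _ he⟩ : Fin e) : ℕ) := by
  rw [← Fin.prod_univ_eq_prod_range (fun i => ψ i ^ j i) N]
  refine prod_congr rfl fun i _ => ?_
  have h1 : ψ i ^ j i = ψ i ^ (j i % e) := by
    conv_lhs => rw [← Nat.mod_add_div (j i) e]
    rw [pow_add, pow_mul, hψ i i.2, one_pow, mul_one]
  exact h1

theorem comb {e : ℕ} (he : 0 < e) (n : ℕ) : ∀ (A : Type) [AddCommGroup A] [Finite A],
    ∃ L : ℕ, ∀ (X : Type) [CommGroup X] (φ : ℕ → X), (∀ i, φ i ^ e = 1) → ∀ g : X → A, PD n g →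
      ∃ B : Finset ℕ, B ⊆ range L ∧ B.Nonempty ∧ ∀ j : ℕ, g ((∏ i ∈ B, φ i) ^ j) = g 1 := by
  classical
  induction n with
  | zero =>
    intro A _ _
    refine ⟨1, fun X _ φ hφ g hg => ⟨{0}, by simp, singleton_nonempty _, fun j => ?_⟩⟩
    have h1 := hg ((∏ i ∈ {0}, φ i) ^ j) 1
    rwa [mul_one] at h1
  | succ n ih =>
    intro A _ _
    -- separating blocks
    have key : ∀ N : ℕ, ∃ L : ℕ, ∀ (X : Type) [CommGroup X] (φ : ℕ → X), (∀ i, φ i ^ e = 1) →
        ∀ g : X → A, PD (n + 1) g → ∃ v : ℕ → Finset ℕ, (∀ i < N, v i ⊆ range L ∧ (v i).Nonempty) ∧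
          (∀ i < N, ∀ j < N, i ≠ j → Disjoint (v i) (v j)) ∧
          ∀ j : ℕ → ℕ, g (∏ i ∈ range N, (∏ k ∈ v i, φ k) ^ j i) =
            g 1 + ∑ i ∈ range N, (g ((∏ k ∈ v i, φ k) ^ j i) - g 1) := by
      intro N
      induction N with
      | zero =>
        refine ⟨0, fun X _ φ hφ g hg => ⟨fun _ => ∅, fun i hi => absurd hi (Nat.not_lt_zero i),
          fun i hi => absurd hi (Nat.not_lt_zero i), fun j => ?_⟩⟩
        simp
      | succ N ihN =>
        obtain ⟨L, hL⟩ := ihN
        obtain ⟨L', hL'⟩ := ih ((Fin N → Fin e) → A)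
        refine ⟨L + L', fun X _ φ hφ g hg => ?_⟩
        obtain ⟨v, hv1, hv2, hv3⟩ := hL X φ hφ g hg
        have hψ : ∀ i < N, (∏ k ∈ v i, φ k) ^ e = 1 := by
          intro i _
          rw [← prod_pow]
          exact prod_eq_one fun k _ => hφ k
        obtain ⟨B, hB1, hB2, hB3⟩ := hL' X (fun i => φ (L + i)) (fun i => hφ _)
          (fun χ t => g ((∏ i : Fin N, (∏ k ∈ v i, φ k) ^ (t i : ℕ)) * χ) - g χ)
          (PD.pi n _ fun t => hg _)
        set w : Finset ℕ := B.map (addLeftEmbedding L) with hw
        have hwprod : ∏ k ∈ w, φ k = ∏ i ∈ B, φ (L + i) := by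
          rw [hw, prod_map]
          rfl
        have hwmem : ∀ k ∈ w, L ≤ k ∧ k < L + L' := by
          intro k hk
          obtain ⟨b, hb, rfl⟩ := mem_map.1 hk
          have := mem_range.1 (hB1 hb)
          simp only [addLeftEmbedding_apply]
          omega
        refine ⟨Function.update v N w, fun i hi => ?_, fun i hi j hj hij => ?_, fun j => ?_⟩
        · by_cases h : i = N
          · subst h
            rw [Function.update_self]
            exact ⟨fun k hk => mem_range.2 (hwmem k hk).2, hB2.map⟩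
          · rw [Function.update_of_ne h]
            obtain ⟨h1, h2⟩ := hv1 i (by omega)
            exact ⟨h1.trans (range_subset_range.2 (by omega)), h2⟩
        · have hdis : ∀ i < N, Disjoint (v i) w := by
            intro i hi
            rw [disjoint_left]
            intro k hk hkw
            have h1 := mem_range.1 ((hv1 i hi).1 hk)
            have h2 := (hwmem k hkw).1
            omega
          by_cases h : i = N
          · subst h
            rw [Function.update_self, Function.update_of_ne (Ne.symm hij)]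
            exact (hdis j (by omega)).symm
          · rw [Function.update_of_ne h]
            by_cases h' : j = N
            · subst h'
              rw [Function.update_self]
              exact hdis i (by omega)
            · rw [Function.update_of_ne h']
              exact hv2 i (by omega) j (by omega) hij
        · have hlt : ∀ i ∈ range N, Function.update v N w i = v i := by
            intro i hi
            rw [Function.update_of_ne]
            have := mem_range.1 hi
            omega
          rw [prod_range_succ, sum_range_succ, Function.update_self,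
            prod_congr rfl (g := fun i => (∏ k ∈ v i, φ k) ^ j i) (fun i hi => by rw [hlt i hi]),
            sum_congr rfl (g := fun i => g ((∏ k ∈ v i, φ k) ^ j i) - g 1)
              (fun i hi => by rw [hlt i hi])]
          have h1 := congrFun (hB3 (j N)) (fun i : Fin N => ⟨j i % e, Nat.mod_lt _ he⟩)
          have h2 := mod_prod he hψ j
          simp only [mul_one] at h1
          rw [← h2, ← hwprod, hv3 j] at h1
          have h3 := eq_add_of_sub_eq h1
          rw [h3]
          abel
    obtain ⟨L, hL⟩ := key (Nat.card (Fin e → A) * Nat.card A)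
    refine ⟨L, fun X _ φ hφ g hg => ?_⟩
    obtain ⟨v, hv1, hv2, hv3⟩ := hL X φ hφ g hg
    set N := Nat.card (Fin e → A) * Nat.card A with hN
    have : Fintype A := Fintype.ofFinite A
    set c : ℕ → Fin e → A := fun i j => g ((∏ k ∈ v i, φ k) ^ (j : ℕ)) - g 1 with hc
    obtain ⟨y, -, hy⟩ := exists_le_card_fiber_of_mul_le_card_of_maps_to (s := range N)
      (t := (univ : Finset (Fin e → A))) (f := c) (n := Nat.card A) (fun i _ => mem_univ _)
      ⟨fun _ => 0, mem_univ _⟩ (by
        rw [card_range, card_univ, hN, Nat.card_eq_fintype_card (α := Fin e → A)])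
    obtain ⟨I, hI, hIc⟩ := exists_subset_card_eq hy
    have hIr : ∀ i ∈ I, i < N := fun i hi => mem_range.1 (mem_filter.1 (hI hi)).1
    have hIy : ∀ i ∈ I, c i = y := fun i hi => (mem_filter.1 (hI hi)).2
    have hdis : ∀ i ∈ I, ∀ j ∈ I, i ≠ j → Disjoint (v i) (v j) :=
      fun i hi j hj hij => hv2 i (hIr i hi) j (hIr j hj) hij
    refine ⟨I.biUnion v, ?_, ?_, fun j => ?_⟩
    · intro k hk
      obtain ⟨i, hi, hki⟩ := mem_biUnion.1 hk
      exact (hv1 i (hIr i hi)).1 hki
    · have h1 : 0 < Nat.card A := Nat.card_pos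
      have h2 : I.Nonempty := by
        rw [← card_pos, hIc]
        exact h1
      obtain ⟨i, hi⟩ := h2
      obtain ⟨k, hk⟩ := (hv1 i (hIr i hi)).2
      exact ⟨k, mem_biUnion.2 ⟨i, hi, hk⟩⟩
    · rw [prod_biUnion hdis, ← prod_pow]
      have h1 := hv3 (fun i => if i ∈ I then j else 0)
      have hIN : I ⊆ range N := fun i hi => mem_range.2 (hIr i hi)
      have h2 : ∏ i ∈ range N, (∏ k ∈ v i, φ k) ^ (if i ∈ I then j else 0) =
          ∏ i ∈ I, (∏ k ∈ v i, φ k) ^ j := by
        rw [← prod_subset hIN (fun i _ hi => by rw [if_neg hi, pow_zero])]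
        exact prod_congr rfl fun i hi => by rw [if_pos hi]
      have h3 : ∑ i ∈ range N, (g ((∏ k ∈ v i, φ k) ^ (if i ∈ I then j else 0)) - g 1) =
          ∑ i ∈ I, (g ((∏ k ∈ v i, φ k) ^ j) - g 1) := by
        rw [← sum_subset hIN (fun i _ hi => by rw [if_neg hi, pow_zero, sub_self])]
        exact sum_congr rfl fun i hi => by rw [if_pos hi]
      rw [h2, h3] at h1
      rw [h1]
      have h4 : ∀ i ∈ I, g ((∏ k ∈ v i, φ k) ^ j) - g 1 = y ⟨j % e, Nat.mod_lt _ he⟩ := by
        intro i hi
        rw [← hIy i hi]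
        have h5 : (∏ k ∈ v i, φ k) ^ j = (∏ k ∈ v i, φ k) ^ (j % e) := by
          have h6 : (∏ k ∈ v i, φ k) ^ e = 1 := by
            rw [← prod_pow]
            exact prod_eq_one fun k _ => hφ k
          conv_lhs => rw [← Nat.mod_add_div j e]
          rw [pow_add, pow_mul, h6, one_pow, mul_one]
        rw [hc, h5]
      rw [sum_congr rfl h4, sum_const, hIc, card_nsmul_eq_zero', add_zero]

end Pool.Agent.Y683.CG
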