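import Mathlib

/-!
# Descent for linear combinations of characters

`X` is a commutative group of characters, `s T` finite sets of points, one for every level `T`,
`ev T u χ` is the value of `χ` at `u`, `w T u` a weight.
-/

set_option autoImplicit false

open Finset
open scoped Pointwise

namespace Pool.Agent.Y683.CG

variable {X U : Type} [CommGroup X]

/-- evaluation data at one level -/
structure EvD (s : Finset U) (ev : U → X → ℂ) : Prop where
  one : ∀ u ∈ s, ev u 1 = 1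
  mul : ∀ u ∈ s, ∀ χ φ : X, ev u (χ * φ) = ev u χ * ev u φ

lemma EvD.ne {s : Finset U} {ev : U → X → ℂ} (h : EvD s ev) {u : U} (hu : u ∈ s) (χ : X) :
    ev u χ ≠ 0 := by
  intro h0
  have h1 := h.mul u hu χ χ⁻¹
  rw [mul_inv_cancel, h.one u hu, h0, zero_mul] at h1
  exact one_ne_zero h1

lemma EvD.pow {s : Finset U} {ev : U → X → ℂ} (h : EvD s ev) {u : U} (hu : u ∈ s) (χ : X) (n : ℕ) :
    ev u (χ ^ n) = ev u χ ^ n := by
  induction n with
  | zero => rw [pow_zero, pow_zero, h.one u hu]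
  | succ n ih => rw [pow_succ, pow_succ, h.mul u hu, ih]

lemma EvD.inv {s : Finset U} {ev : U → X → ℂ} (h : EvD s ev) {u : U} (hu : u ∈ s) (χ : X) :
    ev u χ⁻¹ = (ev u χ)⁻¹ := by
  have h1 := h.mul u hu χ χ⁻¹
  rw [mul_inv_cancel, h.one u hu] at h1
  exact eq_inv_of_mul_eq_one_right h1.symm

open Classical in
/-- the sum over the class of `u0` with respect to `K` -/
noncomputable def csum (s : Finset U) (ev : U → X → ℂ) (w : U → ℂ) (K : Subgroup X) (u0 : U) : ℂ :=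
  ∑ u ∈ s.filter (fun u => ∀ χ ∈ K, ev u χ = ev u0 χ), w u

/-- orthogonality -/
lemma orth {s : Finset U} {ev : U → X → ℂ} (h : EvD s ev) (K : Subgroup X) [Fintype K] {u u0 : U}
    (hu : u ∈ s) (hu0 : u0 ∈ s) (hne : ¬ ∀ χ ∈ K, ev u χ = ev u0 χ) :
    ∑ κ : K, (ev u0 κ)⁻¹ * ev u κ = 0 := by
  push Not at hne
  obtain ⟨χ, hχ, h1⟩ := hne
  have h2 : ∑ κ : K, (ev u0 κ)⁻¹ * ev u κ =
      ((ev u0 χ)⁻¹ * ev u χ) * ∑ κ : K, (ev u0 κ)⁻¹ * ev u κ := by
    rw [Finset.mul_sum]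
    rw [← Equiv.sum_comp (Equiv.mulLeft (⟨χ, hχ⟩ : K))]
    refine Finset.sum_congr rfl fun κ _ => ?_
    simp only [Equiv.coe_mulLeft, Subgroup.coe_mul]
    rw [h.mul u hu, h.mul u0 hu0, mul_inv]
    ring
  have h3 : (ev u0 χ)⁻¹ * ev u χ ≠ 1 := by
    intro h4
    apply h1
    have h5 := h.ne hu0 χ
    field_simp at h4
    exact h4
  have h4 : (1 - (ev u0 χ)⁻¹ * ev u χ) * ∑ κ : K, (ev u0 κ)⁻¹ * ev u κ = 0 := by
    linear_combination h2
  rcases mul_eq_zero.1 h4 with h5 | h5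
  · exact absurd (sub_eq_zero.1 h5).symm h3
  · exact h5

open Classical in
/-- if the combination vanishes on a coset, then so do the sums over the classes -/
lemma class_zero {s : Finset U} {ev : U → X → ℂ} (h : EvD s ev) (w : U → ℂ) (K : Subgroup X)
    [Finite K] (ψ : X) (h0 : ∀ κ ∈ K, ∑ u ∈ s, w u * ev u (ψ * κ) = 0) {u0 : U} (hu0 : u0 ∈ s) :
    ∑ u ∈ s.filter (fun u => ∀ χ ∈ K, ev u χ = ev u0 χ), w u * ev u ψ = 0 := by
  have : Fintype K := Fintype.ofFinite K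
  have h1 : ∑ κ : K, (ev u0 κ)⁻¹ * ∑ u ∈ s, w u * ev u (ψ * κ) = 0 := by
    refine Finset.sum_eq_zero fun κ _ => ?_
    rw [h0 κ κ.2, mul_zero]
  have h2 : ∑ κ : K, (ev u0 κ)⁻¹ * ∑ u ∈ s, w u * ev u (ψ * κ) =
      ∑ u ∈ s, (w u * ev u ψ) * ∑ κ : K, (ev u0 κ)⁻¹ * ev u κ := by
    simp only [Finset.mul_sum]
    rw [Finset.sum_comm]
    refine Finset.sum_congr rfl fun u hu => Finset.sum_congr rfl fun κ _ => ?_
    rw [h.mul u hu]
    ring
  rw [h2] at h1
  have h3 : ∀ u ∈ s, (w u * ev u ψ) * ∑ κ : K, (ev u0 κ)⁻¹ * ev u κ =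
      if (∀ χ ∈ K, ev u χ = ev u0 χ) then (Fintype.card K : ℂ) * (w u * ev u ψ) else 0 := by
    intro u hu
    split_ifs with h4
    · have h5 : ∑ κ : K, (ev u0 κ)⁻¹ * ev u κ = Fintype.card K := by
        rw [Finset.sum_congr rfl (g := fun _ => (1 : ℂ)) fun κ _ => by
          rw [h4 κ κ.2]
          exact inv_mul_cancel₀ (h.ne hu0 _)]
        simp
      rw [h5]
      ring
    · rw [orth h K hu hu0 h4, mul_zero]
  rw [Finset.sum_congr rfl h3, ← Finset.sum_filter, ← Finset.mul_sum] at h1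
  have h6 : (Fintype.card K : ℂ) ≠ 0 := by
    exact_mod_cast Fintype.card_ne_zero
  rcases mul_eq_zero.1 h1 with h7 | h7
  · exact absurd h7 h6
  · exact h7

/-- a filtration -/
structure FilD (e : ℕ) (Fil : ℕ → AddSubgroup ℂ) : Prop where
  step : ∀ n, ∀ x ∈ Fil n, ∀ ζ : ℂ, ζ ^ e = 1 → (1 - ζ) * x ∈ Fil (n + 1)

open Classical in
/-- the descent step -/
lemma desc_step {e : ℕ} {Fil : ℕ → AddSubgroup ℂ} (hF : FilD e Fil) {s : Finset U} {ev : U → X → ℂ}
    (h : EvD s ev) (w : U → ℂ) (K : Subgroup X) [Finite K] (ψ : X) (hψ : ψ ^ e = 1)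
    (h0 : ∀ κ ∈ K, ∑ u ∈ s, w u * ev u (ψ * κ) = 0) (n : ℕ)
    (hn : ∀ u ∈ s, csum s ev w (K ⊔ Subgroup.zpowers ψ) u ∈ Fil n) {u0 : U} (hu0 : u0 ∈ s) :
    csum s ev w K u0 ∈ Fil (n + 1) := by
  have h1 := class_zero h w K ψ h0 hu0
  set t := s.filter (fun u => ∀ χ ∈ K, ev u χ = ev u0 χ) with ht
  have hts : ∀ u ∈ t, u ∈ s := fun u hu => (Finset.mem_filter.1 hu).1
  have h2 : csum s ev w K u0 = ∑ u ∈ t, w u * (1 - ev u ψ * (ev u0 ψ)⁻¹) := by
    have h3 : ∑ u ∈ t, w u * (1 - ev u ψ * (ev u0 ψ)⁻¹) =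
        ∑ u ∈ t, w u - (ev u0 ψ)⁻¹ * ∑ u ∈ t, w u * ev u ψ := by
      rw [Finset.mul_sum, ← Finset.sum_sub_distrib]
      refine Finset.sum_congr rfl fun u _ => ?_
      ring
    rw [h3, h1, mul_zero, sub_zero]
    rfl
  rw [h2]
  have h4 : ∑ u ∈ t, w u * (1 - ev u ψ * (ev u0 ψ)⁻¹) =
      ∑ z ∈ t.image (fun u => ev u ψ), ∑ u ∈ t.filter (fun u => ev u ψ = z),
        w u * (1 - ev u ψ * (ev u0 ψ)⁻¹) :=
    (Finset.sum_fiberwise_of_maps_to (fun u hu => Finset.mem_image_of_mem _ hu) _).symm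
  rw [h4]
  refine AddSubgroup.sum_mem _ fun z hz => ?_
  obtain ⟨u1, hu1, hz1⟩ := Finset.mem_image.1 hz
  have hu1s := hts u1 hu1
  have hu1K := (Finset.mem_filter.1 hu1).2
  have h5 : ∑ u ∈ t.filter (fun u => ev u ψ = z), w u * (1 - ev u ψ * (ev u0 ψ)⁻¹) =
      (1 - z * (ev u0 ψ)⁻¹) * ∑ u ∈ t.filter (fun u => ev u ψ = z), w u := by
    rw [Finset.mul_sum]
    refine Finset.sum_congr rfl fun u hu => ?_
    rw [(Finset.mem_filter.1 hu).2]
    ring
  rw [h5]
  have h6 : t.filter (fun u => ev u ψ = z) =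
      s.filter (fun u => ∀ χ ∈ K ⊔ Subgroup.zpowers ψ, ev u χ = ev u1 χ) := by
    ext u
    simp only [ht, Finset.mem_filter]
    constructor
    · rintro ⟨⟨hus, hK⟩, hz2⟩
      refine ⟨hus, fun χ hχ => ?_⟩
      rw [Subgroup.mem_sup] at hχ
      obtain ⟨y, hy, x, hx, rfl⟩ := hχ
      obtain ⟨k, rfl⟩ := Subgroup.mem_zpowers_iff.1 hx
      rw [h.mul u hus, h.mul u1 hu1s, hK y hy, hu1K y hy]
      congr 1
      have hψu : ev u ψ = ev u1 ψ := by rw [hz2, hz1]
      rcases k with k | k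
      · rw [Int.ofNat_eq_natCast, zpow_natCast, h.pow hus, h.pow hu1s, hψu]
      · rw [zpow_negSucc, h.inv hus, h.inv hu1s, h.pow hus, h.pow hu1s, hψu]
    · rintro ⟨hus, hK⟩
      refine ⟨⟨hus, fun χ hχ => ?_⟩, ?_⟩
      · rw [hK χ (Subgroup.mem_sup_left hχ), hu1K χ hχ]
      · rw [hK ψ (Subgroup.mem_sup_right (Subgroup.mem_zpowers ψ)), hz1]
  rw [h6]
  refine hF.step n _ (hn u1 hu1s) _ ?_
  rw [mul_pow, inv_pow, ← h.pow hu0, hψ, h.one u0 hu0, inv_one, mul_one, ← hz1, ← h.pow hu1s, hψ,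
    h.one u1 hu1s]

/-- **the descent** -/
theorem descent {e : ℕ} (he : 0 < e) {Fil : ℕ → AddSubgroup ℂ} (hF : FilD e Fil)
    (s : Finset ℕ → Finset U) (ev : Finset ℕ → U → X → ℂ) (w : Finset ℕ → U → ℂ)
    (h : ∀ T, EvD (s T) (ev T)) (H : Subgroup X) (hH : ∀ χ ∈ H, χ ^ e = 1)
    (S : X → Finset ℕ) (A : Finset ℕ → Prop) (hA : ∀ T T', A T → A T' → A (T ∪ T'))
    (hA0 : A ∅) (hS : ∀ χ ∈ H, A (S χ))
    (hw : ∀ T, A T → ∀ u ∈ s T, w T u ∈ Fil 0) (NV : X → Prop)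
    (hNV : ∀ χ ∈ H, ¬ NV χ → ∀ T, A T → S χ ⊆ T → ∑ u ∈ s T, w T u * ev T u χ = 0)
    (V : ℕ) (hV : ∀ T, A T → ∑ u ∈ s T, w T u ∉ Fil V) :
    ∃ K : Subgroup X, K ≤ H ∧ Finite K ∧ Nat.card K ≤ e ^ V ∧ ∀ ψ ∈ H, ∃ κ ∈ K, NV (ψ * κ) := by
  classical
  have key : ∀ n : ℕ, ∀ K : Subgroup X, K ≤ H → Finite K →
      (∀ T, A T → (∀ χ ∈ K, S χ ⊆ T) → ∃ u0 ∈ s T, csum (s T) (ev T) (w T) K u0 ∉ Fil n) →
      ∃ K' : Subgroup X, K' ≤ H ∧ Finite K' ∧ Nat.card K' ≤ Nat.card K * e ^ n ∧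
        ∀ ψ ∈ H, ∃ κ ∈ K', NV (ψ * κ) := by
    intro n
    induction n with
    | zero =>
      intro K hKH hK hh
      exfalso
      have : Fintype K := Fintype.ofFinite K
      -- a level that contains the supports
      have hex : ∃ T, A T ∧ ∀ χ ∈ K, S χ ⊆ T := by
        have h1 : ∀ t : Finset K, A (t.biUnion fun κ => S κ) := by
          intro t
          induction t using Finset.induction_on with
          | empty => rw [Finset.biUnion_empty]; exact hA0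
          | insert a t ha ih =>
            rw [Finset.biUnion_insert]
            exact hA _ _ (hS _ (hKH a.2)) ih
        refine ⟨_, h1 Finset.univ, fun χ hχ => ?_⟩
        exact Finset.subset_biUnion_of_mem (fun κ : K => S κ) (Finset.mem_univ (⟨χ, hχ⟩ : K))
      obtain ⟨T, hT, hTK⟩ := hex
      obtain ⟨u0, hu0, h2⟩ := hh T hT hTK
      refine h2 (AddSubgroup.sum_mem _ fun u hu => ?_)
      exact hw T hT u (Finset.mem_filter.1 hu).1
    | succ n ih =>
      intro K hKH hK hh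
      by_cases hcos : ∀ ψ ∈ H, ∃ κ ∈ K, NV (ψ * κ)
      · refine ⟨K, hKH, hK, ?_, hcos⟩
        exact Nat.le_mul_of_pos_right _ (pow_pos he _)
      · push Not at hcos
        obtain ⟨ψ, hψ, hψK⟩ := hcos
        have hψe := hH ψ hψ
        have hfo : IsOfFinOrder ψ := isOfFinOrder_iff_pow_eq_one.2 ⟨e, he, hψe⟩
        have hfin : Finite (Subgroup.zpowers ψ) := (finite_zpowers.2 hfo).to_subtype
        have hset : ((K ⊔ Subgroup.zpowers ψ : Subgroup X) : Set X) =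
            (K : Set X) * (Subgroup.zpowers ψ : Set X) := Subgroup.mul_normal K _
        have hfin2 : Finite (K ⊔ Subgroup.zpowers ψ : Subgroup X) := by
          have h1 : ((K : Set X) * (Subgroup.zpowers ψ : Set X)).Finite :=
            (Set.toFinite _).mul (Set.toFinite _)
          rw [← hset] at h1
          exact h1.to_subtype
        have hcard : Nat.card (K ⊔ Subgroup.zpowers ψ : Subgroup X) ≤ Nat.card K * e := by
          have h1 : Nat.card ((K : Set X) * (Subgroup.zpowers ψ : Set X) : Set X) ≤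
              Nat.card (K : Set X) * Nat.card (Subgroup.zpowers ψ : Set X) := Set.natCard_mul_le
          rw [← hset] at h1
          have h2 : Nat.card (Subgroup.zpowers ψ : Set X) ≤ e := by
            have h3 : Nat.card (Subgroup.zpowers ψ) = orderOf ψ := Nat.card_zpowers ψ
            calc Nat.card (Subgroup.zpowers ψ : Set X) = orderOf ψ := h3
              _ ≤ e := Nat.le_of_dvd he (orderOf_dvd_of_pow_eq_one hψe)
          exact h1.trans (Nat.mul_le_mul_left _ h2)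
        have hle : K ⊔ Subgroup.zpowers ψ ≤ H := by
          refine sup_le hKH ?_
          rw [Subgroup.zpowers_le]
          exact hψ
        obtain ⟨K', h1, h2, h3, h4⟩ := ih (K ⊔ Subgroup.zpowers ψ) hle hfin2 (by
          intro T hT hTK
          by_contra hcon
          push Not at hcon
          obtain ⟨u0, hu0, h5⟩ := hh T hT fun χ hχ => hTK χ (Subgroup.mem_sup_left hχ)
          refine h5 (desc_step hF (h T) (w T) K ψ hψe (fun κ hκ => ?_) n hcon hu0)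
          have hψκ : ψ * κ ∈ K ⊔ Subgroup.zpowers ψ :=
            Subgroup.mul_mem _ (Subgroup.mem_sup_right (Subgroup.mem_zpowers ψ))
              (Subgroup.mem_sup_left hκ)
          exact hNV _ (hle hψκ) (hψK κ hκ) T hT (hTK _ hψκ))
        refine ⟨K', h1, h2, h3.trans ?_, h4⟩
        calc Nat.card (K ⊔ Subgroup.zpowers ψ : Subgroup X) * e ^ n ≤
              (Nat.card K * e) * e ^ n := Nat.mul_le_mul_right _ hcard
          _ = Nat.card K * e ^ (n + 1) := by ring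
  have hbot : ∀ T, A T → (∀ χ ∈ (⊥ : Subgroup X), S χ ⊆ T) →
      ∃ u0 ∈ s T, csum (s T) (ev T) (w T) ⊥ u0 ∉ Fil V := by
    intro T hT _
    have h1 := hV T hT
    have hne : (s T).Nonempty := by
      rw [Finset.nonempty_iff_ne_empty]
      intro h0
      rw [h0, Finset.sum_empty] at h1
      exact h1 (Fil V).zero_mem
    obtain ⟨u0, hu0⟩ := hne
    refine ⟨u0, hu0, ?_⟩
    have h2 : (s T).filter (fun u => ∀ χ ∈ (⊥ : Subgroup X), ev T u χ = ev T u0 χ) = s T := by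
      refine Finset.filter_true_of_mem fun u hu χ hχ => ?_
      rw [Subgroup.mem_bot.1 hχ, (h T).one u hu, (h T).one u0 hu0]
    unfold csum
    rw [h2]
    exact h1
  obtain ⟨K, h1, h2, h3, h4⟩ := key V ⊥ bot_le inferInstance hbot
  refine ⟨K, h1, h2, ?_, h4⟩
  rwa [Subgroup.card_bot, one_mul] at h3

end Pool.Agent.Y683.CG
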