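import Pool.Agent.Y683.CG.Desc

/-!
# The filtration of a finitely generated group of complex numbers by the powers of a prime
-/

set_option autoImplicit false

namespace Pool.Agent.Y683.CG

variable (Λ : Submodule ℤ ℂ)

/-- the ring of multipliers -/
def mulR : Subalgebra ℤ ℂ where
  carrier := {x | ∀ y ∈ Λ, x * y ∈ Λ}
  mul_mem' := by
    intro a b ha hb y hy
    rw [mul_assoc]
    exact ha _ (hb y hy)
  add_mem' := by
    intro a b ha hb y hy
    rw [add_mul]
    exact Λ.add_mem (ha y hy) (hb y hy)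
  algebraMap_mem' := by
    intro r y hy
    have h1 := Λ.smul_mem r hy
    rwa [Algebra.smul_def] at h1

/-- the group as a module over its multipliers -/
def LamR : Submodule (mulR Λ) ℂ where
  carrier := Λ
  add_mem' := Λ.add_mem
  zero_mem' := Λ.zero_mem
  smul_mem' := fun c x hx => c.2 x hx

variable {Λ}

lemma mulR_int (hFG : Λ.FG) (hne : Λ ≠ ⊥) : mulR Λ ≤ integralClosure ℤ ℂ := by
  intro x hx
  exact isIntegral_of_smul_mem_submodule Λ hne hFG x fun y hy => hx y hy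

lemma mulR_fin (hFG : Λ.FG) (hne : Λ ≠ ⊥) : Module.Finite ℤ (mulR Λ) := by
  obtain ⟨y0, hy0, hy⟩ := (Submodule.ne_bot_iff _).1 hne
  have h1 : Module.Finite ℤ Λ := Module.Finite.iff_fg.2 hFG
  let φ : mulR Λ →ₗ[ℤ] Λ :=
    { toFun := fun x => ⟨x * y0, x.2 y0 hy0⟩
      map_add' := fun a b => Subtype.ext (by push_cast; ring)
      map_smul' := fun r a => Subtype.ext (by
        simp only [zsmul_eq_mul, eq_intCast]
        push_cast
        simp [mul_assoc]) }
  have h2 : Function.Injective φ := by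
    intro a b hab
    have h3 : (a : ℂ) * y0 = b * y0 := congrArg Subtype.val hab
    exact Subtype.ext (mul_right_cancel₀ hy h3)
  exact Module.Finite.of_injective φ h2

/-- the filtration -/
theorem fil_exists {l b : ℕ} (hl : l.Prime) (hFG : Λ.FG)
    (hμ : ∀ ζ : ℂ, ζ ^ (l ^ b) = 1 → ∀ y ∈ Λ, ζ * y ∈ Λ)
    (𝔪 : Ideal (integralClosure ℤ ℂ)) (hmax : 𝔪.IsMaximal)
    (hlm : (l : integralClosure ℤ ℂ) ∈ 𝔪) : ∃ Fil : ℕ → AddSubgroup ℂ, FilD (l ^ b) Fil ∧
      (∀ x ∈ Λ, x ∈ Fil 0) ∧ (∀ n, ∀ x ∈ Fil n, x ∈ Λ) ∧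
      (∀ x ∈ Λ, x ≠ 0 → ∃ V, x ∉ Fil V) ∧
      (∀ n, ∀ E : ℂ, (∀ y ∈ Λ, E * y ∈ Λ) →
        (∃ x : integralClosure ℤ ℂ, (x : ℂ) = E ∧ x ∉ 𝔪) →
        ∀ x ∈ Λ, E * x ∈ Fil n → x ∈ Fil n) := by
  classical
  by_cases hne : Λ = ⊥
  · refine ⟨fun _ => ⊥, ⟨fun n x hx ζ _ => ?_⟩, fun x hx => ?_, fun n x hx => ?_, fun x hx hx0 => ?_,
      fun n E _ _ x hx _ => ?_⟩
    · rw [AddSubgroup.mem_bot] at hx ⊢
      rw [hx, mul_zero]
    · rw [hne, Submodule.mem_bot] at hx
      exact AddSubgroup.mem_bot.2 hx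
    · rw [hne, Submodule.mem_bot]
      exact AddSubgroup.mem_bot.1 hx
    · rw [hne, Submodule.mem_bot] at hx
      exact absurd hx hx0
    · rw [hne, Submodule.mem_bot] at hx
      exact AddSubgroup.mem_bot.2 hx
  have hfin := mulR_fin hFG hne
  have hN : IsNoetherianRing (mulR Λ) := IsNoetherianRing.of_finite ℤ _
  set ι : mulR Λ →ₐ[ℤ] integralClosure ℤ ℂ := Subalgebra.inclusion (mulR_int hFG hne) with hι
  set I : Ideal (mulR Λ) := 𝔪.comap ι.toRingHom with hI
  have hImem : ∀ x : mulR Λ, x ∈ I ↔ ι x ∈ 𝔪 := fun x => Iff.rfl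
  have hιc : ∀ x : mulR Λ, ((ι x : integralClosure ℤ ℂ) : ℂ) = x := fun x => rfl
  have hint : ι.toRingHom.IsIntegral := by
    intro x
    have h1 : IsIntegral ℤ x := by
      have : Algebra.IsIntegral ℤ (integralClosure ℤ ℂ) := inferInstance
      exact this.isIntegral x
    obtain ⟨p, hp, hpx⟩ := h1
    refine ⟨p.map (algebraMap ℤ (mulR Λ)), hp.map _, ?_⟩
    rw [Polynomial.eval₂_map]
    have h3 : ι.toRingHom.comp (algebraMap ℤ (mulR Λ)) = algebraMap ℤ (integralClosure ℤ ℂ) :=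
      Subsingleton.elim _ _
    rw [h3]
    exact hpx
  have hImax : I.IsMaximal := Ideal.isMaximal_comap_of_isIntegral_of_isMaximal' ι.toRingHom hint 𝔪
  have hIprime : I.IsPrime := hImax.isPrime
  have hlI : (l : mulR Λ) ∈ I := by
    rw [hImem, map_natCast]
    exact hlm
  refine ⟨fun n => (I ^ n • LamR Λ).toAddSubgroup, ⟨?_⟩, ?_, ?_, ?_, ?_⟩
  · intro n x hx ζ hζ
    have hx' : x ∈ I ^ n • LamR Λ := hx
    have hζR : ζ ∈ mulR Λ := fun y hy => hμ ζ hζ y hy
    set z : mulR Λ := ⟨ζ, hζR⟩ with hz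
    have hz1 : z ^ (l ^ b) = 1 := by
      apply Subtype.ext
      push_cast
      exact hζ
    have h1 : (1 - z) ∈ I := by
      have hfl : Fact l.Prime := ⟨hl⟩
      have hdom : IsDomain (mulR Λ ⧸ I) := Ideal.Quotient.isDomain I
      have hchar : CharP (mulR Λ ⧸ I) l := by
        refine (CharP.charP_iff_prime_eq_zero hl).2 ?_
        have := Ideal.Quotient.eq_zero_iff_mem.2 hlI
        rwa [map_natCast] at this
      rw [← Ideal.Quotient.eq_zero_iff_mem, map_sub, map_one]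
      have h2 : (Ideal.Quotient.mk I z) ^ (l ^ b) = 1 := by rw [← map_pow, hz1, map_one]
      have h3 : (1 - Ideal.Quotient.mk I z) ^ (l ^ b) = 0 := by
        rw [sub_pow_char_pow, h2, one_pow, sub_self]
      exact (pow_eq_zero_iff (pow_pos hl.pos b).ne').1 h3
    show (1 - ζ) * x ∈ I ^ (n + 1) • LamR Λ
    have h2 : (1 - ζ) * x = (1 - z) • x := rfl
    rw [h2, pow_succ']
    have h3 : (I * I ^ n) • LamR Λ = I • (I ^ n • LamR Λ) := Submodule.mul_smul I (I ^ n) (LamR Λ)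
    rw [h3]
    exact Submodule.smul_mem_smul h1 hx'
  · intro x hx
    show x ∈ I ^ 0 • LamR Λ
    rw [pow_zero, Ideal.one_eq_top, Submodule.top_smul]
    exact hx
  · intro n x hx
    have hx' : x ∈ I ^ n • LamR Λ := hx
    exact (Submodule.smul_le_right : I ^ n • LamR Λ ≤ LamR Λ) hx'
  · intro x hx hx0
    by_contra hcon
    push Not at hcon
    have hMf : Module.Finite (mulR Λ) (LamR Λ) := by
      have h1 : Module.Finite ℤ Λ := Module.Finite.iff_fg.2 hFG
      have h2 : Module.Finite ℤ (LamR Λ) := h1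
      exact Module.Finite.of_restrictScalars_finite ℤ _ _
    have hk := Ideal.iInf_pow_smul_eq_bot_of_isTorsionFree (M := LamR Λ) (I := I) hImax.ne_top
    have h3 : (⟨x, hx⟩ : LamR Λ) ∈ (⨅ i : ℕ, I ^ i • (⊤ : Submodule (mulR Λ) (LamR Λ))) := by
      rw [Submodule.mem_iInf]
      intro n
      have h4 : x ∈ I ^ n • LamR Λ := hcon n
      have h5 : (I ^ n • (⊤ : Submodule (mulR Λ) (LamR Λ))).map (LamR Λ).subtype =
          I ^ n • LamR Λ := by
        rw [Submodule.map_smul'', Submodule.map_subtype_top]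
      rw [← h5] at h4
      obtain ⟨y, hy, hyx⟩ := Submodule.mem_map.1 h4
      have h6 : y = ⟨x, hx⟩ := Subtype.ext hyx
      rwa [h6] at hy
    rw [hk, Submodule.mem_bot] at h3
    exact hx0 (congrArg Subtype.val h3)
  · intro n E hE hEm x hx hEx
    obtain ⟨y, hyE, hym⟩ := hEm
    set z : mulR Λ := ⟨E, hE⟩ with hz
    have hzI : z ∉ I := by
      intro h
      rw [hImem] at h
      have h1 : ι z = y := Subtype.ext hyE.symm
      rw [h1] at h
      exact hym h
    obtain ⟨z', i, hi, hzi⟩ := hImax.exists_inv hzI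
    have h1 : Ideal.span {z} ⊔ I = ⊤ := by
      rw [Ideal.eq_top_iff_one, ← hzi]
      exact Submodule.add_mem_sup (Ideal.mul_mem_left _ _ (Ideal.mem_span_singleton_self z)) hi
    have h2 : Ideal.span {z} ⊔ I ^ n = ⊤ := Ideal.sup_pow_eq_top h1
    obtain ⟨a, ha, t, ht, hat⟩ := Submodule.mem_sup.1 ((Ideal.eq_top_iff_one _).1 h2)
    obtain ⟨a', ha'⟩ := Ideal.mem_span_singleton'.1 ha
    have h3 : x = a' • (z • x) + t • x := by
      rw [smul_smul, ha', ← add_smul, hat, one_smul]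
    show x ∈ I ^ n • LamR Λ
    rw [h3]
    refine Submodule.add_mem _ (Submodule.smul_mem _ _ hEx) (Submodule.smul_mem_smul ht hx)

end Pool.Agent.Y683.CG
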