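import Pool.Agent.Y683.CG.Fil

/-!
# The filtration: further properties
-/

set_option autoImplicit false

namespace Pool.Agent.Y683.CG

variable {Λ : Submodule ℤ ℂ}

/-- a filtration of `Λ` -/
structure FilX (Λ : Submodule ℤ ℂ) (𝔪 : Ideal (integralClosure ℤ ℂ)) (Fil : ℕ → Submodule ℤ ℂ) :
    Prop where
  zero : ∀ x, x ∈ Fil 0 ↔ x ∈ Λ
  anti : ∀ n, ∀ x ∈ Fil (n + 1), x ∈ Fil n
  mul : ∀ n, ∀ E ∈ mulR Λ, ∀ x ∈ Fil n, E * x ∈ Fil n
  step : ∀ n, ∀ x ∈ Fil n, ∀ z ∈ mulR Λ, (∃ y : integralClosure ℤ ℂ, (y : ℂ) = z ∧ y ∈ 𝔪) →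
    z * x ∈ Fil (n + 1)
  sep : ∀ x ∈ Λ, x ≠ 0 → ∃ V, x ∉ Fil V
  unit : ∀ n, ∀ E ∈ mulR Λ, (∃ x : integralClosure ℤ ℂ, (x : ℂ) = E ∧ x ∉ 𝔪) →
    ∀ x ∈ Λ, E * x ∈ Fil n → x ∈ Fil n
  fin : ∀ n, Finite (Λ.map (Fil n).mkQ)

/-- the filtration -/
theorem filx_exists {l : ℕ} (hl : l.Prime) (hFG : Λ.FG) (hne : Λ ≠ ⊥)
    (𝔪 : Ideal (integralClosure ℤ ℂ)) (hmax : 𝔪.IsMaximal)
    (hlm : (l : integralClosure ℤ ℂ) ∈ 𝔪) : ∃ Fil : ℕ → Submodule ℤ ℂ, FilX Λ 𝔪 Fil := by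
  classical
  have hfin := mulR_fin hFG hne
  have hN : IsNoetherianRing (mulR Λ) := IsNoetherianRing.of_finite ℤ _
  set ι : mulR Λ →ₐ[ℤ] integralClosure ℤ ℂ := Subalgebra.inclusion (mulR_int hFG hne) with hι
  set I : Ideal (mulR Λ) := 𝔪.comap ι.toRingHom with hI
  have hImem : ∀ x : mulR Λ, x ∈ I ↔ ι x ∈ 𝔪 := fun x => Iff.rfl
  have hιc : ∀ x : mulR Λ, ((ι x : integralClosure ℤ ℂ) : ℂ) = x := fun x => rfl
  have hint : ι.toRingHom.IsIntegral := by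
    intro x
    have h1 : IsIntegral ℤ x := by
      have : Algebra.IsIntegral ℤ (integralClosure ℤ ℂ) := inferInstance
      exact this.isIntegral x
    obtain ⟨p, hp, hpx⟩ := h1
    refine ⟨p.map (algebraMap ℤ (mulR Λ)), hp.map _, ?_⟩
    rw [Polynomial.eval₂_map]
    have h3 : ι.toRingHom.comp (algebraMap ℤ (mulR Λ)) = algebraMap ℤ (integralClosure ℤ ℂ) :=
      Subsingleton.elim _ _
    rw [h3]
    exact hpx
  have hImax : I.IsMaximal := Ideal.isMaximal_comap_of_isIntegral_of_isMaximal' ι.toRingHom hint 𝔪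
  have hlI : (l : mulR Λ) ∈ I := by
    rw [hImem, map_natCast]
    exact hlm
  have hmemI : ∀ z : mulR Λ, (∃ y : integralClosure ℤ ℂ, (y : ℂ) = z ∧ y ∈ 𝔪) → z ∈ I := by
    rintro z ⟨y, hy, hym⟩
    rw [hImem]
    have h1 : ι z = y := Subtype.ext hy.symm
    rwa [h1]
  refine ⟨fun n => (I ^ n • LamR Λ).restrictScalars ℤ, ⟨?_, ?_, ?_, ?_, ?_, ?_, ?_⟩⟩
  · intro x
    show x ∈ I ^ 0 • LamR Λ ↔ _
    rw [pow_zero, Ideal.one_eq_top, Submodule.top_smul]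
    exact Iff.rfl
  · intro n x hx
    exact Submodule.smul_mono_left (Ideal.pow_le_pow_right (Nat.le_succ n)) hx
  · intro n E hE x hx
    exact (I ^ n • LamR Λ).smul_mem (⟨E, hE⟩ : mulR Λ) hx
  · intro n x hx z hz hzm
    show z * x ∈ I ^ (n + 1) • LamR Λ
    have h2 : z * x = (⟨z, hz⟩ : mulR Λ) • x := rfl
    have h3 : (I * I ^ n) • LamR Λ = I • (I ^ n • LamR Λ) := Submodule.mul_smul I (I ^ n) (LamR Λ)
    rw [h2, pow_succ', h3]
    exact Submodule.smul_mem_smul (hmemI ⟨z, hz⟩ hzm) hx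
  · intro x hx hx0
    by_contra hcon
    push Not at hcon
    have hMf : Module.Finite (mulR Λ) (LamR Λ) := by
      have h1 : Module.Finite ℤ Λ := Module.Finite.iff_fg.2 hFG
      have h2 : Module.Finite ℤ (LamR Λ) := h1
      exact Module.Finite.of_restrictScalars_finite ℤ _ _
    have hk := Ideal.iInf_pow_smul_eq_bot_of_isTorsionFree (M := LamR Λ) (I := I) hImax.ne_top
    have h3 : (⟨x, hx⟩ : LamR Λ) ∈ (⨅ i : ℕ, I ^ i • (⊤ : Submodule (mulR Λ) (LamR Λ))) := by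
      rw [Submodule.mem_iInf]
      intro n
      have h4 : x ∈ I ^ n • LamR Λ := hcon n
      have h5 : (I ^ n • (⊤ : Submodule (mulR Λ) (LamR Λ))).map (LamR Λ).subtype =
          I ^ n • LamR Λ := by
        rw [Submodule.map_smul'', Submodule.map_subtype_top]
      rw [← h5] at h4
      obtain ⟨y, hy, hyx⟩ := Submodule.mem_map.1 h4
      have h6 : y = ⟨x, hx⟩ := Subtype.ext hyx
      rwa [h6] at hy
    rw [hk, Submodule.mem_bot] at h3
    exact hx0 (congrArg Subtype.val h3)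
  · intro n E hE hEm x hx hEx
    obtain ⟨y, hyE, hym⟩ := hEm
    set z : mulR Λ := ⟨E, hE⟩ with hz
    have hzI : z ∉ I := by
      intro h
      rw [hImem] at h
      have h1 : ι z = y := Subtype.ext hyE.symm
      rw [h1] at h
      exact hym h
    obtain ⟨z', i, hi, hzi⟩ := hImax.exists_inv hzI
    have h1 : Ideal.span {z} ⊔ I = ⊤ := by
      rw [Ideal.eq_top_iff_one, ← hzi]
      exact Submodule.add_mem_sup (Ideal.mul_mem_left _ _ (Ideal.mem_span_singleton_self z)) hi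
    have h2 : Ideal.span {z} ⊔ I ^ n = ⊤ := Ideal.sup_pow_eq_top h1
    obtain ⟨a, ha, t, ht, hat⟩ := Submodule.mem_sup.1 ((Ideal.eq_top_iff_one _).1 h2)
    obtain ⟨a', ha'⟩ := Ideal.mem_span_singleton'.1 ha
    have h3 : x = a' • (z • x) + t • x := by
      rw [smul_smul, ha', ← add_smul, hat, one_smul]
    show x ∈ I ^ n • LamR Λ
    rw [h3]
    refine Submodule.add_mem _ (Submodule.smul_mem _ _ hEx) (Submodule.smul_mem_smul ht hx)
  · intro n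
    set F : Submodule ℤ ℂ := (I ^ n • LamR Λ).restrictScalars ℤ with hF
    have h1 : (Λ.map F.mkQ).FG := hFG.map _
    have h2 : Module.Finite ℤ (Λ.map F.mkQ) := Module.Finite.iff_fg.2 h1
    refine Module.finite_of_fg_torsion (Λ.map F.mkQ) ?_
    rintro ⟨y, hy⟩
    obtain ⟨x, hx, rfl⟩ := Submodule.mem_map.1 hy
    refine ⟨⟨((l : ℤ) ^ n), mem_nonZeroDivisors_of_ne_zero
      (pow_ne_zero n (by exact_mod_cast hl.ne_zero))⟩, ?_⟩
    apply Subtype.ext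
    show ((l : ℤ) ^ n) • F.mkQ x = 0
    rw [← map_smul, Submodule.mkQ_apply, Submodule.Quotient.mk_eq_zero]
    show ((l : ℤ) ^ n) • x ∈ I ^ n • LamR Λ
    have h3 : ((l : ℤ) ^ n) • x = ((l : mulR Λ) ^ n) • x := by
      have h4 : ((l : mulR Λ) ^ n) • x = (((l : mulR Λ) ^ n : mulR Λ) : ℂ) * x := rfl
      rw [h4, zsmul_eq_mul]
      push_cast
      rfl
    rw [h3]
    exact Submodule.smul_mem_smul (Ideal.pow_mem_pow hlI n) hx

end Pool.Agent.Y683.CG
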