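import Mathlib

/-!
# Independent sequences in commutative groups of finite exponent
-/

set_option autoImplicit false

namespace Pool.Agent.Y683.CG

open Finset
open scoped Pointwise

variable {X : Type} [CommGroup X]

lemma card_sup {e : ℕ} (he : 0 < e) (K : Subgroup X) (hK : Finite K) {y : X} (hy : y ^ e = 1) :
    Finite (K ⊔ Subgroup.zpowers y : Subgroup X) ∧
      Nat.card (K ⊔ Subgroup.zpowers y : Subgroup X) ≤ Nat.card K * e := by
  have hfo : IsOfFinOrder y := isOfFinOrder_iff_pow_eq_one.2 ⟨e, he, hy⟩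
  have hfin : Finite (Subgroup.zpowers y) := (finite_zpowers.2 hfo).to_subtype
  have hset : ((K ⊔ Subgroup.zpowers y : Subgroup X) : Set X) =
      (K : Set X) * (Subgroup.zpowers y : Set X) := Subgroup.mul_normal K _
  constructor
  · have h1 : ((K : Set X) * (Subgroup.zpowers y : Set X)).Finite :=
      (Set.toFinite _).mul (Set.toFinite _)
    rw [← hset] at h1
    exact h1.to_subtype
  · have h1 : Nat.card ((K : Set X) * (Subgroup.zpowers y : Set X) : Set X) ≤
        Nat.card (K : Set X) * Nat.card (Subgroup.zpowers y : Set X) := Set.natCard_mul_le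
    rw [← hset] at h1
    have h2 : Nat.card (Subgroup.zpowers y : Set X) ≤ e := by
      have h3 : Nat.card (Subgroup.zpowers y) = orderOf y := Nat.card_zpowers y
      calc Nat.card (Subgroup.zpowers y : Set X) = orderOf y := h3
        _ ≤ e := Nat.le_of_dvd he (orderOf_dvd_of_pow_eq_one hy)
    exact h1.trans (Nat.mul_le_mul_left _ h2)

theorem gseq {e : ℕ} (he : 0 < e) (H : Subgroup X) (hH : ∀ χ ∈ H, χ ^ e = 1) :
    ∃ (φ : ℕ → X) (K : ℕ → Subgroup X), (∀ j, φ j ∈ H) ∧ (∀ j, K j ≤ K (j + 1)) ∧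
      (∀ j, φ j ∈ K (j + 1)) ∧ ∀ j, (Infinite H ∨ e ^ j < Nat.card H) → φ j ∉ K j := by
  classical
  let y : Subgroup X → X := fun K => if h : ∃ y ∈ H, y ∉ K then h.choose else 1
  have hyH : ∀ K, y K ∈ H := by
    intro K
    by_cases h : ∃ y ∈ H, y ∉ K
    · simp only [y, dif_pos h]
      exact h.choose_spec.1
    · simp only [y, dif_neg h]
      exact H.one_mem
  have hyK : ∀ K, y K ∈ K → H ≤ K := by
    intro K hK
    by_contra hcon
    have h : ∃ y ∈ H, y ∉ K := by
      by_contra h1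
      push Not at h1
      exact hcon h1
    simp only [y, dif_pos h] at hK
    exact h.choose_spec.2 hK
  let K : ℕ → Subgroup X := fun j => Nat.rec ⊥ (fun _ K => K ⊔ Subgroup.zpowers (y K)) j
  have hK0 : K 0 = ⊥ := rfl
  have hK1 : ∀ j, K (j + 1) = K j ⊔ Subgroup.zpowers (y (K j)) := fun j => rfl
  have hfin : ∀ j, Finite ↥(K j) ∧ Nat.card ↥(K j) ≤ e ^ j := by
    intro j
    induction j with
    | zero =>
      rw [hK0]
      exact ⟨inferInstance, by rw [Subgroup.card_bot, pow_zero]⟩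
    | succ j ih =>
      rw [hK1]
      obtain ⟨h1, h2⟩ := card_sup he (K j) ih.1 (hH _ (hyH (K j)))
      refine ⟨h1, h2.trans ?_⟩
      rw [pow_succ]
      exact Nat.mul_le_mul_right _ ih.2
  refine ⟨fun j => y (K j), K, fun j => hyH _, fun j => ?_, fun j => ?_, fun j hj hmem => ?_⟩
  · rw [hK1]
    exact le_sup_left
  · rw [hK1]
    exact Subgroup.mem_sup_right (Subgroup.mem_zpowers _)
  · have h1 := hyK _ hmem
    obtain ⟨h2, h3⟩ := hfin j
    have h4 : Finite H := by
      have h5 : (SetLike.coe (K j)).Finite := Set.toFinite _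
      exact (h5.subset h1).to_subtype
    rcases hj with h5 | h5
    · exact h5.not_finite h4
    · have h6 : Nat.card H ≤ Nat.card ↥(K j) := Nat.card_mono (Set.toFinite _) h1
      omega

lemma prod_mem_of {φ : ℕ → X} {K : ℕ → Subgroup X} (hK : Monotone K) (h : ∀ j, φ j ∈ K (j + 1))
    {M : ℕ} (s : Finset ℕ) (hs : ∀ j ∈ s, j < M) : ∏ j ∈ s, φ j ∈ K M :=
  Subgroup.prod_mem _ fun j hj => hK (by have := hs j hj; omega) (h j)

lemma prod_notMem {φ : ℕ → X} {K : ℕ → Subgroup X} (hK : Monotone K) (h : ∀ j, φ j ∈ K (j + 1))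
    {B : Finset ℕ} (hB : B.Nonempty) (hmax : φ (B.max' hB) ∉ K (B.max' hB)) :
    ∏ j ∈ B, φ j ∉ K (B.max' hB) := by
  classical
  intro h1
  apply hmax
  rw [← mul_prod_erase B φ (B.max'_mem hB)] at h1
  have h2 : ∏ j ∈ B.erase (B.max' hB), φ j ∈ K (B.max' hB) :=
    prod_mem_of hK h _ fun j hj => lt_of_le_of_ne (B.le_max' j (mem_of_mem_erase hj))
      (ne_of_mem_erase hj)
  exact (Subgroup.mul_mem_cancel_right _ h2).1 h1

theorem sub_exists {e : ℕ} (he : 0 < e) (Lk : ℕ → ℕ) (H : Subgroup X) (hH : ∀ χ ∈ H, χ ^ e = 1) :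
    ∃ φ : ℕ → X, (∀ j, φ j ∈ H) ∧ ∀ B : ℕ → Finset ℕ,
      (∀ k, (B k).Nonempty ∧ B k ⊆ Ico (Lk k) (Lk (k + 1))) →
        Subgroup.closure (Set.range fun k => ∏ j ∈ B k, φ j) ≤ H ∧
        (Infinite H → Infinite (Subgroup.closure (Set.range fun k => ∏ j ∈ B k, φ j))) ∧
        ∀ t : ℕ, e ^ Lk t < Nat.card H →
          t ≤ Nat.card (Subgroup.closure (Set.range fun k => ∏ j ∈ B k, φ j)) := by
  classical
  obtain ⟨φ, K, h1, h2, h3, h4⟩ := gseq he H hH
  have hK : Monotone K := monotone_nat_of_le_succ h2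
  refine ⟨φ, h1, fun B hB => ?_⟩
  have hLlt : ∀ k, Lk k < Lk (k + 1) := by
    intro k
    obtain ⟨x, hx⟩ := (hB k).1
    have h5 := mem_Ico.1 ((hB k).2 hx)
    omega
  have hLmono : StrictMono Lk := strictMono_nat_of_lt_succ hLlt
  set ψ : ℕ → X := fun k => ∏ j ∈ B k, φ j with hψ
  have hmaxlt : ∀ k, (B k).max' (hB k).1 < Lk (k + 1) ∧ Lk k ≤ (B k).max' (hB k).1 := by
    intro k
    have h5 := mem_Ico.1 ((hB k).2 ((B k).max'_mem (hB k).1))
    exact ⟨h5.2, h5.1⟩
  have hdist : ∀ k k', k' < k → φ ((B k).max' (hB k).1) ∉ K ((B k).max' (hB k).1) →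
      ψ k' ≠ ψ k := by
    intro k k' hk' hmax heq
    have h5 := prod_notMem hK h3 (hB k).1 hmax
    apply h5
    have h6 : ψ k' ∈ K (Lk (k' + 1)) :=
      prod_mem_of hK h3 _ fun j hj => (mem_Ico.1 ((hB k').2 hj)).2
    have h7 : ψ k' ∈ K ((B k).max' (hB k).1) :=
      hK ((hLmono.monotone (by omega : k' + 1 ≤ k)).trans (hmaxlt k).2) h6
    rw [heq] at h7
    exact h7
  have hle : Subgroup.closure (Set.range ψ) ≤ H := by
    rw [Subgroup.closure_le]
    rintro _ ⟨k, rfl⟩
    exact H.prod_mem fun j _ => h1 j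
  refine ⟨hle, fun hinf => ?_, fun t ht => ?_⟩
  · have hinj : Function.Injective ψ := by
      intro a b hab
      rcases lt_trichotomy a b with h | h | h
      · exact absurd hab (hdist b a h (h4 _ (Or.inl hinf)))
      · exact h
      · exact absurd hab.symm (hdist a b h (h4 _ (Or.inl hinf)))
    have h5 : Function.Injective (fun k => (⟨ψ k, Subgroup.subset_closure ⟨k, rfl⟩⟩ :
        Subgroup.closure (Set.range ψ))) := fun a b hab => hinj (congrArg Subtype.val hab)
    exact Infinite.of_injective _ h5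
  · have hpos : ∀ k < t, e ^ (B k).max' (hB k).1 < Nat.card H := by
      intro k hk
      refine lt_of_le_of_lt (Nat.pow_le_pow_right he ?_) ht
      have h5 := (hmaxlt k).1
      have h6 := hLmono.monotone (by omega : k + 1 ≤ t)
      omega
    have hHfin : Finite H := Nat.finite_of_card_ne_zero (by omega)
    have hcfin : Finite (Subgroup.closure (Set.range ψ)) := by
      have h5 : (H : Set X).Finite := Set.toFinite _
      exact (h5.subset hle).to_subtype
    have hinj : Function.Injective (fun k : Fin t => (⟨ψ k, Subgroup.subset_closure ⟨k, rfl⟩⟩ :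
        Subgroup.closure (Set.range ψ))) := by
      intro a b hab
      have hab' : ψ a = ψ b := congrArg Subtype.val hab
      rcases lt_trichotomy (a : ℕ) b with h | h | h
      · exact absurd hab' (hdist b a h (h4 _ (Or.inr (hpos b b.2))))
      · exact Fin.ext h
      · exact absurd hab'.symm (hdist a b h (h4 _ (Or.inr (hpos a a.2))))
    have h5 := Nat.card_le_card_of_injective _ hinj
    rwa [Nat.card_eq_fintype_card, Fintype.card_fin] at h5

end Pool.Agent.Y683.CG
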