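import Pool.Agent.Y683.CG.Cen

/-!
# The Hecke relations of the modular symbols
-/

set_option autoImplicit false

namespace Pool.Agent.Y683.CG

open Complex Filter Topology Set Polynomial MeasureTheory ZMod
open UpperHalfPlane hiding I
open scoped MatrixGroups
open CongruenceSubgroup
open Pool.Agent.W192.CY
open Pool.Agent.Y683.MS
open Pool.Agent.Y683.NF

section
variable {N : ℕ} [NeZero N] {k : ℤ} (f : CuspForm (Gamma1 N : Subgroup (GL (Fin 2) ℝ)) k)

/-- the exponential -/
noncomputable def ex (z : ℂ) : ℂ := cexp (2 * Real.pi * I * z)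

lemma ex_add (z w : ℂ) : ex (z + w) = ex z * ex w := by
  unfold ex
  rw [mul_add, Complex.exp_add]

lemma ex_int (n : ℤ) : ex n = 1 := by
  unfold ex
  rw [show 2 * (Real.pi : ℂ) * I * n = n * (2 * Real.pi * I) by ring]
  exact Complex.exp_int_mul_two_pi_mul_I n

/-- the `q`-expansion -/
lemma hs_q {z : ℂ} (hz : 0 < z.im) :
    HasSum (fun n : ℕ => cf f n * ex (n * z)) (Hf f 1 z) := by
  have h1 : (1 : ℝ) ∈ (Gamma1 N : Subgroup (GL (Fin 2) ℝ)).strictPeriods := by
    rw [strictPeriods_Gamma1]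
    exact AddSubgroup.mem_zmultiples 1
  set τ : ℍ := ⟨z, hz⟩ with hτ
  have h2 := ModularForm.hasSum_qExpansion (f := f) one_pos h1 τ
  have h3 : Hf f 1 z = f τ := by
    have h4 := Hf_apply f 1 τ
    rw [SlashAction.slash_one] at h4
    exact h4
  rw [h3]
  refine Pool.Agent.W440.TW.HasSum.congr_fun' h2 fun n => ?_
  unfold cf ex
  rw [Function.Periodic.qParam, ← Complex.exp_nat_mul]
  congr 2
  have : (τ : ℂ) = z := rfl
  rw [this]
  push_cast
  ring

lemma h_per {z : ℂ} (hz : 0 < z.im) (n : ℤ) : Hf f 1 (z + n) = Hf f 1 z := by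
  have h1 := hs_q f (z := z + n) (by simpa using hz)
  have h2 := hs_q f hz
  refine h1.unique (Pool.Agent.W440.TW.HasSum.congr_fun' h2 fun j => ?_)
  have h3 : (j : ℂ) * (z + n) = j * z + ((j * n : ℤ) : ℂ) := by push_cast; ring
  rw [h3, ex_add, ex_int, mul_one]

end

section
variable {m N : ℕ} [NeZero N] {η : DirichletCharacter ℂ N}
    {f : CuspForm (Gamma1 N : Subgroup (GL (Fin 2) ℝ)) (2 * m : ℤ)} {w : ℂ}

omit [NeZero N] in
lemma hecke_coef (hf : NNewf m N η f w) {p : ℕ} (hp : p.Prime) (n : ℕ) :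
    cf f p * cf f n = cf f (p * n) +
      if p ∣ n then η (p : ZMod N) * (p : ℂ) ^ (2 * m - 1) * cf f (n / p) else 0 := by
  rcases Nat.eq_zero_or_pos n with rfl | hn
  · simp [cf_zero]
  · obtain ⟨j, n', hn', rfl⟩ := Nat.exists_eq_pow_mul_and_not_dvd hn.ne' p hp.ne_one
    have hcop : Nat.Coprime p n' := (Nat.Prime.coprime_iff_not_dvd hp).2 hn'
    rcases j with _ | i
    · rw [pow_zero, one_mul, if_neg hn', add_zero, hf.mul _ _ hcop]
    · have h1 : p ∣ p ^ (i + 1) * n' := Dvd.dvd.mul_right (dvd_pow_self p (by omega)) _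
      have h2 : p ^ (i + 1) * n' / p = p ^ i * n' := by
        rw [pow_succ', mul_assoc, Nat.mul_div_cancel_left _ hp.pos]
      have h3 : p * (p ^ (i + 1) * n') = p ^ (i + 2) * n' := by ring
      rw [if_pos h1, h2, h3, hf.mul _ _ (hcop.pow_left _), hf.mul _ _ (hcop.pow_left _),
        hf.mul _ _ (hcop.pow_left _), hf.pow p i hp]
      ring

lemma geo {p : ℕ} (hp : p.Prime) (n : ℕ) :
    ∑ b ∈ Finset.range p, ex ((n : ℂ) * b / p) = if p ∣ n then (p : ℂ) else 0 := by
  have hp0 : (p : ℂ) ≠ 0 := by exact_mod_cast hp.ne_zero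
  have h1 : ∀ b : ℕ, ex ((n : ℂ) * b / p) = ex ((n : ℂ) / p) ^ b := by
    intro b
    unfold ex
    rw [← Complex.exp_nat_mul]
    congr 1
    ring
  rw [Finset.sum_congr rfl fun b _ => h1 b]
  split_ifs with h
  · obtain ⟨j, rfl⟩ := h
    have h2 : ex (((p * j : ℕ) : ℂ) / p) = 1 := by
      have : ((p * j : ℕ) : ℂ) / p = ((j : ℤ) : ℂ) := by
        push_cast
        field_simp
      rw [this, ex_int]
    rw [h2]
    simp
  · have h2 : ex ((n : ℂ) / p) ^ p = 1 := by
      rw [← h1]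
      have : (n : ℂ) * p / p = ((n : ℤ) : ℂ) := by
        push_cast
        field_simp
      rw [this, ex_int]
    have h3 : ex ((n : ℂ) / p) ≠ 1 := by
      intro h4
      have h5 := Complex.isPrimitiveRoot_exp p hp.ne_zero
      have h6 : cexp (2 * Real.pi * I / p) ^ n = 1 := by
        rw [← h4]
        unfold ex
        rw [← Complex.exp_nat_mul]
        congr 1
        ring
      exact h ((h5.pow_eq_one_iff_dvd n).1 h6)
    have h4 := geom_sum_mul (ex ((n : ℂ) / p)) p
    rw [h2, sub_self] at h4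
    rcases mul_eq_zero.1 h4 with h5 | h5
    · exact h5
    · exact absurd (sub_eq_zero.1 h5) h3

/-- **the Hecke relation** -/
theorem hecke_h (hf : NNewf m N η f w) {p : ℕ} (hp : p.Prime) {z : ℂ} (hz : 0 < z.im) :
    cf f p * Hf f 1 z = η (p : ZMod N) * (p : ℂ) ^ (2 * m - 1) * Hf f 1 (p * z) +
      (1 / p) * ∑ b ∈ Finset.range p, Hf f 1 ((z + b) / p) := by
  have hp0 : (0 : ℝ) < p := by exact_mod_cast hp.pos
  have hpC : (p : ℂ) ≠ 0 := by exact_mod_cast hp.ne_zero
  have hinj : Function.Injective (fun n : ℕ => p * n) := fun a b h =>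
    Nat.eq_of_mul_eq_mul_left hp.pos h
  have hrange : ∀ n : ℕ, n ∉ Set.range (fun n : ℕ => p * n) → ¬ p ∣ n := by
    intro n hn hd
    obtain ⟨j, rfl⟩ := hd
    exact hn ⟨j, rfl⟩
  -- the first
  have hA : HasSum (fun n : ℕ => if p ∣ n then cf f (n / p) * ex (n * z) else 0)
      (Hf f 1 (p * z)) := by
    rw [← hinj.hasSum_iff (fun n hn => if_neg (hrange n hn))]
    have him : 0 < ((p : ℂ) * z).im := by
      rw [Complex.mul_im, Complex.natCast_re, Complex.natCast_im, zero_mul, add_zero]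
      positivity
    refine Pool.Agent.W440.TW.HasSum.congr_fun' (hs_q f him) fun n => ?_
    simp only [Function.comp_apply]
    rw [if_pos (dvd_mul_right p n), Nat.mul_div_cancel_left _ hp.pos]
    congr 2
    push_cast
    ring
  -- the second
  have hB0 : HasSum (fun n : ℕ => ∑ b ∈ Finset.range p, cf f n * ex (n * ((z + b) / p)))
      (∑ b ∈ Finset.range p, Hf f 1 ((z + b) / p)) := by
    refine hasSum_sum fun b _ => hs_q f ?_
    rw [Complex.div_natCast_im, Complex.add_im, Complex.natCast_im, add_zero]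
    positivity
  have hB1 : ∀ n : ℕ, ∑ b ∈ Finset.range p, cf f n * ex (n * ((z + b) / p)) =
      if p ∣ n then (p : ℂ) * (cf f n * ex (n * z / p)) else 0 := by
    intro n
    have h1 : ∑ b ∈ Finset.range p, cf f n * ex (n * ((z + b) / p)) =
        (cf f n * ex (n * z / p)) * ∑ b ∈ Finset.range p, ex ((n : ℂ) * b / p) := by
      rw [Finset.mul_sum]
      refine Finset.sum_congr rfl fun b _ => ?_
      rw [mul_assoc, ← ex_add]
      congr 2
      ring
    rw [h1, geo hp n]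
    split_ifs with h
    · ring
    · rw [mul_zero]
  have hB : HasSum (fun n : ℕ => (p : ℂ) * (cf f (p * n) * ex (n * z)))
      (∑ b ∈ Finset.range p, Hf f 1 ((z + b) / p)) := by
    have h1 := Pool.Agent.W440.TW.HasSum.congr_fun' hB0 hB1
    rw [← hinj.hasSum_iff (fun n hn => if_neg (hrange n hn))] at h1
    refine Pool.Agent.W440.TW.HasSum.congr_fun' h1 fun n => ?_
    simp only [Function.comp_apply]
    rw [if_pos (dvd_mul_right p n)]
    congr 3
    push_cast
    field_simp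
  have hC := (hs_q f hz).mul_left (cf f p)
  have hD := (hA.mul_left (η (p : ZMod N) * (p : ℂ) ^ (2 * m - 1))).add (hB.mul_left (1 / (p : ℂ)))
  refine hC.unique (Pool.Agent.W440.TW.HasSum.congr_fun' hD fun n => ?_)
  have h1 := hecke_coef hf hp n
  have h2 : cf f p * (cf f n * ex (n * z)) = (cf f p * cf f n) * ex (n * z) := by ring
  rw [h2, h1]
  split_ifs with h
  · field_simp
    ring
  · field_simp
    ring

end

section
variable {N : ℕ} [NeZero N] {m : ℕ}
  (f : CuspForm (Gamma1 N : Subgroup (GL (Fin 2) ℝ)) (2 * m : ℤ))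

/-- a vertical path -/
lemma path_deriv {q : ℕ} (hq : 0 < q) (a : ℤ) {β : ℝ} (hβ : 0 < β) {y : ℝ} (hy : 0 < y) :
    HasDerivAt (fun y : ℝ => FP (2 * m - 2) (Hf f 1) (Pa m q a) ((a : ℂ) / q + ((β * y : ℝ) : ℂ) * I))
      (Hf f 1 ((a : ℂ) / q + ((β * y : ℝ) : ℂ) * I) * ((q : ℂ) * ((β * y : ℝ) : ℂ) * I) ^ (m - 1) *
        (β * I)) y := by
  have : NeZero q := ⟨hq.ne'⟩
  have him : 0 < ((a : ℂ) / q + ((β * y : ℝ) : ℂ) * I).im := by
    have e : ((a : ℂ) / q + ((β * y : ℝ) : ℂ) * I) =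
        ((((a : ℝ) / q : ℝ) : ℂ) + ((β * y : ℝ) : ℂ) * I) := by push_cast; rfl
    rw [e, line_im]
    positivity
  have h3 := FP_deriv (Hf_dec f 1) (Pa_deg m q a) him
  rw [Pa_eval] at h3
  have h4 : HasDerivAt (fun w : ℂ => (a : ℂ) / q + (β * w) * I) (β * I) (y : ℂ) := by
    simpa using (((hasDerivAt_id (y : ℂ)).const_mul (β : ℂ)).mul_const I).const_add ((a : ℂ) / q)
  have h5 : ((a : ℂ) / q + ((β * y : ℝ) : ℂ) * I) = (fun w : ℂ => (a : ℂ) / q + (β * w) * I) (y : ℂ) := by
    push_cast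
    rfl
  rw [h5] at h3
  have h6 := (HasDerivAt.comp (y : ℂ) h3 h4).comp_ofReal
  rw [← h5] at h6
  refine h6.congr_of_eventuallyEq (Eventually.of_forall fun y => ?_)
  simp only [Function.comp_apply]
  congr 1
  push_cast
  rfl

lemma path_inf {q : ℕ} (a : ℤ) {β : ℝ} (hβ : 0 < β) :
    Tendsto (fun y : ℝ => FP (2 * m - 2) (Hf f 1) (Pa m q a) ((a : ℂ) / q + ((β * y : ℝ) : ℂ) * I))
      atTop (𝓝 0) := by
  have h3 := FP_lim (d := 2 * m - 2) (Hf_dec f 1) (Pa m q a) ((a : ℝ) / q)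
  have h4 : Tendsto (fun y : ℝ => β * y) atTop atTop := tendsto_id.const_mul_atTop hβ
  refine (h3.comp h4).congr fun y => ?_
  simp only [Function.comp_apply]
  push_cast
  rfl

lemma path_zero (hm : 1 ≤ m) {q : ℕ} (hq : 0 < q) (a : ℤ) {β : ℝ} (hβ : 0 < β) :
    Tendsto (fun y : ℝ => FP (2 * m - 2) (Hf f 1) (Pa m q a) ((a : ℂ) / q + ((β * y : ℝ) : ℂ) * I))
      (𝓝[>] 0) (𝓝 (kp m f q a)) := by
  have h3 := (kp_lim f hm hq a).1
  have h4 : Tendsto (fun y : ℝ => β * y) (𝓝[>] 0) (𝓝[>] 0) := by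
    refine tendsto_nhdsWithin_iff.2 ⟨?_, ?_⟩
    · have h5 : Tendsto (fun y : ℝ => β * y) (𝓝 0) (𝓝 (β * 0)) :=
        (continuous_const.mul continuous_id).tendsto 0
      rw [mul_zero] at h5
      exact h5.mono_left nhdsWithin_le_nhds
    · filter_upwards [self_mem_nhdsWithin] with y hy
      exact mul_pos hβ hy
  exact h3.comp h4

omit [NeZero N] in
lemma zero_of_path {G : ℝ → ℂ} (hG : ∀ y : ℝ, 0 < y → HasDerivAt G 0 y)
    (hinf : Tendsto G atTop (𝓝 0)) {L : ℂ} (h0 : Tendsto G (𝓝[>] 0) (𝓝 L)) : L = 0 := by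
  have h1 : ∀ y : ℝ, 0 < y → G y = G 1 := by
    intro y hy
    exact isOpen_Ioi.is_const_of_deriv_eq_zero isPreconnected_Ioi
      (fun w hw => (hG w hw).differentiableAt.differentiableWithinAt)
      (fun w hw => (hG w hw).deriv) (show y ∈ Ioi (0 : ℝ) from hy)
      (Set.mem_Ioi.2 one_pos)
  have h2 : G 1 = 0 := by
    refine tendsto_nhds_unique (tendsto_const_nhds (f := (atTop : Filter ℝ))) (hinf.congr' ?_)
    filter_upwards [eventually_gt_atTop (0 : ℝ)] with y hy
    exact h1 y hy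
  refine tendsto_nhds_unique h0 ((tendsto_const_nhds (x := (0 : ℂ))).congr' ?_)
  filter_upwards [self_mem_nhdsWithin] with y hy
  rw [h1 y hy, h2]

/-- periodicity -/
theorem kp_per (hm : 1 ≤ m) {q : ℕ} (hq : 0 < q) (a n : ℤ) :
    kp m f q (a + n * q) = kp m f q a := by
  have hqC : (q : ℂ) ≠ 0 := by exact_mod_cast hq.ne'
  have h1 : kp m f q (a + n * q) - kp m f q a = 0 := by
    refine zero_of_path (G := fun y : ℝ =>
      FP (2 * m - 2) (Hf f 1) (Pa m q (a + n * q))
        (((a + n * q : ℤ) : ℂ) / q + ((1 * y : ℝ) : ℂ) * I) -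
      FP (2 * m - 2) (Hf f 1) (Pa m q a) ((a : ℂ) / q + ((1 * y : ℝ) : ℂ) * I)) ?_ ?_ ?_
    · intro y hy
      have h2 := (path_deriv f hq (a + n * q) one_pos hy).sub (path_deriv f hq a one_pos hy)
      refine h2.congr_deriv ?_
      have him : 0 < ((a : ℂ) / q + ((1 * y : ℝ) : ℂ) * I).im := by
        have e : ((a : ℂ) / q + ((1 * y : ℝ) : ℂ) * I) =
            ((((a : ℝ) / q : ℝ) : ℂ) + ((1 * y : ℝ) : ℂ) * I) := by push_cast; rfl
        rw [e, line_im]
        positivity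
      have h3 : (((a + n * q : ℤ) : ℂ) / q + ((1 * y : ℝ) : ℂ) * I) =
          ((a : ℂ) / q + ((1 * y : ℝ) : ℂ) * I) + n := by
        push_cast
        field_simp
        ring
      rw [h3, h_per f him, sub_self]
    · have h2 := (path_inf f (q := q) (a + n * q) one_pos).sub (path_inf f (q := q) a one_pos)
      rw [sub_self] at h2
      exact h2
    · exact (path_zero f hm hq (a + n * q) one_pos).sub (path_zero f hm hq a one_pos)
  exact sub_eq_zero.1 h1

/-- common factors -/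
theorem kp_scale (hm : 1 ≤ m) {g q : ℕ} (hg : 0 < g) (hq : 0 < q) (a : ℤ) :
    kp m f (g * q) (g * a) = (g : ℂ) ^ (m - 1) * kp m f q a := by
  have h1 := (kp_lim f hm (Nat.mul_pos hg hq) ((g : ℤ) * a)).1
  have h2 := ((kp_lim f hm hq a).1).const_mul ((g : ℂ) ^ (m - 1))
  refine tendsto_nhds_unique h1 (h2.congr fun y => ?_)
  have hgC : (g : ℂ) ≠ 0 := by exact_mod_cast hg.ne'
  have e1 : (((g : ℤ) * a : ℤ) : ℂ) / ((g * q : ℕ) : ℂ) = (a : ℂ) / q := by
    push_cast
    rw [mul_div_mul_left _ _ hgC]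
  rw [Pa_scale, e1, FP_smul]
  push_cast
  rfl

/-- **the Hecke relation of the modular symbols** -/
theorem kp_hecke (hm : 1 ≤ m) {η : DirichletCharacter ℂ N} {w : ℂ} (hf : NNewf m N η f w)
    {p : ℕ} (hp : p.Prime) {q : ℕ} (hq : 0 < q) (a : ℤ) :
    cf f p * kp m f q a = η (p : ZMod N) * (p : ℂ) ^ (m - 1) * kp m f q (p * a) +
      ∑ b ∈ Finset.range p, kp m f (q * p) (a + b * q) := by
  have hpR : (0 : ℝ) < p := by exact_mod_cast hp.pos
  have hpC : (p : ℂ) ≠ 0 := by exact_mod_cast hp.ne_zero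
  have hqC : (q : ℂ) ≠ 0 := by exact_mod_cast hq.ne'
  have hqR : (0 : ℝ) < q := by exact_mod_cast hq
  have hβ : (0 : ℝ) < 1 / p := by positivity
  have hqp : 0 < q * p := Nat.mul_pos hq hp.pos
  have h1 : cf f p * kp m f q a - (η (p : ZMod N) * (p : ℂ) ^ (m - 1) * kp m f q (p * a) +
      ∑ b ∈ Finset.range p, kp m f (q * p) (a + b * q)) = 0 := by
    refine zero_of_path (G := fun y : ℝ =>
      cf f p * FP (2 * m - 2) (Hf f 1) (Pa m q a) ((a : ℂ) / q + ((1 * y : ℝ) : ℂ) * I) -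
      (η (p : ZMod N) * (p : ℂ) ^ (m - 1) *
        FP (2 * m - 2) (Hf f 1) (Pa m q (p * a))
          (((p * a : ℤ) : ℂ) / q + ((p * y : ℝ) : ℂ) * I) +
      ∑ b ∈ Finset.range p, FP (2 * m - 2) (Hf f 1) (Pa m (q * p) (a + b * q))
          (((a + b * q : ℤ) : ℂ) / ((q * p : ℕ) : ℂ) + ((1 / p * y : ℝ) : ℂ) * I))) ?_ ?_ ?_
    · intro y hy
      have h2 := ((path_deriv f hq a one_pos hy).const_mul (cf f p)).sub
        (((path_deriv f hq (p * a) hpR hy).const_mul (η (p : ZMod N) * (p : ℂ) ^ (m - 1))).add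
        (HasDerivAt.fun_sum (u := Finset.range p) fun b _ =>
          path_deriv f hqp (a + b * q) hβ hy))
      refine h2.congr_deriv ?_
      set z : ℂ := (a : ℂ) / q + ((1 * y : ℝ) : ℂ) * I with hz
      have him : 0 < z.im := by
        have e : z = ((((a : ℝ) / q : ℝ) : ℂ) + ((1 * y : ℝ) : ℂ) * I) := by
          rw [hz]; push_cast; rfl
        rw [e, line_im]
        positivity
      have e1 : (((p * a : ℤ) : ℂ) / q + ((p * y : ℝ) : ℂ) * I) = p * z := by
        rw [hz]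
        push_cast
        field_simp
      have e2 : ∀ b : ℕ, (((a + b * q : ℤ) : ℂ) / ((q * p : ℕ) : ℂ) +
          ((1 / p * y : ℝ) : ℂ) * I) = (z + b) / p := by
        intro b
        rw [hz]
        push_cast
        field_simp
        ring
      rw [e1]
      simp only [e2]
      have h3 := hecke_h hf hp him
      have e3 : ((q : ℂ) * ((p * y : ℝ) : ℂ) * I) ^ (m - 1) =
          (p : ℂ) ^ (m - 1) * ((q : ℂ) * y * I) ^ (m - 1) := by
        rw [← mul_pow]
        congr 1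
        push_cast
        ring
      have e4 : ((q : ℂ) * ((1 * y : ℝ) : ℂ) * I) = ((q : ℂ) * y * I) := by
        push_cast
        ring
      have e5 : (((q * p : ℕ) : ℂ) * ((1 / p * y : ℝ) : ℂ) * I) = ((q : ℂ) * y * I) := by
        push_cast
        field_simp
      rw [e3, e4, e5, ← Finset.sum_mul, ← Finset.sum_mul]
      have e6 : (p : ℂ) ^ (2 * m - 1) = (p : ℂ) ^ (m - 1) * ((p : ℂ) ^ (m - 1) * p) := by
        rw [← pow_succ, ← pow_add]
        congr 1
        omega
      rw [e6] at h3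
      push_cast
      linear_combination (((q : ℂ) * y * I) ^ (m - 1) * I) * h3
    · have h2 := ((path_inf f (q := q) a one_pos).const_mul (cf f p)).sub
        (((path_inf f (q := q) (p * a) hpR).const_mul (η (p : ZMod N) * (p : ℂ) ^ (m - 1))).add
        (tendsto_finsetSum (Finset.range p) fun b _ =>
          path_inf f (q := q * p) (a + b * q) hβ))
      simp only [mul_zero, Finset.sum_const_zero, add_zero, sub_zero] at h2
      exact h2
    · exact ((path_zero f hm hq a one_pos).const_mul (cf f p)).sub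
        (((path_zero f hm hq (p * a) hpR).const_mul (η (p : ZMod N) * (p : ℂ) ^ (m - 1))).add
        (tendsto_finsetSum (Finset.range p) fun b _ =>
          path_zero f hm hqp (a + b * q) hβ))
  exact sub_eq_zero.1 h1

end

end Pool.Agent.Y683.CG
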