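import Pool.Agent.Y683.CG.Lev
import Pool.Agent.Y683.CG.Fil

/-!
# The group generated by the products of modular symbols
-/

set_option autoImplicit false

namespace Pool.Agent.Y683.CG

open Finset

/-- the generators -/
def lgen (r : ℕ) (κ : Fin r → ℕ → ℤ → ℂ) (n : ℕ) : Set ℂ :=
  {x | ∃ ζ : ℂ, ζ ^ n = 1 ∧ ∃ M : Fin r → ℕ, (∀ i, 0 < M i) ∧ ∃ a : Fin r → ℤ,
    x = ζ * ∏ i, κ i (M i) (a i)}

/-- the group -/
def Lam (r : ℕ) (κ : Fin r → ℕ → ℤ → ℂ) (n : ℕ) : Submodule ℤ ℂ := Submodule.span ℤ (lgen r κ n)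

variable {r : ℕ} {κ : Fin r → ℕ → ℤ → ℂ} {n : ℕ}

lemma lam_gen {ζ : ℂ} (hζ : ζ ^ n = 1) {M : Fin r → ℕ} (hM : ∀ i, 0 < M i) (a : Fin r → ℤ) :
    ζ * ∏ i, κ i (M i) (a i) ∈ Lam r κ n :=
  Submodule.subset_span ⟨ζ, hζ, M, hM, a, rfl⟩

/-- multipliers -/
lemma mul_of_gen {E : ℂ} (h : ∀ x ∈ lgen r κ n, E * x ∈ Lam r κ n) : E ∈ mulR (Lam r κ n) := by
  intro y hy
  refine Submodule.span_induction (p := fun y _ => E * y ∈ Lam r κ n) h ?_ ?_ ?_ hy
  · rw [mul_zero]
    exact Submodule.zero_mem _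
  · intro a b _ _ ha hb
    rw [mul_add]
    exact Submodule.add_mem _ ha hb
  · intro z a _ ha
    rw [mul_smul_comm]
    exact Submodule.smul_mem _ _ ha

lemma mul_root {ζ : ℂ} (hζ : ζ ^ n = 1) : ζ ∈ mulR (Lam r κ n) := by
  refine mul_of_gen fun x hx => ?_
  obtain ⟨ξ, hξ, M, hM, a, rfl⟩ := hx
  rw [← mul_assoc]
  exact lam_gen (by rw [mul_pow, hζ, hξ, one_mul]) hM a

lemma mul_hecke {m : Fin r → ℕ} {c e : Fin r → ℕ → ℂ} (h : ∀ i, Ksy (m i) (κ i) (c i) (e i))
    (i : Fin r) {p : ℕ} (hp : p.Prime) (he : e i p ^ n = 1) : c i p ∈ mulR (Lam r κ n) := by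
  classical
  refine mul_of_gen fun x hx => ?_
  obtain ⟨ξ, hξ, M, hM, a, rfl⟩ := hx
  have hup : ∀ (M' : ℕ) (a' : ℤ), 0 < M' → ∀ ζ : ℂ, ζ ^ n = 1 →
      ζ * (κ i M' a' * ∏ j ∈ univ.erase i, κ j (M j) (a j)) ∈ Lam r κ n := by
    intro M' a' hM' ζ hζ
    have h1 := lam_gen (κ := κ) hζ (M := Function.update M i M') (fun j => by
      by_cases hj : j = i
      · rw [hj, Function.update_self]
        exact hM'
      · rw [Function.update_of_ne hj]
        exact hM j) (Function.update a i a')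
    rw [← mul_prod_erase univ _ (mem_univ i), Function.update_self, Function.update_self] at h1
    rw [prod_congr rfl (g := fun j => κ j (M j) (a j)) fun j hj => by
      rw [Function.update_of_ne (ne_of_mem_erase hj), Function.update_of_ne (ne_of_mem_erase hj)]]
      at h1
    exact h1
  have h2 := (h i).hecke p hp (M i) (hM i) (a i)
  set R : ℂ := ∏ j ∈ univ.erase i, κ j (M j) (a j) with hR
  have h3 : c i p * (ξ * ∏ j, κ j (M j) (a j)) =
      ((p : ℤ) ^ (m i - 1)) • ((e i p * ξ) * (κ i (M i) (p * a i) * R)) +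
        ∑ b ∈ range p, ξ * (κ i (M i * p) (a i + b * M i) * R) := by
    rw [← mul_prod_erase univ _ (mem_univ i), ← mul_sum, ← sum_mul, zsmul_eq_mul]
    push_cast
    linear_combination (ξ * R) * h2
  rw [h3]
  refine Submodule.add_mem _ (Submodule.smul_mem _ _ ?_) (Submodule.sum_mem _ fun b _ => ?_)
  · exact hup _ _ (hM i) _ (by rw [mul_pow, he, hξ, one_mul])
  · exact hup _ _ (Nat.mul_pos (hM i) hp.pos) _ hξ

lemma lam_fg (hn : 0 < n) (L : Fin r → Submodule ℤ ℂ) (hL : ∀ i, (L i).FG)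
    (h : ∀ i, ∀ q : ℕ, 0 < q → ∀ a : ℤ, κ i q a ∈ L i) : (Lam r κ n).FG := by
  classical
  have hfin : {ζ : ℂ | ζ ^ n = 1}.Finite := by
    have h1 : {ζ : ℂ | ζ ^ n = 1} ⊆ (Polynomial.nthRoots n (1 : ℂ)).toFinset := by
      intro ζ hζ
      rw [mem_coe, Multiset.mem_toFinset, Polynomial.mem_nthRoots hn]
      exact hζ
    exact (finite_toSet _).subset h1
  set A : Submodule ℤ ℂ := Submodule.span ℤ {ζ : ℂ | ζ ^ n = 1} with hA
  have hAfg : A.FG := Submodule.fg_span hfin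
  have hP : ∀ s : Finset (Fin r), (∏ i ∈ s, L i).FG ∧
      ∀ x : Fin r → ℂ, (∀ i ∈ s, x i ∈ L i) → ∏ i ∈ s, x i ∈ ∏ i ∈ s, L i := by
    intro s
    induction s using Finset.induction_on with
    | empty =>
      refine ⟨?_, fun x _ => ?_⟩
      · rw [prod_empty, Submodule.one_eq_span]
        exact Submodule.fg_span_singleton _
      · rw [prod_empty, prod_empty]
        exact Submodule.one_le.1 le_rfl
    | insert i s hi ih =>
      refine ⟨?_, fun x hx => ?_⟩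
      · rw [prod_insert hi]
        exact (hL i).mul ih.1
      · rw [prod_insert hi, prod_insert hi]
        exact Submodule.mul_mem_mul (hx i (mem_insert_self i s))
          (ih.2 x fun j hj => hx j (mem_insert_of_mem hj))
  have hle : Lam r κ n ≤ A * ∏ i, L i := by
    unfold Lam
    rw [Submodule.span_le]
    rintro _ ⟨ζ, hζ, M, hM, a, rfl⟩
    exact Submodule.mul_mem_mul (Submodule.subset_span hζ)
      ((hP univ).2 _ fun i _ => h i (M i) (hM i) (a i))
  exact Submodule.FG.of_le (hAfg.mul (hP univ).1) hle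

end Pool.Agent.Y683.CG
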