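import Pool.Agent.Y683.CG.Hec
import Pool.Agent.Y683.CG.Lev
import Pool.Agent.Y683.CG.Chr
import Pool.Agent.Y683.NF.Fin

/-!
# The central value vanishes if and only if the character sum of the modular symbols does
-/

set_option autoImplicit false

namespace Pool.Agent.Y683.CG

open Complex Filter Topology Set ZMod
open UpperHalfPlane hiding I
open scoped MatrixGroups
open CongruenceSubgroup
open Pool.Agent.W192.CY
open Pool.Agent.Y683.MS
open Pool.Agent.Y683.NF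
open Pool.Agent.W440.TW (inv_primitive)

/-- the modular symbols satisfy the relations -/
theorem ksy {m : ℕ} (hm : 1 ≤ m) {N : ℕ} [NeZero N] {η : DirichletCharacter ℂ N}
    {f : CuspForm (Gamma1 N : Subgroup (GL (Fin 2) ℝ)) (2 * m : ℤ)} {w : ℂ}
    (hf : NNewf m N η f w) : Ksy m (kp m f) (cf f) (fun p => η (p : ZMod N)) where
  per := fun q hq a n => kp_per f hm hq a n
  scale := fun g q hg hq a => kp_scale f hm hg hq a
  hecke := fun p hp q hq a => kp_hecke f hm hf hp hq a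

/-- two entire functions equal on a right half plane -/
lemma entire_eq {F G : ℂ → ℂ} (hF : Differentiable ℂ F) (hG : Differentiable ℂ G) (σ : ℝ)
    (h : ∀ s : ℂ, σ < s.re → F s = G s) : F = G := by
  have h1 : AnalyticOnNhd ℂ F Set.univ := fun z _ => hF.analyticAt z
  have h2 : AnalyticOnNhd ℂ G Set.univ := fun z _ => hG.analyticAt z
  refine h1.eq_of_eventuallyEq h2 (z₀ := ((σ + 1 : ℝ) : ℂ)) ?_
  have h3 : {s : ℂ | σ < s.re} ∈ 𝓝 ((σ + 1 : ℝ) : ℂ) :=
    (isOpen_lt continuous_const Complex.continuous_re).mem_nhds (by simp)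
  filter_upwards [h3] with s hs
  exact h s hs

/-- the sum over the units -/
lemma lev_units (κ : ℕ → ℤ → ℂ) (M : ℕ) [NeZero M] (Ψ : ℕ → ℂ) :
    lev κ M Ψ = ∑ u : (ZMod M)ˣ, Ψ (u : ZMod M).val * κ M ((u : ZMod M).val : ℤ) := by
  unfold lev
  symm
  refine Finset.sum_bij (fun u _ => (u : ZMod M).val) ?_ ?_ ?_ ?_
  · intro u _
    rw [Finset.mem_filter, Finset.mem_range]
    exact ⟨ZMod.val_lt _, ZMod.val_coe_unit_coprime u⟩
  · intro u _ v _ h
    exact Units.ext (ZMod.val_injective M h)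
  · intro a ha
    rw [Finset.mem_filter, Finset.mem_range] at ha
    refine ⟨ZMod.unitOfCoprime a ha.2, Finset.mem_univ _, ?_⟩
    rw [ZMod.coe_unitOfCoprime, ZMod.val_natCast_of_lt ha.1]
  · intro u _
    rfl

/-- the Euler factors of a twist: `ψ` are the values of the character -/
def NVC {m N : ℕ} (η : DirichletCharacter ℂ N)
    (f : CuspForm (Gamma1 N : Subgroup (GL (Fin 2) ℝ)) (2 * m : ℤ)) (ψ : ℕ → ℂ) : Prop :=
  ∃ L : ℂ → ℂ, Differentiable ℂ L ∧ (∀ s : ℂ, (m : ℝ) + 1 / 2 < s.re →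
    HasProd (fun p : Nat.Primes => (1 - ψ p * cf f p * ((p : ℕ) : ℂ) ^ (-s) +
      ψ p ^ 2 * η ((p : ℕ) : ZMod N) * ((p : ℕ) : ℂ) ^ (2 * (m : ℂ) - 1 - 2 * s))⁻¹) (L s)) ∧
    L m ≠ 0

theorem nonvan_iff {m : ℕ} (hm : 1 ≤ m) {N : ℕ} [NeZero N] {η : DirichletCharacter ℂ N}
    {f : CuspForm (Gamma1 N : Subgroup (GL (Fin 2) ℝ)) (2 * m : ℤ)} {w : ℂ}
    (hf : NNewf m N η f w) {M : ℕ} [NeZero M] (hM : Nat.Coprime M N) (E : DirichletCharacter ℂ M)
    (hE : E.IsPrimitive) :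
    NVC η f (fun n => E (n : ZMod M)) ↔ lev (kp m f) M (fun u => (E (u : ZMod M))⁻¹) ≠ 0 := by
  obtain ⟨F, hF, hFs, hFm⟩ := afe m hm N η f w hf M E hM hE
  obtain ⟨K, hK, h1⟩ := center_kp eul hm hf M E⁻¹ (inv_primitive E hE)
  have h2 := h1 (F m) ((w * η (M : ZMod N)) * E (N : ZMod M) *
            gaussSum E (ZMod.stdAddChar (N := M)) ^ 2 / M) (fun X Y hX hY hXY => by
      rw [inv_inv]
      exact hFm X Y hX hY hXY)
  have h3 : lev (kp m f) M (fun u => (E (u : ZMod M))⁻¹) = K * F m := by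
    rw [lev_units, ← h2]
    refine Finset.sum_congr rfl fun u _ => ?_
    rw [ZMod.natCast_zmod_val, MulChar.inv_apply_eq_inv']
  have hprod : ∀ s : ℂ, (m : ℝ) + 1 / 2 < s.re →
      HasProd (fun p : Nat.Primes => (1 - E ((p : ℕ) : ZMod M) * cf f p * ((p : ℕ) : ℂ) ^ (-s) +
        E ((p : ℕ) : ZMod M) ^ 2 * η ((p : ℕ) : ZMod N) *
          ((p : ℕ) : ℂ) ^ (2 * (m : ℂ) - 1 - 2 * s))⁻¹) (F s) := by
    intro s hs
    rw [hFs s hs]
    exact (eul m hm N η f w hf M E s hs).2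
  rw [h3]
  constructor
  · rintro ⟨L, hL, hLs, hLm⟩
    have h4 : L = F := entire_eq hL hF ((m : ℝ) + 1 / 2) fun s hs => (hLs s hs).unique (hprod s hs)
    rw [h4] at hLm
    exact mul_ne_zero hK hLm
  · intro h
    exact ⟨F, hF, hprod, right_ne_zero_of_mul h⟩

end Pool.Agent.Y683.CG
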