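import Pool.Agent.Y683.CG.Abs
import Pool.Agent.Y683.CG.Nvi

/-!
# Groups of characters that contain a bounded subgroup all of whose cosets have a nonvanishing twist
-/

set_option autoImplicit false

namespace Pool.Agent.Y683.CG

open Complex Filter Topology Set ZMod
open UpperHalfPlane hiding I
open scoped MatrixGroups
open CongruenceSubgroup
open Pool.Agent.W192.CY
open Pool.Agent.Y683.MS
open Pool.Agent.Y683.NF

/-- the values of the primitive character `χ₀ ∏ χ_q` -/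
noncomputable def vals {c : ℕ} (χ₀ : DirichletCharacter ℂ c) (χ : Fam) (n : ℕ) : ℂ :=
  χ₀ (n : ZMod c) * ∏ᶠ (q : ℕ) (_ : χ q ≠ 1), χ q (n : ZMod q)

lemma vals_eq {c : ℕ} (χ₀ : DirichletCharacter ℂ c) (χ : Fam) (S : Finset ℕ)
    (hS : ∀ q, q ∈ S ↔ χ q ≠ 1) (n : ℕ) :
    vals χ₀ χ n = χ₀ (n : ZMod c) * ∏ q ∈ S, χ q (n : ZMod q) := by
  unfold vals
  rw [finprod_cond_eq_prod_of_cond_iff (fun q => χ q (n : ZMod q)) (t := S)
    (fun {q} _ => (hS q).symm)]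

/-- orders -/
lemma dvd_of_ord {l b q : ℕ} (hl : l.Prime) (hq : q.Prime) (χ : DirichletCharacter ℂ q)
    (hχ : χ ≠ 1) (h : χ ^ (l ^ b) = 1) : (l : ℤ) ∣ 1 - q ∧ q ≠ l := by
  have : NeZero q := ⟨hq.ne_zero⟩
  have h1 : orderOf χ ∣ l ^ b := orderOf_dvd_of_pow_eq_one h
  have h2 : orderOf χ ∣ q - 1 := by
    refine orderOf_dvd_of_pow_eq_one ?_
    ext u
    rw [MulChar.pow_apply_coe, MulChar.one_apply_coe, ← map_pow, ← Units.val_pow_eq_pow_val]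
    have h3 := ZMod.pow_totient u
    rw [Nat.totient_prime hq] at h3
    rw [h3, Units.val_one, map_one]
  have h3 : orderOf χ ≠ 1 := fun h => hχ (orderOf_eq_one_iff.1 h)
  have h4 : l ∣ orderOf χ := by
    obtain ⟨j, _, hj⟩ := (Nat.dvd_prime_pow hl).1 h1
    rcases j with _ | j
    · rw [pow_zero] at hj
      exact absurd hj h3
    · rw [hj]
      exact dvd_pow_self l (by omega)
  have h5 : l ∣ q - 1 := h4.trans h2
  have h6 : ((q - 1 : ℕ) : ℤ) = q - 1 := by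
    have := hq.one_lt
    push_cast [Nat.cast_sub this.le]
    ring
  have h7 : (l : ℤ) ∣ q - 1 := by
    rw [← h6]
    exact_mod_cast h5
  refine ⟨?_, ?_⟩
  · have := (dvd_neg (a := (l : ℤ))).2 h7
    rwa [neg_sub] at this
  · rintro rfl
    have h8 := Nat.le_of_dvd (by have := hq.one_lt; omega) h5
    have := hq.one_lt
    omega

theorem partA {r : ℕ} {m N : Fin r → ℕ} [∀ i, NeZero (N i)] (hm : ∀ i, 1 ≤ m i)
    {η : (i : Fin r) → DirichletCharacter ℂ (N i)}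
    {f : (i : Fin r) → CuspForm (Gamma1 (N i) : Subgroup (GL (Fin 2) ℝ)) (2 * m i : ℤ)}
    {w : Fin r → ℂ} (hf : ∀ i, NNewf (m i) (N i) (η i) (f i) (w i)) {l : ℕ} (hl : l.Prime)
    (𝔪 : Ideal (integralClosure ℤ ℂ)) (hmax : 𝔪.IsMaximal) (hlm : (l : integralClosure ℤ ℂ) ∈ 𝔪)
    {c : Fin r → ℕ} (hc : ∀ i, 1 ≤ c i) (χ₀ : (i : Fin r) → DirichletCharacter ℂ (c i))
    (h0 : ∀ i, (χ₀ i).IsPrimitive) (hcN : ∀ i, Nat.Coprime (c i) (N i))
    (hbase : ∀ i, NVC (η i) (f i) (vals (χ₀ i) 1)) (b : ℕ) :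
    ∃ V : ℕ, ∀ H : Subgroup Fam, (∀ χ ∈ H, χ ^ (l ^ b) = 1 ∧ {q | χ q ≠ 1}.Finite ∧
      ∀ q, χ q ≠ 1 → q.Prime ∧ ∀ i, ¬ q ∣ N i ∧ ¬ q ∣ c i ∧ ∃ x : integralClosure ℤ ℂ, x ∉ 𝔪 ∧
        (x : ℂ) = cf (f i) q - η i (q : ZMod (N i)) * χ₀ i (q : ZMod (c i)) -
          (χ₀ i (q : ZMod (c i)))⁻¹) →
      ∃ K : Subgroup Fam, K ≤ H ∧ Finite K ∧ Nat.card K ≤ (l ^ b) ^ V ∧
        ∀ ψ ∈ H, ∃ φ ∈ K, ∀ i, NVC (η i) (f i) (vals (χ₀ i) (ψ * φ)) := by
  classical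
  have hcne : ∀ i, NeZero (c i) := fun i => ⟨by have := hc i; omega⟩
  set n : ℕ := l ^ b * ∏ i, (Nat.totient (c i) * Nat.totient (N i)) with hn
  have hn0 : 0 < n := by
    refine Nat.mul_pos (pow_pos hl.pos b) (Finset.prod_pos fun i _ => ?_)
    exact Nat.mul_pos (Nat.totient_pos.2 (hc i))
      (Nat.totient_pos.2 (Nat.pos_of_ne_zero (NeZero.ne (N i))))
  have hdiv : ∀ i, Nat.totient (c i) * Nat.totient (N i) ∣ n := fun i =>
    (Finset.dvd_prod_of_mem (fun i => Nat.totient (c i) * Nat.totient (N i))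
      (Finset.mem_univ i)).trans (dvd_mul_left _ _)
  obtain ⟨V, hV⟩ := abs_main (m := m) (κ := fun i => kp (m i) (f i)) (cc := fun i => cf (f i))
    (e := fun i p => η i (p : ZMod (N i))) (b := b) hl 𝔪 hmax hlm hn0 (dvd_mul_right _ _)
    (fun i => (dvd_mul_right _ _).trans (hdiv i)) χ₀ h0 (fun i => ksy (hm i) (hf i))
    (fun i => LP (f i) (2 * m i - 2)) (fun i => LP_fg (f i) _)
    (fun i q hq a => (kp_lim (f i) (hm i) hq a).2) (fun i => by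
      have h1 : vals (χ₀ i) 1 = fun n : ℕ => χ₀ i (n : ZMod (c i)) := by
        funext n
        rw [vals_eq (χ₀ i) 1 ∅ (fun q => ⟨fun h => absurd h (Finset.notMem_empty q),
          fun h => absurd rfl h⟩), Finset.prod_empty, mul_one]
      have h2 := hbase i
      rw [h1] at h2
      have h3 := (nonvan_iff (hm i) (hf i) (hcN i) (χ₀ i) (h0 i)).1 h2
      unfold lw
      rw [Finset.prod_empty, mul_one]
      simp only [Finset.prod_empty, mul_one]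
      exact h3)
  refine ⟨V, fun H hH => ?_⟩
  refine hV H (fun χ hχ => ?_) (fun χ => ∀ i, NVC (η i) (f i) (vals (χ₀ i) χ)) ?_
  · obtain ⟨h1, h2, h3⟩ := hH χ hχ
    refine ⟨h1, h2.toFinset, fun q => by rw [Set.Finite.mem_toFinset]; rfl, ?_⟩
    intro q hq
    rw [Set.Finite.mem_toFinset] at hq
    obtain ⟨h4, h5⟩ := h3 q hq
    have h6 : (χ q) ^ (l ^ b) = 1 := congrFun h1 q
    refine ⟨h4, (dvd_of_ord hl h4 (χ q) hq h6).1, fun i => ?_⟩
    obtain ⟨h7, h8, h9⟩ := h5 i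
    refine ⟨(Nat.Prime.coprime_iff_not_dvd h4).2 h8, ?_, h9⟩
    exact dc_root ((dvd_mul_left _ _).trans (hdiv i)) (η i)
      ((Nat.Prime.coprime_iff_not_dvd h4).2 h7)
  · intro χ hχ S hS hA hnv
    push Not at hnv
    obtain ⟨i, hi⟩ := hnv
    refine ⟨i, ?_⟩
    obtain ⟨-, -, h3⟩ := hH χ hχ
    obtain ⟨E, hE, hEv⟩ := fam_prim (χ₀ i) (h0 i) χ S fun q hq =>
      ⟨(hA q hq).1, ((hA q hq).2.2 i).1, (hS q).1 hq⟩
    have hMne : NeZero (c i * ∏ q ∈ S, q) := ⟨mul_ne_zero (NeZero.ne (c i))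
      (Finset.prod_ne_zero_iff.2 fun q hq => (hA q hq).1.ne_zero)⟩
    have hMN : Nat.Coprime (c i * ∏ q ∈ S, q) (N i) := by
      refine Nat.Coprime.mul_left (hcN i) (Nat.Coprime.prod_left fun q hq => ?_)
      exact (Nat.Prime.coprime_iff_not_dvd (hA q hq).1).2 ((h3 q ((hS q).1 hq)).2 i).1
    have h4 : vals (χ₀ i) χ = fun n : ℕ => E (n : ZMod (c i * ∏ q ∈ S, q)) := by
      funext n
      rw [vals_eq (χ₀ i) χ S hS, hEv]
    rw [h4, nonvan_iff (hm i) (hf i) hMN E hE, not_not] at hi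
    unfold lw
    simp only [← hEv]
    exact hi

end Pool.Agent.Y683.CG
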