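import Pool.Agent.Y683.MS.Per

/-!
# The periods of a cusp form with integral polynomial coefficients span a finitely generated group
-/

set_option autoImplicit false

namespace Pool.Agent.Y683.CG

open Complex Filter Topology Set Polynomial
open UpperHalfPlane hiding I
open scoped MatrixGroups ModularForm
open CongruenceSubgroup
open Pool.Agent.Y683.MS

/-- polynomials with integral coefficients -/
def IntP (P : ℚ[X]) : Prop := P ∈ Polynomial.lifts (Int.castRingHom ℚ)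

lemma IntP.coeff {P : ℚ[X]} (h : IntP P) (j : ℕ) : ∃ z : ℤ, P.coeff j = z := by
  have h1 := (Polynomial.lifts_iff_coeff_lifts P).1 h j
  obtain ⟨z, hz⟩ := h1
  exact ⟨z, hz.symm⟩

lemma IntP.C_int (z : ℤ) : IntP (C (z : ℚ)) := by
  unfold IntP
  exact Polynomial.C_mem_lifts (Int.castRingHom ℚ) z

lemma IntP.mul {P Q : ℚ[X]} (h : IntP P) (h' : IntP Q) : IntP (P * Q) :=
  Subsemiring.mul_mem _ h h'

lemma IntP.add {P Q : ℚ[X]} (h : IntP P) (h' : IntP Q) : IntP (P + Q) :=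
  Subsemiring.add_mem _ h h'

lemma IntP.pow {P : ℚ[X]} (h : IntP P) (n : ℕ) : IntP (P ^ n) :=
  Subsemiring.pow_mem _ h n

lemma IntP.lin (a b : ℤ) : IntP (C (a : ℚ) * X + C (b : ℚ)) :=
  ((IntP.C_int a).mul (Polynomial.X_mem_lifts _)).add (IntP.C_int b)

lemma IntP.act {P : ℚ[X]} (h : IntP P) (d : ℕ) (g : SL(2, ℤ)) : IntP (act d g P) := by
  unfold MS.act
  refine Subsemiring.sum_mem _ fun j _ => ?_
  obtain ⟨z, hz⟩ := h.coeff j
  rw [hz]
  exact (IntP.C_int z).mul (((IntP.lin _ _).pow j).mul ((IntP.lin _ _).pow _))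

variable {N : ℕ} [NeZero N] {k : ℤ} (f : CuspForm (Gamma1 N : Subgroup (GL (Fin 2) ℝ)) k)

/-- the group of periods -/
noncomputable def LP (d : ℕ) : Submodule ℤ ℂ := Submodule.span ℤ (gens f d)

lemma LP_fg (d : ℕ) : (LP f d).FG := by
  unfold LP
  exact Submodule.fg_span (gens_fin f d)

omit [NeZero N] in
lemma kap_mem_int (d : ℕ) (h h' : ℂ → ℂ) (g : SL(2, ℤ)) (V : Submodule ℤ ℂ)
    (hV : ∀ j : ℕ, j ≤ d → kap d h h' g (X ^ j) ∈ V) (P : ℚ[X]) (hP : P.natDegree ≤ d)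
    (hPi : IntP P) : kap d h h' g P ∈ V := by
  have h1 : P = ∑ j ∈ Finset.range (d + 1), C (P.coeff j) * X ^ j := by
    have := P.as_sum_range' (d + 1) (Nat.lt_succ_of_le hP)
    conv_lhs => rw [this]
    refine Finset.sum_congr rfl fun j _ => ?_
    rw [C_mul_X_pow_eq_monomial]
  have h2 : ∀ s : Finset ℕ, (∀ j ∈ s, j ≤ d) →
      kap d h h' g (∑ j ∈ s, C (P.coeff j) * X ^ j) ∈ V := by
    classical
    intro s
    induction s using Finset.induction_on with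
    | empty =>
      intro _
      rw [Finset.sum_empty, kap_zero]
      exact V.zero_mem
    | insert i s hi ih =>
      intro hs
      rw [Finset.sum_insert hi, kap_add, kap_smul]
      refine V.add_mem ?_ (ih fun j hj => hs j (Finset.mem_insert_of_mem hj))
      obtain ⟨z, hz⟩ := hPi.coeff i
      have h3 := V.smul_mem z (hV i (hs i (Finset.mem_insert_self i s)))
      rw [hz]
      rw [Algebra.smul_def] at h3
      push_cast
      exact h3
  rw [h1]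
  refine h2 _ fun j hj => ?_
  have := Finset.mem_range.1 hj
  omega

omit [NeZero N] in
lemma kap_gen_int (d : ℕ) (g g' s : SL(2, ℤ)) (hs : s = ModularGroup.S ∨ s = ModularGroup.S⁻¹)
    (P : ℚ[X]) (hP : P.natDegree ≤ d) (hPi : IntP P) :
    kap d (Hf f g) (Hf f g') s P ∈ LP f d := by
  refine kap_mem_int d _ _ s (LP f d) (fun j hj => Submodule.subset_span ?_) P hP hPi
  unfold gens
  rw [Set.mem_iUnion₂]
  refine ⟨j, hj, ?_⟩
  rw [Set.mem_iUnion₂]
  exact ⟨s, hs, ⟨(Hf f g, Hf f g'), ⟨⟨g, rfl⟩, ⟨g', rfl⟩⟩, rfl⟩⟩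

theorem per_all_int {d : ℕ} (hk : k = (d : ℤ) + 2) (g : SL(2, ℤ)) : ∀ P : ℚ[X],
    P.natDegree ≤ d → IntP P →
    ∃ P' : ℚ[X], P'.natDegree ≤ d ∧ IntP P' ∧ ∃ κ ∈ LP f d, ∀ z : ℂ, 0 < z.im →
      FP d (Hf f 1) P (mob g z) = FP d (Hf f g) P' z + κ := by
  have hstep : ∀ x y : SL(2, ℤ), (∀ Q : ℚ[X], Q.natDegree ≤ d → IntP Q →
        kap d (Hf f x) (Hf f (x * y)) y Q ∈ LP f d) →
      (∀ P : ℚ[X], P.natDegree ≤ d → IntP P →
        ∃ P' : ℚ[X], P'.natDegree ≤ d ∧ IntP P' ∧ ∃ κ ∈ LP f d, ∀ z : ℂ, 0 < z.im →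
          FP d (Hf f 1) P (mob x z) = FP d (Hf f x) P' z + κ) →
      ∀ P : ℚ[X], P.natDegree ≤ d → IntP P →
        ∃ P' : ℚ[X], P'.natDegree ≤ d ∧ IntP P' ∧ ∃ κ ∈ LP f d, ∀ z : ℂ, 0 < z.im →
          FP d (Hf f 1) P (mob (x * y) z) = FP d (Hf f (x * y)) P' z + κ := by
    intro x y hy hx P hP hPi
    obtain ⟨P', hP', hPi', κ, hκ, hz'⟩ := hx P hP hPi
    refine ⟨MS.act d y P', act_deg d y P', hPi'.act d y,
      κ + kap d (Hf f x) (Hf f (x * y)) y P',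
      (LP f d).add_mem hκ (hy P' hP' hPi'), fun z hz => ?_⟩
    rw [mob_mul x y hz, hz' _ (mob_im y hz),
      FP_mob (Hf_dec f x) (Hf_dec f (x * y)) y (fun z hz => Hf_mob f hk x y z hz) hP' z hz]
    ring
  have hS : ∀ x y : SL(2, ℤ), (y = ModularGroup.S ∨ y = ModularGroup.S⁻¹) → ∀ Q : ℚ[X],
      Q.natDegree ≤ d → IntP Q → kap d (Hf f x) (Hf f (x * y)) y Q ∈ LP f d :=
    fun x y hy Q hQ hQi => kap_gen_int f d x (x * y) y hy Q hQ hQi
  have hT : ∀ x y : SL(2, ℤ), (y = ModularGroup.T ∨ y = ModularGroup.T⁻¹) → ∀ Q : ℚ[X],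
      Q.natDegree ≤ d → IntP Q → kap d (Hf f x) (Hf f (x * y)) y Q ∈ LP f d := by
    intro x y hy Q hQ _
    have h0 : kap d (Hf f x) (Hf f (x * y)) y Q = 0 := by
      rcases hy with rfl | rfl
      · exact kap_trans (Hf_dec f x) (Hf_dec f _) _ 1 (fun z => by rw [mob_T]; push_cast; ring)
          (fun z hz => Hf_mob f hk x _ z hz) hQ
      · exact kap_trans (Hf_dec f x) (Hf_dec f _) _ (-1)
          (fun z => by rw [mob_T_inv]; push_cast; ring) (fun z hz => Hf_mob f hk x _ z hz) hQ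
    rw [h0]
    exact (LP f d).zero_mem
  have hgen : g ∈ Subgroup.closure {ModularGroup.S, ModularGroup.T} := by
    rw [SpecialLinearGroup.SL2Z_generators]
    exact Subgroup.mem_top g
  refine Subgroup.closure_induction_right (p := fun g _ => ∀ P : ℚ[X], P.natDegree ≤ d → IntP P →
    ∃ P' : ℚ[X], P'.natDegree ≤ d ∧ IntP P' ∧ ∃ κ ∈ LP f d, ∀ z : ℂ, 0 < z.im →
      FP d (Hf f 1) P (mob g z) = FP d (Hf f g) P' z + κ) ?_ ?_ ?_ hgen
  · intro P hP hPi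
    refine ⟨P, hP, hPi, 0, (LP f d).zero_mem, fun z hz => ?_⟩
    have : mob 1 z = z := by simp [mob, den]
    rw [this, add_zero]
  · intro x _ y hy hx
    refine hstep x y (fun Q hQ => ?_) hx
    rcases hy with h | h
    · exact hS x y (Or.inl h) Q hQ
    · exact hT x y (Or.inl h) Q hQ
  · intro x _ y hy hx
    refine hstep x y⁻¹ (fun Q hQ => ?_) hx
    rcases hy with h | h
    · exact hS x y⁻¹ (Or.inr (by rw [h])) Q hQ
    · exact hT x y⁻¹ (Or.inr (by rw [h])) Q hQ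

/-- the value at a cusp -/
theorem cusp_val_int {d : ℕ} (hk : k = (d : ℤ) + 2) {a q : ℤ} (hq : 0 < q) (haq : IsCoprime a q)
    (P : ℚ[X]) (hP : P.natDegree ≤ d) (hPi : IntP P) : ∃ κ ∈ LP f d,
      Tendsto (fun y : ℝ => FP d (Hf f 1) P ((a : ℂ) / q + y * I)) (𝓝[>] 0) (𝓝 κ) := by
  obtain ⟨u, v, huv⟩ := haq
  let g : SL(2, ℤ) := ⟨!![a, -v; q, u], by
    rw [Matrix.det_fin_two_of]
    linarith⟩
  have g00 : (g 0 0 : ℤ) = a := rfl
  have g01 : (g 0 1 : ℤ) = -v := rfl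
  have g10 : (g 1 0 : ℤ) = q := rfl
  have g11 : (g 1 1 : ℤ) = u := rfl
  obtain ⟨P', -, -, κ, hκ, hz⟩ := per_all_int f hk g P hP hPi
  refine ⟨κ, hκ, ?_⟩
  have hq0 : (0 : ℝ) < q := by exact_mod_cast hq
  have hqC : (q : ℂ) ≠ 0 := by exact_mod_cast hq.ne'
  have h1 := (FP_lim (d := d) (Hf_dec f g) P' (-(u : ℝ) / q)).add_const κ
  rw [zero_add] at h1
  have h2 : Tendsto (fun y : ℝ => 1 / ((q : ℝ) ^ 2 * y)) (𝓝[>] 0) atTop := by
    have h3 : Tendsto (fun y : ℝ => y⁻¹) (𝓝[>] 0) atTop := tendsto_inv_nhdsGT_zero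
    have h4 : Tendsto (fun y : ℝ => ((q : ℝ) ^ 2)⁻¹ * y⁻¹) (𝓝[>] 0) atTop :=
      h3.const_mul_atTop (by positivity)
    refine h4.congr fun y => ?_
    rw [one_div, mul_inv]
  refine (h1.comp h2).congr' ?_
  filter_upwards [self_mem_nhdsWithin] with y hy
  have hy0 : (0 : ℝ) < y := hy
  have hyC : (y : ℂ) ≠ 0 := by exact_mod_cast hy0.ne'
  simp only [Function.comp_apply]
  have him : 0 < (((-(u : ℝ) / q : ℝ) : ℂ) + ((1 / ((q : ℝ) ^ 2 * y) : ℝ) : ℂ) * I).im := by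
    rw [line_im]
    positivity
  rw [← hz _ him]
  congr 1
  unfold mob den
  rw [g00, g01, g10, g11]
  have huvC : (u : ℂ) * a + v * q = 1 := by exact_mod_cast huv
  have e1 : (q : ℂ) * (((-(u : ℝ) / q : ℝ) : ℂ) + ((1 / ((q : ℝ) ^ 2 * y) : ℝ) : ℂ) * I) + u =
      I / (q * y) := by
    push_cast
    field_simp
    ring
  rw [e1, div_eq_iff (div_ne_zero I_ne_zero (mul_ne_zero hqC hyC))]
  push_cast
  field_simp
  have hI : I ^ 2 = -1 := I_sq
  linear_combination (-(y : ℂ) * q) * huvC + (-(y : ℂ) * q) * hI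

end Pool.Agent.Y683.CG
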