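import Pool.Agent.Y683.CG.Fil2
import Pool.Agent.Y683.CG.Comb

/-!
# Infinite towers of characters at which a sequence of character sums does not vanish
-/

set_option autoImplicit false

namespace Pool.Agent.Y683.CG

open Finset

variable {X U : Type} [CommGroup X]

lemma PD.cod {A : Type} [AddCommGroup A] [Module ℤ A] (A' : Submodule ℤ A) (n : ℕ) :
    ∀ (g : X → A) (h : ∀ χ, g χ ∈ A'), PD n g → PD n (fun χ => (⟨g χ, h χ⟩ : A')) := by
  induction n with
  | zero =>
    intro g h hg κ χ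
    exact Subtype.ext (hg κ χ)
  | succ n ih =>
    intro g h hg κ
    exact ih (fun χ => g (κ * χ) - g χ) (fun χ => A'.sub_mem (h _) (h _)) (hg κ)

variable {Λ : Submodule ℤ ℂ} {𝔪 : Ideal (integralClosure ℤ ℂ)} {Fil : ℕ → Submodule ℤ ℂ}

lemma FilX.le (hF : FilX Λ 𝔪 Fil) {n k : ℕ} (h : n ≤ k) {x : ℂ} (hx : x ∈ Fil k) : x ∈ Fil n := by
  induction k, h using Nat.le_induction with
  | base => exact hx
  | succ k _ ih => exact ih (hF.anti k x hx)

/-- character sums are polynomial maps -/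
lemma pd_sum {e : ℕ} (hF : FilX Λ 𝔪 Fil) (hroot : ∀ ζ : ℂ, ζ ^ e = 1 → ζ ∈ mulR Λ ∧
      ∃ y : integralClosure ℤ ℂ, (y : ℂ) = ζ - 1 ∧ y ∈ 𝔪) (hX : ∀ χ : X, χ ^ e = 1)
    {s : Finset U} {ev : U → X → ℂ} (h : EvD s ev) (M : ℕ) (n : ℕ) :
    ∀ k : ℕ, M ≤ k + n + 1 → ∀ w : U → ℂ, (∀ u ∈ s, w u ∈ Fil k) →
      PD n (fun χ : X => (Fil M).mkQ (∑ u ∈ s, w u * ev u χ)) := by
  have hev : ∀ u ∈ s, ∀ χ : X, ev u χ ^ e = 1 := by
    intro u hu χ
    rw [← h.pow hu, hX, h.one u hu]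
  have hstep : ∀ k : ℕ, ∀ w : U → ℂ, (∀ u ∈ s, w u ∈ Fil k) → ∀ κ : X, ∀ u ∈ s,
      w u * (ev u κ - 1) ∈ Fil (k + 1) := by
    intro k w hw κ u hu
    obtain ⟨h1, h2⟩ := hroot _ (hev u hu κ)
    rw [mul_comm]
    exact hF.step k _ (hw u hu) _ (Subalgebra.sub_mem _ h1 (Subalgebra.one_mem _)) h2
  have hdiff : ∀ w : U → ℂ, ∀ κ χ : X, (∑ u ∈ s, w u * ev u (κ * χ)) - ∑ u ∈ s, w u * ev u χ =
      ∑ u ∈ s, (w u * (ev u κ - 1)) * ev u χ := by
    intro w κ χ
    rw [← sum_sub_distrib]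
    refine sum_congr rfl fun u hu => ?_
    rw [h.mul u hu]
    ring
  induction n with
  | zero =>
    intro k hk w hw κ χ
    rw [← sub_eq_zero, ← map_sub, hdiff, Submodule.mkQ_apply, Submodule.Quotient.mk_eq_zero]
    refine Submodule.sum_mem _ fun u hu => ?_
    rw [mul_comm]
    exact hF.mul M _ (hroot _ (hev u hu χ)).1 _ (hF.le (by omega) (hstep k w hw κ u hu))
  | succ n ih =>
    intro k hk w hw κ
    have h1 := ih (k + 1) (by omega) (fun u => w u * (ev u κ - 1)) (hstep k w hw κ)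
    have h2 : (fun χ : X => (Fil M).mkQ (∑ u ∈ s, w u * (ev u κ - 1) * ev u χ)) =
        fun χ : X => (Fil M).mkQ (∑ u ∈ s, w u * ev u (κ * χ)) -
          (Fil M).mkQ (∑ u ∈ s, w u * ev u χ) := by
      funext χ
      rw [← map_sub, hdiff]
    rw [h2] at h1
    exact h1

theorem tower {e : ℕ} (he : 0 < e) (hF : FilX Λ 𝔪 Fil) (hroot : ∀ ζ : ℂ, ζ ^ e = 1 → ζ ∈ mulR Λ ∧
      ∃ y : integralClosure ℤ ℂ, (y : ℂ) = ζ - 1 ∧ y ∈ 𝔪) (hX : ∀ χ : X, χ ^ e = 1)
    (s : Finset ℕ → Finset U) (ev : Finset ℕ → U → X → ℂ) (w : Finset ℕ → U → ℂ)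
    (h : ∀ T, EvD (s T) (ev T)) (S : X → Finset ℕ) (hS1 : S 1 = ∅)
    (hSm : ∀ χ φ, S (χ * φ) ⊆ S χ ∪ S φ) (A : Finset ℕ → Prop)
    (hA : ∀ T T', A T → A T' → A (T ∪ T')) (hA0 : A ∅)
    (hw : ∀ T, A T → ∀ u ∈ s T, w T u ∈ Λ) (n0 : ℕ)
    (hmono : ∀ T T', A T → A T' → T ⊆ T' → ∀ χ : X, S χ ⊆ T →
      (∑ u ∈ s T, w T u * ev T u χ) - ∑ u ∈ s T, w T u ∈ Fil (n0 + 1) →
      (∑ u ∈ s T', w T' u * ev T' u χ) - ∑ u ∈ s T', w T' u ∈ Fil (n0 + 1)) :
    ∃ L : ℕ → ℕ, ∀ φ : ℕ → X, (∀ j, A (S (φ j))) → ∃ B : ℕ → Finset ℕ,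
      (∀ k, (B k).Nonempty ∧ B k ⊆ Ico (L k) (L (k + 1))) ∧
      ∀ (N : ℕ) (t : ℕ → ℕ), ∃ T, A T ∧ S (∏ i ∈ range N, (∏ k ∈ B i, φ k) ^ t i) ⊆ T ∧
        (∑ u ∈ s T, w T u * ev T u (∏ i ∈ range N, (∏ k ∈ B i, φ k) ^ t i)) -
          ∑ u ∈ s T, w T u ∈ Fil (n0 + 1) := by
  classical
  have hfin : Finite (Λ.map (Fil (n0 + 1)).mkQ) := hF.fin (n0 + 1)
  choose Lc hLc using fun k : ℕ =>
    comb he n0 ((Fin k → Fin e) → ↥(Λ.map (Fil (n0 + 1)).mkQ))
  set L : ℕ → ℕ := fun k => ∑ i ∈ range k, Lc i with hL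
  have hL1 : ∀ k, L (k + 1) = L k + Lc k := fun k => sum_range_succ _ _
  refine ⟨L, fun φ hφ => ?_⟩
  set TT : ℕ → Finset ℕ := fun N => (range (L N)).biUnion (fun j => S (φ j)) with hTT
  have hATT : ∀ R : Finset ℕ, A (R.biUnion fun j => S (φ j)) := by
    intro R
    induction R using Finset.induction_on with
    | empty => rw [biUnion_empty]; exact hA0
    | insert a R ha ih =>
      rw [biUnion_insert]
      exact hA _ _ (hφ a) ih
  have hSprod : ∀ R : Finset ℕ, S (∏ k ∈ R, φ k) ⊆ R.biUnion fun j => S (φ j) := by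
    intro R
    induction R using Finset.induction_on with
    | empty => rw [prod_empty, hS1]; exact empty_subset _
    | insert a R ha ih =>
      rw [biUnion_insert, prod_insert ha]
      exact (hSm _ _).trans (union_subset_union_right ih)
  have hSpow : ∀ χ : X, ∀ j : ℕ, S (χ ^ j) ⊆ S χ := by
    intro χ j
    induction j with
    | zero => rw [pow_zero, hS1]; exact empty_subset _
    | succ j ih =>
      rw [pow_succ]
      exact (hSm _ _).trans (union_subset ih (Subset.refl _))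
  have hLmono : ∀ i j, i ≤ j → L i ≤ L j := by
    intro i j hij
    exact sum_le_sum_of_subset (range_subset_range.2 hij)
  have hSall : ∀ N : ℕ, ∀ v : ℕ → Finset ℕ, (∀ i < N, v i ⊆ Ico (L i) (L (i + 1))) → ∀ t : ℕ → ℕ,
      S (∏ i ∈ range N, (∏ k ∈ v i, φ k) ^ t i) ⊆ TT N := by
    intro N v hv t
    have h1 : ∀ R : Finset ℕ, R ⊆ range N →
        S (∏ i ∈ R, (∏ k ∈ v i, φ k) ^ t i) ⊆ TT N := by
      intro R
      induction R using Finset.induction_on with
      | empty => intro _; rw [prod_empty, hS1]; exact empty_subset _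
      | insert a R ha ih =>
        intro hR
        rw [prod_insert ha]
        refine (hSm _ _).trans (union_subset ?_ (ih ((subset_insert a R).trans hR)))
        refine (hSpow _ _).trans ((hSprod _).trans ?_)
        refine biUnion_subset_biUnion_of_subset_left _ fun k hk => ?_
        have haN := mem_range.1 (hR (mem_insert_self a R))
        have h2 := mem_Ico.1 (hv a haN hk)
        have h3 := hLmono (a + 1) N (by omega)
        exact mem_range.2 (by omega)
    exact h1 _ (Subset.refl _)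
  -- the values
  have hval : ∀ T, A T → ∀ χ : X, (Fil (n0 + 1)).mkQ (∑ u ∈ s T, w T u * ev T u χ) ∈
      Λ.map (Fil (n0 + 1)).mkQ := by
    intro T hT χ
    refine Submodule.mem_map_of_mem (Submodule.sum_mem _ fun u hu => ?_)
    rw [mul_comm]
    have hev : ev T u χ ^ e = 1 := by rw [← (h T).pow hu, hX, (h T).one u hu]
    exact (hroot _ hev).1 _ (hw T hT u hu)
  -- the property of the blocks
  set Good : ℕ → (ℕ → Finset ℕ) → Prop := fun N v =>
    (∀ i < N, (v i).Nonempty ∧ v i ⊆ Ico (L i) (L (i + 1))) ∧ ∀ t : ℕ → ℕ,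
      (∑ u ∈ s (TT N), w (TT N) u * ev (TT N) u (∏ i ∈ range N, (∏ k ∈ v i, φ k) ^ t i)) -
        ∑ u ∈ s (TT N), w (TT N) u ∈ Fil (n0 + 1) with hGood
  have hG0 : Good 0 (fun _ => ∅) := by
    refine ⟨fun i hi => absurd hi (Nat.not_lt_zero i), fun t => ?_⟩
    rw [range_zero, prod_empty, ← sum_sub_distrib]
    refine Submodule.sum_mem _ fun u hu => ?_
    rw [(h _).one u hu, mul_one, sub_self]
    exact Submodule.zero_mem _
  have hstep : ∀ N v, Good N v → ∃ v', Good (N + 1) v' ∧ ∀ i < N, v' i = v i := by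
    intro N v hv
    obtain ⟨hv1, hv2⟩ := hv
    have hT1 := hATT (range (L N))
    have hT2 := hATT (range (L (N + 1)))
    have hT12 : TT N ⊆ TT (N + 1) :=
      biUnion_subset_biUnion_of_subset_left _ (range_subset_range.2 (hLmono _ _ (Nat.le_succ N)))
    set T := TT (N + 1) with hT
    have hpd := PD.cod (Λ.map (Fil (n0 + 1)).mkQ) n0 _ (hval T hT2)
      (pd_sum hF hroot hX (h T) (n0 + 1) n0 0 (by omega) (w T)
        fun u hu => (hF.zero _).2 (hw T hT2 u hu))
    obtain ⟨B, hB1, hB2, hB3⟩ := hLc N X (fun i => φ (L N + i)) (fun i => hX _)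
      (fun χ t => (⟨_, hval T hT2 ((∏ i : Fin N, (∏ k ∈ v i, φ k) ^ (t i : ℕ)) * χ)⟩ :
        ↥(Λ.map (Fil (n0 + 1)).mkQ)))
      (PD.pi n0 _ fun t => PD.shift n0 _ hpd _)
    set W : Finset ℕ := B.map (addLeftEmbedding (L N)) with hW
    have hWprod : ∏ k ∈ W, φ k = ∏ i ∈ B, φ (L N + i) := by
      rw [hW, prod_map]
      rfl
    have hψ : ∀ i < N, (∏ k ∈ v i, φ k) ^ e = 1 := fun i _ => hX _
    have hlt : ∀ i ∈ range N, Function.update v N W i = v i := by
      intro i hi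
      rw [Function.update_of_ne]
      have := mem_range.1 hi
      omega
    refine ⟨Function.update v N W, ⟨fun i hi => ?_, fun t => ?_⟩, fun i hi =>
      hlt i (mem_range.2 hi)⟩
    · by_cases hiN : i = N
      · subst hiN
        rw [Function.update_self]
        refine ⟨hB2.map, fun k hk => ?_⟩
        obtain ⟨b, hb, rfl⟩ := mem_map.1 hk
        have h1 := mem_range.1 (hB1 hb)
        rw [mem_Ico, hL1]
        simp only [addLeftEmbedding_apply]
        omega
      · rw [Function.update_of_ne hiN]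
        exact hv1 i (by omega)
    · rw [prod_range_succ, Function.update_self,
        prod_congr rfl (g := fun i => (∏ k ∈ v i, φ k) ^ t i) (fun i hi => by rw [hlt i hi])]
      have h1 := congrFun (hB3 (t N)) (fun i : Fin N => ⟨t i % e, Nat.mod_lt _ he⟩)
      have h2 := mod_prod he hψ t
      have h3 := congrArg Subtype.val h1
      simp only [mul_one] at h3
      rw [← h2, ← hWprod] at h3
      have h4 := (Submodule.Quotient.eq _).1 h3
      have h5 := hmono (TT N) T hT1 hT2 hT12 _ (hSall N v (fun i hi => (hv1 i hi).2) t) (hv2 t)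
      have h6 := Submodule.add_mem _ h4 h5
      rw [sub_add_sub_cancel] at h6
      exact h6
  -- the sequence of blocks
  choose! nx hnx1 hnx2 using hstep
  let st : ℕ → (ℕ → Finset ℕ) := fun N => Nat.rec (fun _ => ∅) (fun N v => nx N v) N
  have hst0 : st 0 = fun _ => ∅ := rfl
  have hst1 : ∀ N, st (N + 1) = nx N (st N) := fun N => rfl
  have hstG : ∀ N, Good N (st N) := by
    intro N
    induction N with
    | zero => exact hG0
    | succ N ih =>
      rw [hst1]
      exact hnx1 N _ ih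
  have hcoh : ∀ N i, i < N → st N i = st (i + 1) i := by
    intro N
    induction N with
    | zero => intro i hi; exact absurd hi (Nat.not_lt_zero i)
    | succ N ih =>
      intro i hi
      by_cases h1 : i = N
      · rw [h1]
      · rw [hst1, hnx2 N _ (hstG N) i (by omega)]
        exact ih i (by omega)
  refine ⟨fun i => st (i + 1) i, fun k => (hstG (k + 1)).1 k (Nat.lt_succ_self k), fun N t => ?_⟩
  have h1 : ∏ i ∈ range N, (∏ k ∈ st (i + 1) i, φ k) ^ t i =
      ∏ i ∈ range N, (∏ k ∈ st N i, φ k) ^ t i :=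
    prod_congr rfl fun i hi => by rw [hcoh N i (mem_range.1 hi)]
  refine ⟨TT N, hATT _, ?_, ?_⟩
  · rw [h1]
    exact hSall N _ (fun i hi => ((hstG N).1 i hi).2) t
  · rw [h1]
    exact (hstG N).2 t

end Pool.Agent.Y683.CG
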