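import Pool.Agent.Y683.CG.TowerM
import Pool.Agent.Y683.CG.GSeq

/-!
# Infinite towers of characters: nonvanishing central values
-/

set_option autoImplicit false

namespace Pool.Agent.Y683.CG

open Complex Filter Topology Set ZMod
open UpperHalfPlane hiding I
open scoped MatrixGroups
open CongruenceSubgroup
open Pool.Agent.W192.CY
open Pool.Agent.Y683.MS
open Pool.Agent.Y683.NF

/-- the conclusions, `P` the admissible families, `NV` the nonvanishing -/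
def Towers (e : ℕ) (P NV : Fam → Prop) : Prop :=
  ∃ Lk : ℕ → ℕ,
    (∀ φ : ℕ → Fam, (∀ j, P (φ j)) → ∃ B : ℕ → Finset ℕ,
      (∀ k, (B k).Nonempty ∧ B k ⊆ Finset.Ico (Lk k) (Lk (k + 1))) ∧
      ∀ ψ ∈ Subgroup.closure (Set.range fun k => ∏ j ∈ B k, φ j), NV ψ) ∧
    (∀ H : Subgroup Fam, (∀ χ ∈ H, P χ) →
      (Infinite H → ∃ H₀ ≤ H, Infinite H₀ ∧ ∀ ψ ∈ H₀, NV ψ) ∧
      ∀ t : ℕ, e ^ Lk t < Nat.card H → ∃ H₀ ≤ H, t ≤ Nat.card H₀ ∧ ∀ ψ ∈ H₀, NV ψ)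

lemma towers_of {e : ℕ} (he : 0 < e) {P NV : Fam → Prop} (hP : ∀ χ, P χ → χ ^ e = 1)
    (h : ∃ Lk : ℕ → ℕ, ∀ φ : ℕ → Fam, (∀ j, P (φ j)) → ∃ B : ℕ → Finset ℕ,
      (∀ k, (B k).Nonempty ∧ B k ⊆ Finset.Ico (Lk k) (Lk (k + 1))) ∧
      ∀ ψ ∈ Subgroup.closure (Set.range fun k => ∏ j ∈ B k, φ j), NV ψ) : Towers e P NV := by
  obtain ⟨Lk, hL⟩ := h
  refine ⟨Lk, hL, fun H hH => ?_⟩
  obtain ⟨φ, h1, h2⟩ := sub_exists he Lk H fun χ hχ => hP χ (hH χ hχ)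
  obtain ⟨B, hB1, hB2⟩ := hL φ fun j => hH _ (h1 j)
  obtain ⟨h3, h4, h5⟩ := h2 B hB1
  exact ⟨fun hinf => ⟨_, h3, h4 hinf, hB2⟩, fun t ht => ⟨_, h3, h5 t ht, hB2⟩⟩

theorem towerA {r : ℕ} {m N : Fin r → ℕ} [∀ i, NeZero (N i)] (hm : ∀ i, 1 ≤ m i)
    {η : (i : Fin r) → DirichletCharacter ℂ (N i)}
    {f : (i : Fin r) → CuspForm (Gamma1 (N i) : Subgroup (GL (Fin 2) ℝ)) (2 * m i : ℤ)}
    {w : Fin r → ℂ} (hf : ∀ i, NNewf (m i) (N i) (η i) (f i) (w i)) {l : ℕ} (hl : l.Prime)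
    (𝔪 : Ideal (integralClosure ℤ ℂ)) (hmax : 𝔪.IsMaximal) (hlm : (l : integralClosure ℤ ℂ) ∈ 𝔪)
    {c : Fin r → ℕ} (hc : ∀ i, 1 ≤ c i) (χ₀ : (i : Fin r) → DirichletCharacter ℂ (c i))
    (h0 : ∀ i, (χ₀ i).IsPrimitive) (hcN : ∀ i, Nat.Coprime (c i) (N i))
    (hbase : ∀ i, NVC (η i) (f i) (vals (χ₀ i) 1)) (b : ℕ) :
    Towers (l ^ b) (fun χ : Fam => χ ^ (l ^ b) = 1 ∧ {q | χ q ≠ 1}.Finite ∧
      ∀ q, χ q ≠ 1 → q.Prime ∧ ∀ i, ¬ q ∣ N i ∧ ¬ q ∣ c i ∧ ∃ x : integralClosure ℤ ℂ, x ∉ 𝔪 ∧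
        (x : ℂ) = cf (f i) q - η i (q : ZMod (N i)) * χ₀ i (q : ZMod (c i)) -
          (χ₀ i (q : ZMod (c i)))⁻¹)
      (fun ψ => ∀ i, NVC (η i) (f i) (vals (χ₀ i) ψ)) := by
  classical
  have hcne : ∀ i, NeZero (c i) := fun i => ⟨by have := hc i; omega⟩
  set n : ℕ := l ^ b * ∏ i, (Nat.totient (c i) * Nat.totient (N i)) with hn
  have hn0 : 0 < n := by
    refine Nat.mul_pos (pow_pos hl.pos b) (Finset.prod_pos fun i _ => ?_)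
    exact Nat.mul_pos (Nat.totient_pos.2 (hc i))
      (Nat.totient_pos.2 (Nat.pos_of_ne_zero (NeZero.ne (N i))))
  have hdiv : ∀ i, Nat.totient (c i) * Nat.totient (N i) ∣ n := fun i =>
    (Finset.dvd_prod_of_mem (fun i => Nat.totient (c i) * Nat.totient (N i))
      (Finset.mem_univ i)).trans (dvd_mul_left _ _)
  refine towers_of (pow_pos hl.pos b) (fun χ h => h.1) ?_
  obtain ⟨Lk, hLk⟩ := abs_tower (m := m) (κ := fun i => kp (m i) (f i)) (cc := fun i => cf (f i))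
    (e := fun i p => η i (p : ZMod (N i))) (b := b) hl 𝔪 hmax hlm hn0 (dvd_mul_right _ _)
    (fun i => (dvd_mul_right _ _).trans (hdiv i)) χ₀ h0 (fun i => ksy (hm i) (hf i))
    (fun i => LP (f i) (2 * m i - 2)) (fun i => LP_fg (f i) _)
    (fun i q hq a => (kp_lim (f i) (hm i) hq a).2) (fun i => by
      have h1 : vals (χ₀ i) 1 = fun n : ℕ => χ₀ i (n : ZMod (c i)) := by
        funext n
        rw [vals_eq (χ₀ i) 1 ∅ (fun q => ⟨fun h => absurd h (Finset.notMem_empty q),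
          fun h => absurd rfl h⟩), Finset.prod_empty, mul_one]
      have h2 := hbase i
      rw [h1] at h2
      have h3 := (nonvan_iff (hm i) (hf i) (hcN i) (χ₀ i) (h0 i)).1 h2
      unfold lw
      rw [Finset.prod_empty, mul_one]
      simp only [Finset.prod_empty, mul_one]
      exact h3)
  have hadm : ∀ χ : Fam, (χ ^ (l ^ b) = 1 ∧ {q | χ q ≠ 1}.Finite ∧
      ∀ q, χ q ≠ 1 → q.Prime ∧ ∀ i, ¬ q ∣ N i ∧ ¬ q ∣ c i ∧ ∃ x : integralClosure ℤ ℂ, x ∉ 𝔪 ∧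
        (x : ℂ) = cf (f i) q - η i (q : ZMod (N i)) * χ₀ i (q : ZMod (c i)) -
          (χ₀ i (q : ZMod (c i)))⁻¹) → χ ^ (l ^ b) = 1 ∧ ∃ S : Finset ℕ,
      (∀ q, q ∈ S ↔ χ q ≠ 1) ∧ Adm l 𝔪 n χ₀ (fun i => cf (f i))
        (fun i p => η i (p : ZMod (N i))) S := by
    rintro χ ⟨h1, h2, h3⟩
    refine ⟨h1, h2.toFinset, fun q => by rw [Set.Finite.mem_toFinset]; rfl, ?_⟩
    intro q hq
    rw [Set.Finite.mem_toFinset] at hq
    obtain ⟨h4, h5⟩ := h3 q hq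
    have h6 : (χ q) ^ (l ^ b) = 1 := congrFun h1 q
    refine ⟨h4, (dvd_of_ord hl h4 (χ q) hq h6).1, fun i => ?_⟩
    obtain ⟨h7, h8, h9⟩ := h5 i
    refine ⟨(Nat.Prime.coprime_iff_not_dvd h4).2 h8, ?_, h9⟩
    exact dc_root ((dvd_mul_left _ _).trans (hdiv i)) (η i)
      ((Nat.Prime.coprime_iff_not_dvd h4).2 h7)
  refine ⟨Lk, fun φ hφ => ?_⟩
  obtain ⟨B, hB1, hB2⟩ := hLk φ fun j => hadm _ (hφ j)
  refine ⟨B, hB1, fun ψ hψ i => ?_⟩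
  obtain ⟨S, hS, hA, hnv⟩ := hB2 ψ hψ
  obtain ⟨E, hE, hEv⟩ := fam_prim (χ₀ i) (h0 i) ψ S fun q hq =>
    ⟨(hA q hq).1, ((hA q hq).2.2 i).1, (hS q).1 hq⟩
  have hMne : NeZero (c i * ∏ q ∈ S, q) := ⟨mul_ne_zero (NeZero.ne (c i))
    (Finset.prod_ne_zero_iff.2 fun q hq => (hA q hq).1.ne_zero)⟩
  -- the primes in the support of `ψ` do not divide the levels
  have hsup : ∀ q, ψ q ≠ 1 → ¬ q ∣ N i := by
    intro q hq
    have h1 : ∃ j, φ j q ≠ 1 := by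
      by_contra hcon
      push Not at hcon
      apply hq
      have h2 : ∀ x ∈ Subgroup.closure (Set.range fun k => ∏ j ∈ B k, φ j), x q = 1 := by
        intro x hx
        refine Subgroup.closure_induction (p := fun x _ => x q = 1) ?_ ?_ ?_ ?_ hx
        · rintro _ ⟨k, rfl⟩
          beta_reduce
          rw [Finset.prod_apply]
          exact Finset.prod_eq_one fun j _ => hcon j
        · rfl
        · intro x y _ _ h3 h4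
          rw [Pi.mul_apply, h3, h4, one_mul]
        · intro x _ h3
          rw [Pi.inv_apply, h3, inv_one]
      exact h2 ψ hψ
    obtain ⟨j, hj⟩ := h1
    exact (((hφ j).2.2 q hj).2 i).1
  have hMN : Nat.Coprime (c i * ∏ q ∈ S, q) (N i) := by
    refine Nat.Coprime.mul_left (hcN i) (Nat.Coprime.prod_left fun q hq => ?_)
    exact (Nat.Prime.coprime_iff_not_dvd (hA q hq).1).2 (hsup q ((hS q).1 hq))
  have h4 : vals (χ₀ i) ψ = fun n : ℕ => E (n : ZMod (c i * ∏ q ∈ S, q)) := by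
    funext n
    rw [vals_eq (χ₀ i) ψ S hS, hEv]
  rw [h4, nonvan_iff (hm i) (hf i) hMN E hE]
  have h5 := hnv i
  unfold lw at h5
  simp only [← hEv] at h5
  exact h5

lemma Towers.mono {e : ℕ} {P P' NV : Fam → Prop} (h : ∀ χ, P' χ → P χ) (hT : Towers e P NV) :
    Towers e P' NV := by
  obtain ⟨Lk, h1, h2⟩ := hT
  exact ⟨Lk, fun φ hφ => h1 φ fun j => h _ (hφ j), fun H hH => h2 H fun χ hχ => h _ (hH χ hχ)⟩

theorem towerB {r : ℕ} {m N : Fin r → ℕ} [∀ i, NeZero (N i)] (hm : ∀ i, 1 ≤ m i)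
    {η : (i : Fin r) → DirichletCharacter ℂ (N i)}
    {f : (i : Fin r) → CuspForm (Gamma1 (N i) : Subgroup (GL (Fin 2) ℝ)) (2 * m i : ℤ)}
    {w : Fin r → ℂ} (hf : ∀ i, NNewf (m i) (N i) (η i) (f i) (w i)) {l : ℕ} (hl : l.Prime)
    (𝔪 : Ideal (integralClosure ℤ ℂ)) (hmax : 𝔪.IsMaximal) (hlm : (l : integralClosure ℤ ℂ) ∈ 𝔪)
    (hlN : ∀ i, ¬ l ∣ N i) : ∃ (k a : ℕ) (χ₀ : DirichletCharacter ℂ (l ^ k)), χ₀.IsPrimitive ∧
      χ₀ ^ (l ^ a) = 1 ∧ ∀ b : ℕ,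
    Towers (l ^ b) (fun χ : Fam => χ ^ (l ^ b) = 1 ∧ {q | χ q ≠ 1}.Finite ∧
      ∀ q, χ q ≠ 1 → q.Prime ∧ ∀ i, ¬ q ∣ N i ∧ ∃ x : integralClosure ℤ ℂ, x ∉ 𝔪 ∧
        (x : ℂ) = cf (f i) q - 1 - η i (q : ZMod (N i)))
      (fun ψ => ∀ i, NVC (η i) (f i) (vals χ₀ ψ)) := by
  obtain ⟨k, a, χ₀, hχ, ha, hnv⟩ := base_exists hm hf hl hlN
  refine ⟨k, a, χ₀, hχ, ha, fun b => ?_⟩
  have hne : NeZero (l ^ k) := ⟨(pow_pos hl.pos _).ne'⟩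
  refine Towers.mono ?_ (towerA hm hf hl 𝔪 hmax hlm (c := fun _ => l ^ k)
    (fun _ => Nat.one_le_iff_ne_zero.2 (pow_pos hl.pos _).ne') (fun _ => χ₀) (fun _ => hχ)
    (fun i => Nat.Coprime.pow_left _ ((Nat.Prime.coprime_iff_not_dvd hl).2 (hlN i))) hnv b)
  rintro χ ⟨h1, h2, h3⟩
  refine ⟨h1, h2, fun q hq => ?_⟩
  obtain ⟨h4, h5⟩ := h3 q hq
  refine ⟨h4, fun i => ?_⟩
  obtain ⟨h6, x, hx, hxe⟩ := h5 i
  have h7 := (dvd_of_ord hl h4 (χ q) hq (congrFun h1 q)).2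
  have h8 : Nat.Coprime q (l ^ k) :=
    Nat.Coprime.pow_right _ ((Nat.coprime_primes h4 hl).2 h7)
  refine ⟨h6, fun h9 => ?_, ?_⟩
  · exact h7 ((Nat.prime_dvd_prime_iff_eq h4 hl).1 (h4.dvd_of_dvd_pow h9))
  · -- the values of `χ₀` are one modulo `𝔪`
    have hu : IsUnit (q : ZMod (l ^ k)) := (ZMod.isUnit_iff_coprime q _).2 h8
    set ζ : ℂ := χ₀ (q : ZMod (l ^ k)) with hζ
    have hζa : ζ ^ (l ^ a) = 1 := by
      have h9 : (χ₀ ^ (l ^ a)) (q : ZMod (l ^ k)) =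
          (1 : DirichletCharacter ℂ (l ^ k)) (q : ZMod (l ^ k)) := by rw [ha]
      rw [MulChar.pow_apply' _ (pow_pos hl.pos a).ne', MulChar.one_apply hu] at h9
      exact h9
    have hint : ∀ ξ : ℂ, ∀ n : ℕ, 0 < n → ξ ^ n = 1 → ξ ∈ integralClosure ℤ ℂ := by
      intro ξ n hn hξ
      refine IsIntegral.of_pow hn ?_
      rw [hξ]
      exact isIntegral_one
    have hla : 0 < l ^ a := pow_pos hl.pos a
    have hζi : (ζ⁻¹) ^ (l ^ a) = 1 := by rw [inv_pow, hζa, inv_one]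
    set z : integralClosure ℤ ℂ := ⟨ζ, hint _ _ hla hζa⟩ with hz
    set z' : integralClosure ℤ ℂ := ⟨ζ⁻¹, hint _ _ hla hζi⟩ with hz'
    have hη : η i (q : ZMod (N i)) ^ (Nat.totient (N i)) = 1 :=
      dc_root (dvd_refl _) (η i) ((Nat.Prime.coprime_iff_not_dvd h4).2 h6)
    set e : integralClosure ℤ ℂ := ⟨η i (q : ZMod (N i)), hint _ _
      (Nat.totient_pos.2 (Nat.pos_of_ne_zero (NeZero.ne (N i)))) hη⟩ with he
    have m1 : 1 - z ∈ 𝔪 := one_sub_mem hl 𝔪 hmax hlm (a := a) (Subtype.ext hζa)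
    have m2 : 1 - z' ∈ 𝔪 := one_sub_mem hl 𝔪 hmax hlm (a := a) (Subtype.ext hζi)
    refine ⟨x + (e * (1 - z) + (1 - z')), fun hmem => hx ?_, ?_⟩
    · exact (Ideal.add_mem_iff_left _ (Ideal.add_mem _ (Ideal.mul_mem_left _ e m1) m2)).1 hmem
    · push_cast
      rw [hxe, hz, hz', he]
      ring

end Pool.Agent.Y683.CG
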