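import Pool.Agent.Y683.CG.Tower
import Pool.Agent.Y683.CG.PartB

/-!
# Infinite towers of characters: character sums of modular symbols
-/

set_option autoImplicit false

namespace Pool.Agent.Y683.CG

open Finset

lemma closure_form {X : Type} [CommGroup X] {e : ℕ} (he : 0 < e) {ψ : ℕ → X}
    (hψ : ∀ k, ψ k ^ e = 1) {x : X} (hx : x ∈ Subgroup.closure (Set.range ψ)) :
    ∃ (N : ℕ) (t : ℕ → ℕ), ∀ N' : ℕ, N ≤ N' → x = ∏ i ∈ range N', ψ i ^ t i := by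
  refine Subgroup.closure_induction (p := fun x _ => ∃ (N : ℕ) (t : ℕ → ℕ), ∀ N' : ℕ, N ≤ N' →
    x = ∏ i ∈ range N', ψ i ^ t i) ?_ ?_ ?_ ?_ hx
  · rintro _ ⟨k, rfl⟩
    refine ⟨k + 1, fun i => if i = k then 1 else 0, fun N' hN' => ?_⟩
    rw [prod_eq_single k]
    · beta_reduce
      rw [if_pos rfl, pow_one]
    · intro i _ hik
      beta_reduce
      rw [if_neg hik, pow_zero]
    · intro hk
      exact absurd (mem_range.2 (by omega)) hk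
  · refine ⟨0, fun _ => 0, fun N' _ => ?_⟩
    rw [prod_eq_one fun i _ => pow_zero _]
  · rintro x y _ _ ⟨N1, t1, h1⟩ ⟨N2, t2, h2⟩
    refine ⟨max N1 N2, fun i => t1 i + t2 i, fun N' hN' => ?_⟩
    rw [h1 N' (le_of_max_le_left hN'), h2 N' (le_of_max_le_right hN'), ← prod_mul_distrib]
    exact prod_congr rfl fun i _ => (pow_add _ _ _).symm
  · rintro x _ ⟨N, t, h⟩
    refine ⟨N, fun i => t i * (e - 1), fun N' hN' => ?_⟩
    rw [h N' hN', inv_eq_iff_mul_eq_one, ← prod_mul_distrib]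
    refine prod_eq_one fun i _ => ?_
    rw [← pow_add, show t i + t i * (e - 1) = e * t i by
      obtain ⟨d, rfl⟩ : ∃ d, e = d + 1 := ⟨e - 1, by omega⟩
      rw [Nat.add_sub_cancel]
      ring, pow_mul, hψ, one_pow]

/-- the group of the families of exponent `e` -/
def XE (e : ℕ) : Subgroup Fam where
  carrier := {χ | χ ^ e = 1 ∧ {q | χ q ≠ 1}.Finite}
  one_mem' := by
    refine ⟨one_pow e, ?_⟩
    have : {q | (1 : Fam) q ≠ 1} = ∅ := by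
      ext q
      simp
    rw [this]
    exact Set.finite_empty
  mul_mem' := by
    rintro a b ⟨ha, ha'⟩ ⟨hb, hb'⟩
    refine ⟨by rw [mul_pow, ha, hb, one_mul], (ha'.union hb').subset ?_⟩
    intro q hq
    by_contra hcon
    rw [Set.mem_union, not_or] at hcon
    have h1 : a q = 1 := not_not.1 hcon.1
    have h2 : b q = 1 := not_not.1 hcon.2
    apply hq
    rw [Pi.mul_apply, h1, h2, one_mul]
  inv_mem' := by
    rintro a ⟨ha, ha'⟩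
    refine ⟨by rw [inv_pow, ha, inv_one], ha'.subset ?_⟩
    intro q hq h
    apply hq
    rw [Pi.inv_apply, h, inv_one]

/-- the support -/
noncomputable def sup {e : ℕ} (χ : XE e) : Finset ℕ := χ.2.2.toFinset

lemma mem_sup {e : ℕ} (χ : XE e) (q : ℕ) : q ∈ sup χ ↔ (χ : Fam) q ≠ 1 := by
  unfold sup
  rw [Set.Finite.mem_toFinset]
  rfl

section
variable {r : ℕ} {m c : Fin r → ℕ} [∀ i, NeZero (c i)] {κ : Fin r → ℕ → ℤ → ℂ}
  {cc e : Fin r → ℕ → ℂ}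

omit [∀ i, NeZero (c i)] in
lemma Adm.mono {l n : ℕ} {𝔪 : Ideal (integralClosure ℤ ℂ)}
    {χ₀ : (i : Fin r) → DirichletCharacter ℂ (c i)} {S T : Finset ℕ} (h : S ⊆ T)
    (hT : Adm l 𝔪 n χ₀ cc e T) : Adm l 𝔪 n χ₀ cc e S := fun q hq => hT q (h hq)

/-- pairs of congruent multipliers -/
def Q2 (Λ : Submodule ℤ ℂ) (𝔪 : Ideal (integralClosure ℤ ℂ)) (E E' : ℂ) : Prop :=
  E ∈ mulR Λ ∧ E' ∈ mulR Λ ∧ ∃ x y : integralClosure ℤ ℂ, (x : ℂ) = E ∧ (y : ℂ) = E' ∧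
    x - y ∈ 𝔪 ∧ y ∉ 𝔪

lemma Q2.mul {Λ : Submodule ℤ ℂ} {𝔪 : Ideal (integralClosure ℤ ℂ)} (hp : 𝔪.IsPrime)
    {E E' G G' : ℂ} (h : Q2 Λ 𝔪 E E') (h' : Q2 Λ 𝔪 G G') : Q2 Λ 𝔪 (E * G) (E' * G') := by
  obtain ⟨h1, h2, x, y, hx, hy, hxy, hym⟩ := h
  obtain ⟨k1, k2, x', y', hx', hy', hxy', hym'⟩ := h'
  refine ⟨Subalgebra.mul_mem _ h1 k1, Subalgebra.mul_mem _ h2 k2, x * x', y * y', ?_, ?_, ?_, ?_⟩
  · push_cast
    rw [hx, hx']
  · push_cast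
    rw [hy, hy']
  · have h3 : x * x' - y * y' = (x - y) * x' + y * (x' - y') := by ring
    rw [h3]
    exact 𝔪.add_mem (𝔪.mul_mem_right _ hxy) (𝔪.mul_mem_left _ hxy')
  · intro h
    rcases hp.mem_or_mem h with h | h
    · exact hym h
    · exact hym' h

lemma Q2.one {Λ : Submodule ℤ ℂ} {𝔪 : Ideal (integralClosure ℤ ℂ)} (hp : 𝔪.IsPrime) :
    Q2 Λ 𝔪 1 1 := by
  refine ⟨Subalgebra.one_mem _, Subalgebra.one_mem _, 1, 1, rfl, rfl, ?_, fun h => ?_⟩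
  · rw [sub_self]
    exact 𝔪.zero_mem
  · exact hp.ne_top ((Ideal.eq_top_iff_one _).2 h)

lemma Q2.prod {Λ : Submodule ℤ ℂ} {𝔪 : Ideal (integralClosure ℤ ℂ)} (hp : 𝔪.IsPrime) {ι : Type}
    (s : Finset ι) (E E' : ι → ℂ) (h : ∀ i ∈ s, Q2 Λ 𝔪 (E i) (E' i)) :
    Q2 Λ 𝔪 (∏ i ∈ s, E i) (∏ i ∈ s, E' i) := by
  classical
  induction s using Finset.induction_on with
  | empty => rw [prod_empty, prod_empty]; exact Q2.one hp
  | insert a s ha ih =>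
    rw [prod_insert ha, prod_insert ha]
    exact Q2.mul hp (h a (mem_insert_self a s)) (ih fun i hi => h i (mem_insert_of_mem hi))

/-- the Euler-like factors -/
noncomputable def Efac (m : Fin r → ℕ) (cc e : Fin r → ℕ → ℂ)
    (χ₀ : (i : Fin r) → DirichletCharacter ℂ (c i)) (S : Finset ℕ) (χ : Fam) (i : Fin r) (p : ℕ) : ℂ :=
  cc i p - e i p * (p : ℂ) ^ (m i - 1) * (χ₀ i (p : ZMod (c i)) * ∏ q ∈ S, χ q (p : ZMod q)) -
    (p : ℂ) ^ (m i - 1) * (χ₀ i (p : ZMod (c i)) * ∏ q ∈ S, χ q (p : ZMod q))⁻¹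

omit [∀ i, NeZero (c i)] in
theorem efac_q2 {l b n : ℕ} (hl : l.Prime) (𝔪 : Ideal (integralClosure ℤ ℂ))
    (hmax : 𝔪.IsMaximal) (hlm : (l : integralClosure ℤ ℂ) ∈ 𝔪) (hn : 0 < n) (hbn : l ^ b ∣ n)
    (hcn : ∀ i, Nat.totient (c i) ∣ n) (χ₀ : (i : Fin r) → DirichletCharacter ℂ (c i))
    (h : ∀ i, Ksy (m i) (κ i) (cc i) (e i)) {S T : Finset ℕ} (hT : Adm l 𝔪 n χ₀ cc e T)
    (hST : S ⊆ T) (χ : Fam) (hχ : χ ^ (l ^ b) = 1) (i : Fin r) {p : ℕ} (hp : p ∈ T \ S) :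
    Q2 (Lam r κ n) 𝔪 (Efac m cc e χ₀ S χ i p) (Efac m cc e χ₀ ∅ 1 i p) := by
  classical
  rw [mem_sdiff] at hp
  obtain ⟨hpp, hpl, hpi⟩ := hT p hp.1
  obtain ⟨hpc, hpe, x, hxm, hxe⟩ := hpi i
  have hχn : χ₀ i (p : ZMod (c i)) ^ n = 1 := dc_root (hcn i) (χ₀ i) hpc
  have hχn' : ((χ₀ i (p : ZMod (c i)))⁻¹) ^ n = 1 := by rw [inv_pow, hχn, inv_one]
  set v : ℂ := ∏ q ∈ S, χ q (p : ZMod q) with hv
  have hvb : v ^ (l ^ b) = 1 := by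
    rw [hv, ← prod_pow]
    refine prod_eq_one fun q hq => ?_
    have hqp := (hT q (hST hq)).1
    have h1 : (χ q) ^ (l ^ b) = 1 := congrFun hχ q
    have h2 : ((χ q) ^ (l ^ b)) (p : ZMod q) = 1 := by
      rw [h1]
      refine one_val ((Nat.coprime_primes hpp hqp).2 ?_)
      rintro rfl
      exact hp.2 hq
    rwa [MulChar.pow_apply' _ (pow_pos hl.pos b).ne'] at h2
  have hvn : v ^ n = 1 := by
    obtain ⟨k, rfl⟩ := hbn
    rw [pow_mul, hvb, one_pow]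
  have hvb' : (v⁻¹) ^ (l ^ b) = 1 := by rw [inv_pow, hvb, inv_one]
  have hvn' : (v⁻¹) ^ n = 1 := by rw [inv_pow, hvn, inv_one]
  have hint : ∀ ζ : ℂ, ζ ^ n = 1 → ζ ∈ integralClosure ℤ ℂ := by
    intro ζ hζ
    refine IsIntegral.of_pow hn ?_
    rw [hζ]
    exact isIntegral_one
  have hpow : (p : ℂ) ^ (m i - 1) ∈ mulR (Lam r κ n) :=
    Subalgebra.pow_mem _ (natCast_mem _ p) _
  have hE1 : Efac m cc e χ₀ ∅ 1 i p = cc i p - e i p * (p : ℂ) ^ (m i - 1) *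
      χ₀ i (p : ZMod (c i)) - (p : ℂ) ^ (m i - 1) * (χ₀ i (p : ZMod (c i)))⁻¹ := by
    unfold Efac
    rw [prod_empty, mul_one]
  have hE2 : Efac m cc e χ₀ S χ i p = cc i p - e i p * (p : ℂ) ^ (m i - 1) *
      (χ₀ i (p : ZMod (c i)) * v) - (p : ℂ) ^ (m i - 1) * ((χ₀ i (p : ZMod (c i)))⁻¹ * v⁻¹) := by
    unfold Efac
    rw [← hv, mul_inv]
  have hmc := mul_hecke h i hpp hpe
  set ze : integralClosure ℤ ℂ := ⟨e i p, hint _ hpe⟩ with hze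
  set z0 : integralClosure ℤ ℂ := ⟨_, hint _ hχn⟩ with hz0
  set z0' : integralClosure ℤ ℂ := ⟨_, hint _ hχn'⟩ with hz0'
  set zv : integralClosure ℤ ℂ := ⟨v, hint _ hvn⟩ with hzv
  set zv' : integralClosure ℤ ℂ := ⟨v⁻¹, hint _ hvn'⟩ with hzv'
  set P : integralClosure ℤ ℂ := (p : integralClosure ℤ ℂ) ^ (m i - 1) with hP
  have m1 : 1 - zv ∈ 𝔪 := one_sub_mem hl 𝔪 hmax hlm (a := b) (Subtype.ext hvb)
  have m2 : 1 - zv' ∈ 𝔪 := one_sub_mem hl 𝔪 hmax hlm (a := b) (Subtype.ext hvb')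
  have h3 : 1 - P ∈ 𝔪 := by
    have h4 : (l : ℤ) ∣ 1 - (p : ℤ) ^ (m i - 1) :=
      hpl.trans (by
        have := sub_dvd_pow_sub_pow (1 : ℤ) (p : ℤ) (m i - 1)
        rwa [one_pow] at this)
    obtain ⟨t, ht⟩ := h4
    have h5 : 1 - P = (l : integralClosure ℤ ℂ) * (t : integralClosure ℤ ℂ) := by
      have := congrArg (fun z : ℤ => (z : integralClosure ℤ ℂ)) ht
      push_cast at this
      exact this
    rw [h5]
    exact Ideal.mul_mem_right _ _ hlm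
  have hy : x + (1 - P) * (ze * z0 + z0') ∉ 𝔪 := fun hmem =>
    hxm ((Ideal.add_mem_iff_left _ (Ideal.mul_mem_right _ _ h3)).1 hmem)
  refine ⟨?_, ?_, (x + (1 - P) * (ze * z0 + z0')) + (P * (ze * z0 * (1 - zv)) +
    P * (z0' * (1 - zv'))), x + (1 - P) * (ze * z0 + z0'), ?_, ?_, ?_, hy⟩
  · rw [hE2]
    refine Subalgebra.sub_mem _ (Subalgebra.sub_mem _ hmc ?_) ?_
    · exact Subalgebra.mul_mem _ (Subalgebra.mul_mem _ (mul_root hpe) hpow)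
        (Subalgebra.mul_mem _ (mul_root hχn) (mul_root hvn))
    · exact Subalgebra.mul_mem _ hpow (Subalgebra.mul_mem _ (mul_root hχn') (mul_root hvn'))
  · rw [hE1]
    refine Subalgebra.sub_mem _ (Subalgebra.sub_mem _ hmc ?_) ?_
    · exact Subalgebra.mul_mem _ (Subalgebra.mul_mem _ (mul_root hpe) hpow) (mul_root hχn)
    · exact Subalgebra.mul_mem _ hpow (mul_root hχn')
  · rw [hE2]
    push_cast
    rw [hxe, hze, hz0, hz0', hzv, hzv', hP]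
    push_cast
    ring
  · rw [hE1]
    push_cast
    rw [hxe, hze, hz0, hz0', hP]
    push_cast
    ring
  · rw [add_sub_cancel_left]
    exact 𝔪.add_mem (𝔪.mul_mem_left _ (𝔪.mul_mem_left _ m1))
      (𝔪.mul_mem_left _ (𝔪.mul_mem_left _ m2))

theorem abs_tower {l b n : ℕ} (hl : l.Prime) (𝔪 : Ideal (integralClosure ℤ ℂ))
    (hmax : 𝔪.IsMaximal) (hlm : (l : integralClosure ℤ ℂ) ∈ 𝔪) (hn : 0 < n) (hbn : l ^ b ∣ n)
    (hcn : ∀ i, Nat.totient (c i) ∣ n) (χ₀ : (i : Fin r) → DirichletCharacter ℂ (c i))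
    (h0 : ∀ i, (χ₀ i).IsPrimitive) (h : ∀ i, Ksy (m i) (κ i) (cc i) (e i))
    (L : Fin r → Submodule ℤ ℂ) (hL : ∀ i, (L i).FG)
    (hκL : ∀ i, ∀ q : ℕ, 0 < q → ∀ a : ℤ, κ i q a ∈ L i)
    (hbase : ∀ i, lw (κ i) (χ₀ i) 1 ∅ ≠ 0) :
    ∃ Lk : ℕ → ℕ, ∀ φ : ℕ → Fam, (∀ j, φ j ^ (l ^ b) = 1 ∧ ∃ S : Finset ℕ,
      (∀ q, q ∈ S ↔ φ j q ≠ 1) ∧ Adm l 𝔪 n χ₀ cc e S) → ∃ B : ℕ → Finset ℕ,
      (∀ k, (B k).Nonempty ∧ B k ⊆ Ico (Lk k) (Lk (k + 1))) ∧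
      ∀ ψ ∈ Subgroup.closure (Set.range fun k => ∏ j ∈ B k, φ j), ∃ S : Finset ℕ,
        (∀ q, q ∈ S ↔ ψ q ≠ 1) ∧ Adm l 𝔪 n χ₀ cc e S ∧ ∀ i, lw (κ i) (χ₀ i) ψ S ≠ 0 := by
  classical
  have hp𝔪 : 𝔪.IsPrime := hmax.isPrime
  have he0 : 0 < l ^ b := pow_pos hl.pos b
  have hFG := lam_fg (κ := κ) hn L hL hκL
  have hrootn : ∀ ζ : ℂ, ζ ^ (l ^ b) = 1 → ζ ^ n = 1 := by
    intro ζ hζ
    obtain ⟨k, rfl⟩ := hbn
    rw [pow_mul, hζ, one_pow]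
  have hint : ∀ ζ : ℂ, ζ ^ n = 1 → ζ ∈ integralClosure ℤ ℂ := by
    intro ζ hζ
    refine IsIntegral.of_pow hn ?_
    rw [hζ]
    exact isIntegral_one
  have hroot : ∀ ζ : ℂ, ζ ^ (l ^ b) = 1 → ζ ∈ mulR (Lam r κ n) ∧
      ∃ y : integralClosure ℤ ℂ, (y : ℂ) = ζ - 1 ∧ y ∈ 𝔪 := by
    intro ζ hζ
    refine ⟨mul_root (hrootn ζ hζ), (⟨ζ, hint ζ (hrootn ζ hζ)⟩ : integralClosure ℤ ℂ) - 1, rfl, ?_⟩
    have h1 : 1 - (⟨ζ, hint ζ (hrootn ζ hζ)⟩ : integralClosure ℤ ℂ) ∈ 𝔪 :=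
      one_sub_mem hl 𝔪 hmax hlm (a := b) (Subtype.ext hζ)
    have h2 := 𝔪.neg_mem h1
    rwa [neg_sub] at h2
  have hwL : ∀ T : Finset ℕ, (∀ q ∈ T, q.Prime) → ∀ u ∈ sT c T, wT κ χ₀ T u ∈ Lam r κ n := by
    intro T hT u hu
    unfold wT
    rw [prod_mul_distrib]
    refine lam_gen (κ := κ) ?_ (M := fun i => c i * ∏ q ∈ T, q) (fun i => ?_) fun i => (u i : ℤ)
    · rw [← prod_pow]
      refine prod_eq_one fun i _ => ?_
      rw [inv_pow, dc_root (hcn i) (χ₀ i) (mem_sT hu i).1, inv_one]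
    · exact Nat.mul_pos (Nat.pos_of_ne_zero (NeZero.ne (c i))) (prod_pos fun q hq => (hT q hq).pos)
  set x0 : ℂ := ∏ i, lw (κ i) (χ₀ i) 1 ∅ with hx0
  have hx0ne : x0 ≠ 0 := prod_ne_zero_iff.2 fun i _ => hbase i
  have hx0L : x0 ∈ Lam r κ n := by
    rw [hx0, ← sum_wT1]
    exact Submodule.sum_mem _ fun u hu => hwL ∅ (fun q hq => absurd hq (notMem_empty q)) u hu
  have hLne : Lam r κ n ≠ ⊥ := by
    intro hbot
    rw [hbot, Submodule.mem_bot] at hx0L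
    exact hx0ne hx0L
  obtain ⟨Fil, hF⟩ := filx_exists hl hFG hLne 𝔪 hmax hlm
  -- the place of `x0` in the filtration
  obtain ⟨n0, hn0, hn1⟩ : ∃ n0, x0 ∈ Fil n0 ∧ x0 ∉ Fil (n0 + 1) := by
    have h1 := hF.sep x0 hx0L hx0ne
    have h2 := Nat.find_spec h1
    have h3 : Nat.find h1 ≠ 0 := by
      intro h3
      rw [h3] at h2
      exact h2 ((hF.zero _).2 hx0L)
    obtain ⟨n0, hn0⟩ : ∃ n0, Nat.find h1 = n0 + 1 := ⟨Nat.find h1 - 1, by omega⟩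
    refine ⟨n0, ?_, ?_⟩
    · have h4 := Nat.find_min h1 (m := n0) (by omega)
      rwa [not_not] at h4
    · rwa [hn0] at h2
  -- change of the level
  have hlev : ∀ χ : Fam, ∀ S T : Finset ℕ, (∀ q, q ∈ S ↔ χ q ≠ 1) → S ⊆ T →
      Adm l 𝔪 n χ₀ cc e T → ∀ i, lw (κ i) (χ₀ i) χ T =
        (∏ p ∈ T \ S, Efac m cc e χ₀ S χ i p) * lw (κ i) (χ₀ i) χ S := by
    intro χ S T hS hST hT i
    exact lw_many (h i) (χ₀ i) (h0 i) χ hST (fun q hq => (hS q).1 hq) (fun q hq => by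
      by_contra hne
      exact hq ((hS q).2 hne)) (fun q hq => ⟨(hT q hq).1, ((hT q hq).2.2 i).1⟩)
  have hlev2 : ∀ χ : Fam, ∀ S T T' : Finset ℕ, (∀ q, q ∈ S ↔ χ q ≠ 1) → S ⊆ T → T ⊆ T' →
      Adm l 𝔪 n χ₀ cc e T' → ∀ i, lw (κ i) (χ₀ i) χ T' =
        (∏ p ∈ T' \ T, Efac m cc e χ₀ S χ i p) * lw (κ i) (χ₀ i) χ T := by
    intro χ S T T' hS hST hTT' hT' i
    rw [hlev χ S T' hS (hST.trans hTT') hT' i, hlev χ S T hS hST (hT'.mono hTT') i, ← mul_assoc]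
    congr 1
    rw [← prod_union (by
      rw [disjoint_left]
      intro p hp hp'
      exact (mem_sdiff.1 hp).2 (mem_sdiff.1 hp').1)]
    congr 1
    ext p
    simp only [mem_sdiff, mem_union]
    constructor
    · rintro ⟨h1, h2⟩
      by_cases h3 : p ∈ T
      · exact Or.inr ⟨h3, h2⟩
      · exact Or.inl ⟨h1, h3⟩
    · rintro (⟨h1, h2⟩ | ⟨h1, h2⟩)
      · exact ⟨h1, fun h3 => h2 (hST h3)⟩
      · exact ⟨hTT' h1, h2⟩
  have hone : ∀ q, q ∈ (∅ : Finset ℕ) ↔ (1 : Fam) q ≠ 1 := fun q =>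
    ⟨fun h => absurd h (notMem_empty q), fun h => absurd rfl h⟩
  have hF1 : ∀ T, Adm l 𝔪 n χ₀ cc e T → ∑ u ∈ sT c T, wT κ χ₀ T u =
      (∏ i, ∏ p ∈ T, Efac m cc e χ₀ ∅ 1 i p) * x0 := by
    intro T hT
    rw [sum_wT1, hx0, ← prod_mul_distrib]
    refine prod_congr rfl fun i _ => ?_
    rw [hlev 1 ∅ T hone (empty_subset T) hT i, sdiff_empty]
  have hQT : ∀ T, Adm l 𝔪 n χ₀ cc e T → Q2 (Lam r κ n) 𝔪 (∏ i, ∏ p ∈ T, Efac m cc e χ₀ ∅ 1 i p)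
      (∏ i, ∏ p ∈ T, Efac m cc e χ₀ ∅ 1 i p) := by
    intro T hT
    refine Q2.prod hp𝔪 _ _ _ fun i _ => Q2.prod hp𝔪 _ _ _ fun p hp => ?_
    refine efac_q2 (b := b) hl 𝔪 hmax hlm hn hbn hcn χ₀ h hT (empty_subset T) 1 (one_pow _) i ?_
    rwa [sdiff_empty]
  obtain ⟨Lk, hLk⟩ := tower (X := XE (l ^ b)) (e := l ^ b) (Λ := Lam r κ n) he0 hF hroot
    (fun χ => Subtype.ext χ.2.1) (sT c) (fun T u χ => evT T u (χ : Fam)) (wT κ χ₀)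
    (fun T => ⟨fun u hu => (evd T).one u hu, fun u hu χ φ => (evd T).mul u hu χ φ⟩) sup
    (by
      ext q
      rw [mem_sup]
      simp)
    (fun χ φ q hq => by
      rw [mem_sup] at hq
      rw [mem_union, mem_sup, mem_sup]
      by_contra hcon
      rw [not_or, not_not, not_not] at hcon
      apply hq
      have h1 : ((χ * φ : XE (l ^ b)) : Fam) q = (χ : Fam) q * (φ : Fam) q := rfl
      rw [h1, hcon.1, hcon.2, one_mul])
    (Adm l 𝔪 n χ₀ cc e) (fun T T' hT hT' q hq => by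
      rcases mem_union.1 hq with h1 | h1
      · exact hT q h1
      · exact hT' q h1)
    (fun q hq => absurd hq (notMem_empty q))
    (fun T hT u hu => hwL T (fun q hq => (hT q hq).1) u hu) n0
    (fun T T' hT hT' hTT' χ hχT hgood => by
      rw [sum_wT] at hgood ⊢
      have hχe : (χ : Fam) ^ (l ^ b) = 1 := χ.2.1
      have e1 : ∏ i, lw (κ i) (χ₀ i) (χ : Fam) T' =
          (∏ i, ∏ p ∈ T' \ T, Efac m cc e χ₀ (sup χ) χ i p) * ∏ i, lw (κ i) (χ₀ i) (χ : Fam) T := by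
        rw [← prod_mul_distrib]
        exact prod_congr rfl fun i _ => hlev2 χ (sup χ) T T' (mem_sup χ) hχT hTT' hT' i
      have e2 : ∑ u ∈ sT c T', wT κ χ₀ T' u =
          (∏ i, ∏ p ∈ T' \ T, Efac m cc e χ₀ ∅ 1 i p) * ∑ u ∈ sT c T, wT κ χ₀ T u := by
        have h3 : ∏ i, ∏ p ∈ T', Efac m cc e χ₀ ∅ 1 i p =
            (∏ i, ∏ p ∈ T' \ T, Efac m cc e χ₀ ∅ 1 i p) * ∏ i, ∏ p ∈ T, Efac m cc e χ₀ ∅ 1 i p := by
          rw [← prod_mul_distrib]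
          exact prod_congr rfl fun i _ => (prod_sdiff hTT').symm
        rw [hF1 T' hT', hF1 T hT, h3, mul_assoc]
      have hQ : Q2 (Lam r κ n) 𝔪 (∏ i, ∏ p ∈ T' \ T, Efac m cc e χ₀ (sup χ) χ i p)
          (∏ i, ∏ p ∈ T' \ T, Efac m cc e χ₀ ∅ 1 i p) := by
        refine Q2.prod hp𝔪 _ _ _ fun i _ => Q2.prod hp𝔪 _ _ _ fun p hp => ?_
        refine efac_q2 (b := b) hl 𝔪 hmax hlm hn hbn hcn χ₀ h hT' (hχT.trans hTT') χ hχe i ?_
        rw [mem_sdiff] at hp ⊢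
        exact ⟨hp.1, fun h1 => hp.2 (hχT h1)⟩
      rw [e1, e2]
      set a := ∏ i, ∏ p ∈ T' \ T, Efac m cc e χ₀ (sup χ) χ i p with ha
      set a' := ∏ i, ∏ p ∈ T' \ T, Efac m cc e χ₀ ∅ 1 i p with ha'
      set y := ∏ i, lw (κ i) (χ₀ i) (χ : Fam) T with hy
      set z := ∑ u ∈ sT c T, wT κ χ₀ T u with hz
      have hz0 : z ∈ Fil n0 := by
        rw [hz, hF1 T hT]
        exact hF.mul n0 _ (hQT T hT).1 _ hn0
      have hy0 : y ∈ Fil n0 := by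
        have h1 := Submodule.add_mem _ (hF.anti n0 _ hgood) hz0
        rwa [sub_add_cancel] at h1
      have h2 : a * y - a' * z = (a - a') * y + a' * (y - z) := by ring
      rw [h2]
      obtain ⟨q1, q2, x, x', hx, hx', hxx, -⟩ := hQ
      refine Submodule.add_mem _ (hF.step n0 y hy0 _ (Subalgebra.sub_mem _ q1 q2)
        ⟨x - x', ?_, hxx⟩) (hF.mul _ _ q2 _ hgood)
      push_cast
      rw [hx, hx'])
  refine ⟨Lk, fun φ hφ => ?_⟩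
  have hφX : ∀ j, φ j ∈ XE (l ^ b) := by
    intro j
    obtain ⟨h1, S, h2, -⟩ := hφ j
    refine ⟨h1, S.finite_toSet.subset fun q hq => ?_⟩
    exact mem_coe.2 ((h2 q).2 hq)
  have hadm : ∀ j, Adm l 𝔪 n χ₀ cc e (sup (⟨φ j, hφX j⟩ : XE (l ^ b))) := by
    intro j
    obtain ⟨h1, S, h2, h3⟩ := hφ j
    have h4 : sup (⟨φ j, hφX j⟩ : XE (l ^ b)) = S := by
      ext q
      rw [mem_sup, h2]
    rw [h4]
    exact h3
  obtain ⟨B, hB1, hB2⟩ := hLk (fun j => ⟨φ j, hφX j⟩) hadm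
  refine ⟨B, hB1, fun ψ hψ => ?_⟩
  have hBe : ∀ k, (∏ j ∈ B k, φ j) ^ (l ^ b) = 1 := by
    intro k
    rw [← prod_pow]
    exact prod_eq_one fun j _ => (hφX j).1
  obtain ⟨N, t, ht⟩ := closure_form he0 hBe hψ
  obtain ⟨T, hT, hST, hgood⟩ := hB2 N t
  set χ : XE (l ^ b) := ∏ i ∈ range N, (∏ k ∈ B i, (⟨φ k, hφX k⟩ : XE (l ^ b))) ^ t i with hχ
  have hχψ : (χ : Fam) = ψ := by
    rw [ht N le_rfl, hχ]
    push_cast
    rfl
  refine ⟨sup χ, fun q => by rw [mem_sup, hχψ], hT.mono hST, ?_⟩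
  have h1 : ∏ i, lw (κ i) (χ₀ i) ψ T ≠ 0 := by
    intro h2
    rw [sum_wT, hχψ, h2, zero_sub] at hgood
    have h3 := Submodule.neg_mem _ hgood
    rw [neg_neg, hF1 T hT] at h3
    obtain ⟨q1, -, x, x', -, hx', -, hxm⟩ := hQT T hT
    exact hn1 (hF.unit (n0 + 1) _ q1 ⟨x', hx', hxm⟩ x0 hx0L h3)
  intro i h2
  apply h1
  refine prod_eq_zero (mem_univ i) ?_
  rw [hlev ψ (sup χ) T (fun q => by rw [mem_sup, hχψ]) hST hT i, h2, mul_zero]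

end

end Pool.Agent.Y683.CG
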